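import Pool.Agent.Work.MP_3218de_al.UN.Stmts

set_option autoImplicit false

/-!
# MP_3218de_al, block UN, item MC: an example is not simple (McLain)
-/

namespace Pool.Agent.UN

open Pool.Agent.HL3218
open scoped commutatorElement

namespace MC

variable {G : Type} [Group G]

/-- the subgroup generated by the conjugates of `c` under a finitely generated subgroup -/
def A (c : G) (F : Finset G) : Subgroup G :=
  Subgroup.closure {z | ∃ h ∈ Subgroup.closure (F : Set G), z = h * c * h⁻¹}

theorem A_mono (c : G) {F F' : Finset G} (h : F ⊆ F') : A c F ≤ A c F' := by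
  refine Subgroup.closure_mono ?_
  rintro z ⟨g, hg, rfl⟩
  exact ⟨g, Subgroup.closure_mono (by exact_mod_cast h) hg, rfl⟩

theorem mem_A (c x : G) (hx : x ∈ Subgroup.normalClosure {c}) : ∃ F : Finset G, x ∈ A c F := by
  classical
  have hd : Directed (· ≤ ·) (A c) := by
    intro s t
    exact ⟨s ∪ t, A_mono c Finset.subset_union_left, A_mono c Finset.subset_union_right⟩
  have h1 : Subgroup.normalClosure {c} ≤ ⨆ F, A c F := by
    unfold Subgroup.normalClosure
    rw [Subgroup.closure_le]
    intro z hz
    rw [Group.mem_conjugatesOfSet_iff] at hz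
    obtain ⟨a, ha, hz⟩ := hz
    rw [Set.mem_singleton_iff] at ha
    subst ha
    rw [isConj_iff] at hz
    obtain ⟨g, rfl⟩ := hz
    exact Subgroup.mem_iSup_of_mem {g} (Subgroup.subset_closure
      ⟨g, Subgroup.subset_closure (by simp), rfl⟩)
  exact (Subgroup.mem_iSup_of_directed hd).1 (h1 hx)

end MC

theorem pr_MC : StMC := by
  classical
  intro p G _ hG
  have : Fact p.Prime := ⟨hG.prime⟩
  have := hG.nontriv
  have hxy : ∃ x y : G, ⁅x, y⁆ ≠ 1 := by
    by_contra hcon
    push Not at hcon
    have h1 : commutator G = ⊥ := by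
      rw [eq_bot_iff, commutator_eq_closure, Subgroup.closure_le]
      rintro _ ⟨x, y, rfl⟩
      exact hcon x y
    have h2 := hG.perfect
    rw [h1] at h2
    exact bot_ne_top h2
  obtain ⟨x, y, hc⟩ := hxy
  refine ⟨Subgroup.normalClosure {⁅x, y⁆}, inferInstance, ?_, ?_⟩
  · intro h
    have h1 : ⁅x, y⁆ ∈ Subgroup.normalClosure {⁅x, y⁆} :=
      Subgroup.subset_normalClosure (Set.mem_singleton _)
    rw [h] at h1
    exact hc (Subgroup.mem_bot.1 h1)
  · intro htop
    have hx : x ∈ Subgroup.normalClosure {⁅x, y⁆} := by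
      rw [htop]
      exact Subgroup.mem_top x
    obtain ⟨F, hF⟩ := MC.mem_A _ x hx
    set F' : Finset G := F ∪ {x, y} with hF'
    set H : Subgroup G := Subgroup.closure (F' : Set G) with hH
    have hxH : x ∈ H := Subgroup.subset_closure (by rw [hF']; simp)
    have hyH : y ∈ H := Subgroup.subset_closure (by rw [hF']; simp)
    have hxA : x ∈ MC.A ⁅x, y⁆ F' := MC.A_mono _ Finset.subset_union_left hF
    have : Finite H := hG.locfin F'
    have hpH : IsPGroup p H := hG.pgroup.to_subgroup H
    have hnil : Group.IsNilpotent H := hpH.isNilpotent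
    obtain ⟨n, hn⟩ := (Subgroup.isNilpotent_iff_lowerCentralSeries H).1 hnil
    have key : ∀ m, x ∈ H.lowerCentralSeries m := by
      intro m
      induction m with
      | zero => exact hxH
      | succ m ih =>
        have h1 : ⁅x, y⁆ ∈ H.lowerCentralSeries (m + 1) := by
          rw [Subgroup.lowerCentralSeries_succ]
          exact Subgroup.commutator_mem_commutator ih hyH
        have h2 : MC.A ⁅x, y⁆ F' ≤ H.lowerCentralSeries (m + 1) := by
          unfold MC.A
          rw [Subgroup.closure_le]
          rintro z ⟨h, hh, rfl⟩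
          have h3 := H.self_le_normalizer_lowerCentralSeries (m + 1) hh
          exact ((Subgroup.mem_normalizer_iff.1 h3) _).1 h1
        exact h2 hxA
    have h1 := key n
    rw [hn, Subgroup.mem_bot] at h1
    exact hc (by rw [h1, commutatorElement_one_left])

end Pool.Agent.UN
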