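import Pool.Agent.Work.MP_3218de_al.UN.S4

set_option autoImplicit false
set_option linter.style.haveILetI false

/-!
# MP_3218de_al, block UN: subnormal images, part 5 (perfect central extensions, quotients of groups
of units by central subgroups)
-/

namespace Pool.Agent.UN

open Pool.Agent.HL3218 Subgroup
open scoped commutatorElement

universe u v

theorem comm_mul_of_comm {S : Type v} [Group S] (a b z w : S) (hz : z * (b * w) = b * w * z)
    (hw : w * a⁻¹ = a⁻¹ * w) : ⁅a * z, b * w⁆ = ⁅a, b⁆ := by
  rw [commutatorElement_def, commutatorElement_def, mul_inv_rev, mul_inv_rev]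
  calc a * z * (b * w) * (z⁻¹ * a⁻¹) * (w⁻¹ * b⁻¹)
      = a * (z * (b * w)) * (z⁻¹ * a⁻¹) * (w⁻¹ * b⁻¹) := by simp only [mul_assoc]
    _ = a * ((b * w) * z) * (z⁻¹ * a⁻¹) * (w⁻¹ * b⁻¹) := by rw [hz]
    _ = a * b * (w * a⁻¹) * (w⁻¹ * b⁻¹) := by group
    _ = a * b * (a⁻¹ * w) * (w⁻¹ * b⁻¹) := by rw [hw]
    _ = a * b * a⁻¹ * b⁻¹ := by group

theorem comm_mul_central {S : Type v} [Group S] (a b z w : S) (hz : ∀ x, z * x = x * z)
    (hw : ∀ x, w * x = x * w) : ⁅a * z, b * w⁆ = ⁅a, b⁆ :=
  comm_mul_of_comm a b z w (hz _) (hw _)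

theorem finite_commutatorSet {S : Type} [Group S] (h : (center S).FiniteIndex) :
    Finite (commutatorSet S) := by
  classical
  haveI : Finite (S ⧸ center S) := finite_quotient_of_finiteIndex
  have h1 : commutatorSet S ⊆ Set.range
      (fun q : (S ⧸ center S) × (S ⧸ center S) => ⁅q.1.out, q.2.out⁆) := by
    rintro _ ⟨a, b, rfl⟩
    refine ⟨((a : S ⧸ center S), (b : S ⧸ center S)), ?_⟩
    obtain ⟨z, hz⟩ := QuotientGroup.mk_out_eq_mul (center S) a
    obtain ⟨w, hw⟩ := QuotientGroup.mk_out_eq_mul (center S) b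
    change ⁅(a : S ⧸ center S).out, (b : S ⧸ center S).out⁆ = ⁅a, b⁆
    rw [hz, hw]
    exact comm_mul_central a b z w (fun x => (mem_center_iff.1 z.2 x).symm)
      (fun x => (mem_center_iff.1 w.2 x).symm)
  exact ((Set.finite_range _).subset h1).to_subtype

section ext

variable {p : ℕ} {G : Type} [Group G] {H : Type} [Group H]

theorem derived_fg (hG : Exm p G) (φ : H →* G) (hker : φ.ker ≤ center H)
    (F : Finset H) :
    Finite (⁅closure (F : Set H), closure (F : Set H)⁆ : Subgroup H) ∧
      ∃ k : ℕ, ∀ x ∈ ⁅closure (F : Set H), closure (F : Set H)⁆, x ^ p ^ k = 1 := by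
  classical
  haveI : Fact p.Prime := ⟨hG.prime⟩
  set S : Subgroup H := closure (F : Set H) with hS
  let ψ : S →* G := φ.comp S.subtype
  haveI hfin : Finite ψ.range := by
    have h1 : ψ.range = closure ((F.image φ : Finset G) : Set G) := by
      rw [MonoidHom.range_eq_map, ← Subgroup.map_map, ← MonoidHom.range_eq_map,
        Subgroup.range_subtype, hS, MonoidHom.map_closure]
      congr 1
      ext x
      simp
    rw [h1]
    exact hG.locfin _
  haveI : ψ.ker.FiniteIndex := finiteIndex_ker ψ
  have hkc : ψ.ker ≤ center S := by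
    intro x hx
    rw [mem_center_iff]
    intro y
    have h2 : (x : H) ∈ center H := hker hx
    exact Subtype.ext (mem_center_iff.1 h2 y)
  haveI hci : (center S).FiniteIndex := finiteIndex_of_le hkc
  haveI : Finite (commutatorSet S) := finite_commutatorSet hci
  have hmap : (_root_.commutator S).map S.subtype = ⁅S, S⁆ := by
    rw [_root_.commutator, map_commutator, ← MonoidHom.range_eq_map, range_subtype]
  refine ⟨?_, ?_⟩
  · rw [← hmap]
    haveI h8 : Finite (_root_.commutator S) := inferInstance
    have h3 : (((_root_.commutator S : Subgroup S) : Set S)).Finite := Set.toFinite _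
    have h4 := h3.image S.subtype
    rw [← coe_map] at h4
    exact h4.to_subtype
  · have h5 : (center S).index ∣ ψ.ker.index := index_dvd_of_le hkc
    obtain ⟨n, hn⟩ := IsPGroup.iff_card.1 (hG.pgroup.to_subgroup ψ.range)
    rw [index_ker, hn] at h5
    obtain ⟨k, -, hk⟩ := (Nat.dvd_prime_pow hG.prime).1 h5
    refine ⟨k, fun x hx => ?_⟩
    rw [← hmap] at hx
    obtain ⟨y, hy, rfl⟩ := hx
    have h9 : _root_.commutator S ≤ (MonoidHom.transferCenterPow S).ker := by
      rw [_root_.commutator_def, commutator_le]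
      intro a _ b _
      rw [MonoidHom.mem_ker, map_commutatorElement, commutatorElement_eq_one_iff_mul_comm]
      apply Subtype.ext
      exact (mem_center_iff.1 (MonoidHom.transferCenterPow S a).2 _).symm
    have h6 := h9 hy
    rw [MonoidHom.mem_ker] at h6
    have h7 : y ^ (center S).index = 1 := by
      rw [← MonoidHom.transferCenterPow_apply, h6]
      rfl
    rw [hk] at h7
    rw [← map_pow, h7, map_one]

/-- a perfect central extension of an example is an example -/
theorem central_ext (hG : Exm p G) (φ : H →* G) (hφ : Function.Surjective φ)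
    (hker : φ.ker ≤ center H) (hperf : commutator H = ⊤) : Exm p H := by
  classical
  haveI := hG.nontriv
  haveI : Nontrivial H := hφ.nontrivial
  refine ⟨hG.prime, inferInstance, ?_, hperf, ?_, ?_⟩
  · intro x
    obtain ⟨F, hF⟩ := exists_finset_commutator hperf x
    obtain ⟨-, k, hk⟩ := derived_fg hG φ hker F
    exact ⟨k, hk x hF⟩
  · intro s
    choose F hF using exists_finset_commutator hperf
    let F' : Finset H := s.biUnion F
    obtain ⟨hfin, -⟩ := derived_fg hG φ hker F'
    have h1 : closure (s : Set H) ≤ ⁅closure (F' : Set H), closure (F' : Set H)⁆ := by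
      rw [closure_le]
      intro x hx
      have h2 : closure (F x : Set H) ≤ closure (F' : Set H) := by
        apply Subgroup.closure_mono
        intro y hy
        rw [Finset.mem_coe, Finset.mem_biUnion]
        exact ⟨x, hx, hy⟩
      exact commutator_mono h2 h2 (hF x)
    have h3 : ((⁅closure (F' : Set H), closure (F' : Set H)⁆ : Subgroup H) : Set H).Finite :=
      Set.toFinite _
    exact (h3.subset h1).to_subtype
  · intro L hL
    have hne : L.map φ ≠ ⊤ := by
      intro h0
      apply hL
      rw [eq_top_iff, ← hperf, _root_.commutator_eq_closure, closure_le]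
      rintro _ ⟨a, b, rfl⟩
      have h1 : ∀ a : H, ∃ l ∈ L, ∃ z ∈ center H, a = l * z := by
        intro a
        have h2 : φ a ∈ L.map φ := by
          rw [h0]
          exact mem_top _
        obtain ⟨l, hl, hla⟩ := h2
        refine ⟨l, hl, l⁻¹ * a, hker ?_, by rw [mul_inv_cancel_left]⟩
        rw [MonoidHom.mem_ker, map_mul, map_inv, hla, inv_mul_cancel]
      obtain ⟨l, hl, z, hz, rfl⟩ := h1 a
      obtain ⟨l', hl', z', hz', rfl⟩ := h1 b
      rw [SetLike.mem_coe, comm_mul_central l l' z z' (fun x => (mem_center_iff.1 hz x).symm)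
        (fun x => (mem_center_iff.1 hz' x).symm), commutatorElement_def]
      exact mul_mem (mul_mem (mul_mem hl hl') (inv_mem hl)) (inv_mem hl')
    obtain ⟨h1, h2⟩ := hG.proper _ hne
    constructor
    · obtain ⟨d, hd⟩ := (solvable_iff _).1 h1
      refine (solvable_iff L).2 ⟨d + 1, ?_⟩
      have h3 : Dn d L ≤ center H := by
        intro x hx
        apply hker
        rw [MonoidHom.mem_ker]
        have h4 : φ x ∈ Dn d (L.map φ) := by
          rw [← Dn_map]
          exact mem_map_of_mem φ hx
        rw [hd] at h4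
        exact mem_bot.1 h4
      rw [eq_bot_iff]
      change ⁅Dn d L, Dn d L⁆ ≤ ⊥
      rw [commutator_le]
      intro a ha b _
      rw [mem_bot, commutatorElement_eq_one_iff_mul_comm]
      exact (mem_center_iff.1 (h3 ha) b).symm
    · intro N hN hNt
      by_cases hK : ∀ k : L, φ k = 1 → k ∈ N
      · let ψ : L →* L.map φ := φ.subgroupMap L
        have hψ : Function.Surjective ψ := φ.subgroupMap_surjective L
        have hψv : ∀ x : L, ((ψ x : L.map φ) : G) = φ x := fun x => rfl
        have hback : ∀ y : L, ψ y ∈ N.map ψ → y ∈ N := by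
          rintro y ⟨n, hn, hny⟩
          have h3 : n⁻¹ * y ∈ N := by
            apply hK
            have h4 : φ (n : H) = φ (y : H) := by
              rw [← hψv, ← hψv, hny]
            rw [coe_mul, coe_inv, map_mul, map_inv, h4, inv_mul_cancel]
          have h5 := mul_mem hn h3
          rwa [mul_inv_cancel_left] at h5
        have hNt' : N.map ψ ≠ ⊤ := by
          intro h0
          apply hNt
          rw [eq_top_iff]
          intro y _
          apply hback
          rw [h0]
          exact mem_top _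
        obtain ⟨x, hx, hxy⟩ := h2 (N.map ψ) (hN.map ψ hψ) hNt'
        obtain ⟨x, rfl⟩ := hψ x
        refine ⟨x, fun h0 => hx (mem_map_of_mem ψ h0), fun y => ?_⟩
        apply hback
        rw [map_mul, map_mul, map_mul, map_inv, map_inv]
        exact hxy (ψ y)
      · push Not at hK
        obtain ⟨k, hk1, hk2⟩ := hK
        refine ⟨k, hk2, fun y => ?_⟩
        have h3 : (k : H) ∈ center H := hker hk1
        have h4 : k * y = y * k := Subtype.ext (mem_center_iff.1 h3 y).symm
        rw [h4, mul_inv_cancel_right, mul_inv_cancel]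
        exact one_mem _

end ext

section final

variable {G : Type} [Group G]

/-- the theorem for subnormal images in quotients of groups of units by a normal subgroup `Z` which
is central in the preimage of `f(G)` -/
theorem main_central {p : ℕ} (hG : Exm p G) {A : Type u} [Ring A] (Z : Subgroup Aˣ) [Z.Normal]
    (f : G →* Aˣ ⧸ Z) (hZ : ∀ z ∈ Z, ∀ v : Aˣ, (v : Aˣ ⧸ Z) ∈ f.range → z * v = v * z)
    (hf : f ≠ 1) (r : ℕ) :
    ∃ u : Aˣ, (u : A) ∈ Subring.closure {a : A | ∃ v : Aˣ, (v : A) = a ∧
        (v : Aˣ ⧸ Z) ∈ f.range} ∧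
      IsNilpotent ((u : A) - 1) ∧
      ∃ l : List G, l.length = r ∧ cm (u : Aˣ ⧸ Z) (l.map f) ∉ f.range := by
  classical
  let q : Aˣ →* Aˣ ⧸ Z := QuotientGroup.mk' Z
  have hq : Function.Surjective q := QuotientGroup.mk'_surjective Z
  have hqv : ∀ v : Aˣ, q v = (v : Aˣ ⧸ Z) := fun v => rfl
  have hqZ : ∀ v : Aˣ, q v = 1 → ∀ x, q x ∈ f.range → v * x = x * v := by
    intro v hv x hx
    exact hZ v ((QuotientGroup.eq_one_iff v).1 hv) x hx
  choose n hn using fun g : G => hq (f g)
  -- the perfect cover of `f(G)`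
  let Φ : FreeGroup (G × G) →* Aˣ := FreeGroup.lift fun x => ⁅n x.1, n x.2⁆
  let H : Type := FreeGroup (G × G) ⧸ Φ.ker
  let ι : H →* Aˣ := QuotientGroup.kerLift Φ
  have hι : Function.Injective ι := QuotientGroup.kerLift_injective Φ
  have hmk : ∀ x, ι (QuotientGroup.mk x) = Φ x := fun x => rfl
  have hqΦ : ∀ x, q (Φ x) ∈ f.range := by
    intro x
    induction x using FreeGroup.induction_on with
    | C1 => rw [map_one, map_one]; exact one_mem _
    | of x =>
      refine ⟨⁅x.1, x.2⁆, ?_⟩
      rw [FreeGroup.lift_apply_of, map_commutatorElement, map_commutatorElement, hn, hn]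
    | inv_of x h => rw [map_inv, map_inv]; exact inv_mem h
    | mul x y hx hy => rw [map_mul, map_mul]; exact mul_mem hx hy
  have hqι : ∀ h : H, q (ι h) ∈ f.range := by
    intro h
    obtain ⟨x, rfl⟩ := QuotientGroup.mk_surjective h
    exact hqΦ x
  -- every element of `f(G)` is the image of an element of `H`
  have hcov : ∀ g : G, ∃ h : H, q (ι h) = f g := by
    intro g
    have h1 : (⊤ : Subgroup G).map f ≤ (q.comp ι).range := by
      rw [← hG.perfect, _root_.commutator_eq_closure, MonoidHom.map_closure, closure_le]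
      rintro _ ⟨_, ⟨a, b, rfl⟩, rfl⟩
      refine ⟨QuotientGroup.mk (FreeGroup.of (a, b)), ?_⟩
      change q (Φ (FreeGroup.of (a, b))) = f ⁅a, b⁆
      rw [FreeGroup.lift_apply_of, map_commutatorElement, map_commutatorElement, hn, hn]
    obtain ⟨h, hh⟩ := h1 (mem_map_of_mem f (mem_top g))
    exact ⟨h, hh⟩
  choose m hm using hcov
  -- central correction
  have hcent : ∀ a b : Aˣ, q a = q b → ∀ x, q x ∈ f.range →
      (b⁻¹ * a) * x = x * (b⁻¹ * a) := by
    intro a b hab
    apply hqZ
    rw [map_mul, map_inv, hab, inv_mul_cancel]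
  have hcomm : ∀ a b c d : Aˣ, q a = q c → q b = q d → q c ∈ f.range → q d ∈ f.range →
      ⁅a, b⁆ = ⁅c, d⁆ := by
    intro a b c d hac hbd hc hd
    have h1 := comm_mul_of_comm c d (c⁻¹ * a) (d⁻¹ * b)
      (hcent a c hac _ (by rw [mul_inv_cancel_left, hbd]; exact hd))
      (hcent b d hbd _ (by rw [map_inv]; exact inv_mem hc))
    rwa [mul_inv_cancel_left, mul_inv_cancel_left] at h1
  have hperfH : commutator H = ⊤ := by
    have key : ∀ x, (QuotientGroup.mk x : H) ∈ commutator H := by
     intro x
     induction x using FreeGroup.induction_on with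
     | C1 => exact one_mem _
     | of x =>
       have h2 : (QuotientGroup.mk (FreeGroup.of x) : H) = ⁅m x.1, m x.2⁆ := by
         apply hι
         rw [map_commutatorElement, hmk, FreeGroup.lift_apply_of]
         exact hcomm _ _ _ _ (by rw [hn, hm]) (by rw [hn, hm]) (hqι _) (hqι _)
       rw [h2]
       exact commutator_mem_commutator (mem_top _) (mem_top _)
     | inv_of x h => exact inv_mem h
     | mul x y hx hy => exact mul_mem hx hy
    rw [eq_top_iff]
    intro h _
    obtain ⟨x, rfl⟩ := QuotientGroup.mk_surjective h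
    exact key x
  -- the homomorphism to `G ⧸ ker f`
  have hkt : f.ker ≠ ⊤ := by
    intro h0
    apply hf
    ext g
    have h1 : g ∈ f.ker := h0 ▸ mem_top g
    exact h1
  haveI : Nontrivial (G ⧸ f.ker) := QuotientGroup.nontrivial_iff.2 hkt
  have hQ : Exm p (G ⧸ f.ker) := hG.map (QuotientGroup.mk' f.ker) (QuotientGroup.mk'_surjective _)
  let e : G ⧸ f.ker ≃* f.range := QuotientGroup.quotientKerEquivRange f
  let φ : H →* G ⧸ f.ker :=
    e.symm.toMonoidHom.comp ((q.comp ι).codRestrict f.range hqι)
  have hφker : ∀ h, φ h = 1 → q (ι h) = 1 := by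
    intro h hh
    have h1 : ((q.comp ι).codRestrict f.range hqι) h = 1 := by
      apply e.symm.injective
      rw [map_one]
      exact hh
    exact congrArg Subtype.val h1
  have hφs : Function.Surjective φ := by
    intro y
    obtain ⟨g, rfl⟩ := QuotientGroup.mk_surjective y
    refine ⟨m g, ?_⟩
    change e.symm (((q.comp ι).codRestrict f.range hqι) (m g)) = _
    rw [MulEquiv.symm_apply_eq]
    apply Subtype.ext
    exact hm g
  have hφc : φ.ker ≤ center H := by
    intro h hh
    rw [mem_center_iff]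
    intro y
    apply hι
    rw [map_mul, map_mul]
    exact (hqZ _ (hφker h hh) _ (hqι y)).symm
  have hH : Exm p H := central_ext hQ φ hφs hφc hperfH
  have hι1 : ι ≠ 1 := by
    intro h0
    haveI := hH.nontriv
    obtain ⟨x, hx⟩ := exists_ne (1 : H)
    apply hx
    apply hι
    rw [h0]
    rfl
  obtain ⟨u, hu1, hu2, l, hl, hul⟩ := main_r hH ι hι1 (r + 1)
  refine ⟨u, ?_, hu2, ?_⟩
  · refine Subring.closure_mono ?_ hu1
    rintro _ ⟨h, rfl⟩
    exact ⟨ι h, rfl, hqι h⟩
  · obtain ⟨l0, h, rfl⟩ : ∃ l0 : List H, ∃ h, l = l0 ++ [h] := by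
      rcases List.eq_nil_or_concat' l with rfl | ⟨l0, h, rfl⟩
      · simp at hl
      · exact ⟨l0, h, rfl⟩
    choose k hk using fun h : H => hqι h
    refine ⟨l0.map k, by simpa using hl, ?_⟩
    rintro ⟨g, hg⟩
    apply hul
    have h1 : q (cm u (l0.map ι)) = f g := by
      rw [hg, cm_map, List.map_map, List.map_map]
      congr 1
      exact List.map_congr_left fun h _ => (hk h).symm
    rw [List.map_append, cm_append, List.map_singleton]
    change (cm u (l0.map ι))⁻¹ * (ι h)⁻¹ * cm u (l0.map ι) * ι h ∈ ι.range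
    have h2 : ∀ a b : Aˣ, a⁻¹ * b⁻¹ * a * b = ⁅a⁻¹, b⁻¹⁆ := by
      intro a b
      rw [commutatorElement_def, inv_inv, inv_inv]
    rw [h2]
    have h3 : ⁅(cm u (l0.map ι))⁻¹, (ι h)⁻¹⁆ = ⁅(ι (m g))⁻¹, (ι h)⁻¹⁆ :=
      hcomm _ _ _ _ (by rw [map_inv, map_inv, h1, hm]) rfl
        (by rw [map_inv]; exact inv_mem (hqι _)) (by rw [map_inv]; exact inv_mem (hqι _))
    rw [h3, ← map_inv, ← map_inv, ← map_commutatorElement]
    exact ⟨_, rfl⟩

end final

end Pool.Agent.UN
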