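import Pool.Agent.Work.MP_3218de_al.UN.Stmts

set_option autoImplicit false

/-!
# MP_3218de_al, block UN, items XT, A2, A3
-/

namespace Pool.Agent.UN

open Pool.Agent.HL3218

universe u

theorem pr_XT : StXT.{u} := by
  intro R _ N a q h
  have key : ∀ (n : ℕ) (l₁ l₂ : List R), l₁.length = n → l₁.length + l₂.length = q →
      (l₁.map fun c => a * (a * c)).prod * (l₂.map fun c => a * (1 + a * c)).prod * a ∈ N := by
    intro n
    induction n with
    | zero =>
      intro l₁ l₂ h1 h2
      rw [List.length_eq_zero_iff.1 h1] at h2 ⊢
      rw [List.map_nil, List.prod_nil, one_mul]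
      exact h l₂ (by simpa using h2)
    | succ n ih =>
      intro l₁ l₂ h1 h2
      rcases List.eq_nil_or_concat' l₁ with rfl | ⟨l, c, rfl⟩
      · simp at h1
      · have h3 : l.length = n := by simpa using h1
        have h4 := ih l (c :: l₂) h3 (by simp at h2 ⊢; omega)
        have h5 := ih l (0 :: l₂) h3 (by simp at h2 ⊢; omega)
        have h6 := sub_mem h4 h5
        rw [List.map_append, List.prod_append, List.map_singleton, List.prod_singleton]
        rw [List.map_cons, List.prod_cons, List.map_cons, List.prod_cons] at h6
        have h7 : (l.map fun c => a * (a * c)).prod * (a * (1 + a * c) *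
            (l₂.map fun c => a * (1 + a * c)).prod) * a -
            (l.map fun c => a * (a * c)).prod * (a * (1 + a * 0) *
            (l₂.map fun c => a * (1 + a * c)).prod) * a =
            (l.map fun c => a * (a * c)).prod * (a * (a * c)) *
            (l₂.map fun c => a * (1 + a * c)).prod * a := by noncomm_ring
        rw [h7] at h6
        exact h6
  intro l hl
  have := key l.length l [] rfl (by simpa using hl)
  simpa using this

namespace A2

variable {R : Type u} [Ring R] {G : Type} [Group G]

theorem claim (hJI : StJI.{u}) (f : G →* Rˣ) (hs : Spn f) (hnil : ∀ x ∈ Jn f, IsNilpotent x)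
    (hN : NrmJ f) (g : G) (K : Subgroup G) (hK : ∀ h, h ∈ K ↔ ∃ r : R, de f h = de f g * r) :
    ∀ (l : List R) (w : Rˣ) (t : R), (w : R) = 1 + de f g * t →
    ∃ (k : List G) (w' : Rˣ), (∀ x ∈ k, x ∈ K) ∧ k.length = l.length + 1 ∧
      (w : R) * ((l.map fun c => de f g * (1 + de f g * c)).prod * de f g) =
        (k.map (de f)).prod * (w' : R) := by
  have haJ : de f g ∈ Jn f := AddSubgroup.subset_closure ⟨g, rfl⟩
  have base : ∀ (w : Rˣ) (t : R), (w : R) = 1 + de f g * t →
      ∃ h ∈ K, de f h = (w : R) * de f g * (w⁻¹ : Rˣ) := by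
    intro w t hw
    obtain ⟨h, hh⟩ := hN w (by
      rw [hw, add_sub_cancel_left]
      exact (hJI G R f hs _ haJ t).2) g
    have h1 : de f h = (w : R) * de f g * (w⁻¹ : Rˣ) := by
      unfold de
      rw [hh, Units.val_mul, Units.val_mul, mul_sub, sub_mul, mul_one, Units.mul_inv]
    refine ⟨h, ?_, h1⟩
    rw [hK]
    refine ⟨(1 + t * de f g) * (w⁻¹ : Rˣ), ?_⟩
    rw [h1, hw]
    noncomm_ring
  intro l
  induction l with
  | nil =>
    intro w t hw
    obtain ⟨h, hh, h1⟩ := base w t hw
    refine ⟨[h], w, by simpa using hh, rfl, ?_⟩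
    rw [List.map_nil, List.prod_nil, one_mul, List.map_singleton, List.prod_singleton, h1,
      mul_assoc, Units.inv_mul, mul_one]
  | cons c l ih =>
    intro w t hw
    obtain ⟨h, hh, h1⟩ := base w t hw
    have hcJ : de f g * c ∈ Jn f := (hJI G R f hs _ haJ c).2
    obtain ⟨u, hu⟩ := (hnil _ hcJ).isUnit_one_add
    obtain ⟨k, w', hk, hkl, hkw⟩ := ih (w * u) (t + c + t * de f g * c) (by
      rw [Units.val_mul, hu, hw]
      noncomm_ring)
    refine ⟨h :: k, w', ?_, by simp [hkl], ?_⟩
    · intro x hx
      rcases List.mem_cons.1 hx with rfl | hx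
      · exact hh
      · exact hk x hx
    · rw [List.map_cons, List.prod_cons, List.map_cons, List.prod_cons, mul_assoc (de f h), ← hkw,
        h1, ← hu, Units.val_mul]
      have h2 : (w : R) * de f g * (w⁻¹ : Rˣ) * ((w : R) * (u : R) *
          ((l.map fun c => de f g * (1 + de f g * c)).prod * de f g)) =
          (w : R) * de f g * ((w⁻¹ : Rˣ) * (w : R)) * (u : R) *
          ((l.map fun c => de f g * (1 + de f g * c)).prod * de f g) := by
        simp only [mul_assoc]
      rw [h2, Units.inv_mul, mul_one]
      simp only [mul_assoc]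

end A2

theorem pr_A2 : StA2.{u} := by
  intro hJI hXT G _ R _ f hs hnil hN g K hK N _ q hl r
  have h1 : ∀ l : List R, l.length = q →
      (l.map fun c => de f g * (1 + de f g * c)).prod * de f g ∈ N := by
    intro l hlq
    obtain ⟨k, w', hk, hkl, hkw⟩ := A2.claim hJI f hs hnil hN g K hK l 1 0 (by simp)
    rw [Units.val_one, one_mul] at hkw
    rw [hkw]
    exact N.mul_mem_right _ (hl k (by rw [hkl, hlq]) hk)
  have h2 := hXT R N (de f g) q h1 ((List.range q).map r) (by simp)
  rw [List.map_map] at h2
  have h3 : ((fun c => de f g * (de f g * c)) ∘ r) = fun i => (de f g * de f g) * r i := by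
    funext i
    simp [mul_assoc]
  rw [h3] at h2
  rw [← mul_assoc]
  exact N.mul_mem_right _ h2

theorem pr_A3 : StA3.{u} := by
  intro G _ R _ f hs N _ hsq g c
  have key : ∀ h : G, de f g * (f h : R) * de f g ∈ N := by
    intro h
    set a := de f g with ha
    set b := de f h with hb
    have hab : de f (g * h) = a + b + a * b := by
      rw [ha, hb]
      unfold de
      rw [map_mul, Units.val_mul]
      noncomm_ring
    have h1 := hsq (g * h)
    rw [hab] at h1
    have haa : a * a ∈ N := hsq g
    have hbb : b * b ∈ N := hsq h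
    -- the expansion
    have hE : a * b + b * a + b * a * b + a * b * a + a * b * a * b ∈ N := by
      have e : a * b + b * a + b * a * b + a * b * a + a * b * a * b =
          (a + b + a * b) * (a + b + a * b) - a * a * (1 + b) - (1 + a) * (b * b) := by
        noncomm_ring
      rw [e]
      exact sub_mem (sub_mem h1 (N.mul_mem_right _ haa)) (N.mul_mem_left _ hbb)
    have hEa := N.mul_mem_right a hE
    have h2 : a * b * a + b * a * b * a + a * b * a * b * a ∈ N := by
      have e : a * b * a + b * a * b * a + a * b * a * b * a =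
          (a * b + b * a + b * a * b + a * b * a + a * b * a * b) * a
            - (b + a * b) * (a * a) := by noncomm_ring
      rw [e]
      exact sub_mem hEa (N.mul_mem_left _ haa)
    have h3 : a * b * a * b * a ∈ N := by
      have e : a * b * a * b * a = a * (a * b * a + b * a * b * a + a * b * a * b * a)
          - a * a * (b * a + b * a * b * a) := by noncomm_ring
      rw [e]
      exact sub_mem (N.mul_mem_left _ h2) (N.mul_mem_right _ haa)
    have h4 : (f h : R) * (a * b * a) ∈ N := by
      have e : (f h : R) * (a * b * a) =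
          a * b * a + b * a * b * a + a * b * a * b * a - a * b * a * b * a := by
        have e1 : (f h : R) = 1 + b := by
          rw [hb]
          unfold de
          abel
        rw [e1]
        noncomm_ring
      rw [e]
      exact sub_mem h2 h3
    have h5 : a * b * a ∈ N := by
      have := N.mul_mem_left (((f h)⁻¹ : Rˣ) : R) h4
      rwa [← mul_assoc, Units.inv_mul, one_mul] at this
    have e : a * (f h : R) * a = a * b * a + a * a := by
      have e1 : (f h : R) = 1 + b := by
        rw [hb]
        unfold de
        abel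
      rw [e1]
      noncomm_ring
    rw [e]
    exact add_mem h5 haa
  have hc : c ∈ AddSubgroup.closure (Set.range fun g => (f g : R)) := by
    unfold Spn at hs
    rw [hs]
    exact AddSubgroup.mem_top c
  refine AddSubgroup.closure_induction ?_ ?_ ?_ ?_ hc
  · rintro _ ⟨h, rfl⟩
    exact key h
  · rw [mul_zero, zero_mul]
    exact zero_mem _
  · intro x y _ _ hx hy
    rw [mul_add, add_mul]
    exact add_mem hx hy
  · intro x _ hx
    rw [mul_neg, neg_mul]
    exact neg_mem hx

end Pool.Agent.UN
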