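import Pool.Agent.Work.MP_3218de_al.UN.Stmts

set_option autoImplicit false

/-!
# MP_3218de_al, block UN, items DP and FI
-/

namespace Pool.Agent.UN

open Pool.Agent.HL3218

universe u

theorem pr_DP : StDP.{u} := by
  classical
  intro G _ R _ f K ρ d hST hKρ hvan l hl hlK
  let X : Set R := de f '' {k | k ∈ l}
  obtain ⟨m0, hm0⟩ := hvan l.toFinset
  have hX0 : X = de f '' ((l.toFinset : Finset G) : Set G) := by
    ext x
    simp [X]
  rw [← hX0] at hm0
  have hXρ : X ⊆ ρ := by
    rintro _ ⟨k, hk, rfl⟩
    exact hKρ k (hlK k hk)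
  have hXK : ∀ b ∈ X, ∃ k ∈ K, (f k : R) = 1 + b := by
    rintro _ ⟨k, hk, rfl⟩
    exact ⟨k, hlK k hk, by unfold de; abel⟩
  have key : ∀ q, q ≤ m0 → ∃ B : Ideal R, B.IsTwoSided ∧ (∃ k', NP ⊥ B k') ∧
      ∀ l : List R, m0 + 2 * 2 ^ d - q ≤ l.length → (∀ x ∈ l, x ∈ X) → l.prod ∈ B := by
    intro q
    induction q with
    | zero =>
      intro _
      refine ⟨⊥, inferInstance, ⟨1, ?_⟩, ?_⟩
      · intro l hl hlx
        cases l with
        | nil => simp at hl
        | cons a l =>
          have h1 := hlx a List.mem_cons_self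
          rw [Submodule.mem_bot] at h1
          rw [List.prod_cons, h1, zero_mul]
          exact zero_mem _
      · intro l hl hlx
        rw [Submodule.mem_bot]
        exact hm0 l (by omega) hlx
    | succ q ih =>
      intro hq
      obtain ⟨B, hB, ⟨k, hk⟩, hBl⟩ := ih (by omega)
      obtain ⟨B', hB', hk', hBl'⟩ := hST X (m0 + 2 * 2 ^ d - q) hXρ hXK (by omega) B k hk hBl
      exact ⟨B', hB', hk', fun l hl hlx => hBl' l (by omega) hlx⟩
  obtain ⟨B, hB, hk, hBl⟩ := key m0 le_rfl
  refine ⟨B, hB, hk, hBl _ (by rw [List.length_map, hl]; omega) ?_⟩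
  intro x hx
  obtain ⟨k, hk, rfl⟩ := List.mem_map.1 hx
  exact ⟨k, hk, rfl⟩

theorem pr_FI : StFI.{u} := by
  intro R _ N T _ _ k hk
  let I : ℕ → Ideal R := fun j =>
    { carrier := {z | ∀ l₁ l₂ : List R, (∀ x ∈ l₁, x ∈ T) → (∀ x ∈ l₂, x ∈ T) →
        j ≤ l₁.length + l₂.length → l₁.prod * z * l₂.prod ∈ N}
      add_mem' := by
        intro a b ha hb l₁ l₂ h1 h2 h3
        rw [mul_add, add_mul]
        exact add_mem (ha l₁ l₂ h1 h2 h3) (hb l₁ l₂ h1 h2 h3)
      zero_mem' := by
        intro l₁ l₂ _ _ _
        rw [mul_zero, zero_mul]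
        exact zero_mem _
      smul_mem' := by
        intro r z hz l₁ l₂ h1 h2 h3
        rcases List.eq_nil_or_concat' l₁ with rfl | ⟨l, t, rfl⟩
        · have h4 := hz [] l₂ (by simp) h2 h3
          rw [List.prod_nil, one_mul] at h4 ⊢
          rw [smul_eq_mul, mul_assoc]
          exact N.mul_mem_left r h4
        · have h4 := hz (l ++ [t * r]) l₂ (by
            intro x hx
            rcases List.mem_append.1 hx with hx | hx
            · exact h1 x (List.mem_append_left _ hx)
            · rw [List.mem_singleton.1 hx]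
              exact T.mul_mem_right _ (h1 t (by simp))) h2 (by simpa using h3)
          rw [List.prod_append, List.prod_singleton] at h4 ⊢
          rw [smul_eq_mul]
          simpa only [mul_assoc] using h4 }
  have hI : ∀ j z, z ∈ I j ↔ ∀ l₁ l₂ : List R, (∀ x ∈ l₁, x ∈ T) → (∀ x ∈ l₂, x ∈ T) →
        j ≤ l₁.length + l₂.length → l₁.prod * z * l₂.prod ∈ N := fun j z => Iff.rfl
  refine ⟨I, fun j => ⟨?_⟩, ?_, ?_, ?_⟩
  · intro z r hz l₁ l₂ h1 h2 h3
    cases l₂ with
    | nil =>
      have h4 := hz l₁ [] h1 (by simp) h3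
      rw [List.prod_nil, mul_one] at h4 ⊢
      rw [← mul_assoc]
      exact N.mul_mem_right r h4
    | cons t l =>
      have h4 := hz l₁ ((r * t) :: l) h1 (by
        intro x hx
        rcases List.mem_cons.1 hx with rfl | hx
        · exact T.mul_mem_left _ (h2 t List.mem_cons_self)
        · exact h2 x (List.mem_cons_of_mem _ hx)) (by simpa using h3)
      rw [List.prod_cons] at h4 ⊢
      simpa only [mul_assoc] using h4
  · intro z hz
    simpa using hz [] [] (by simp) (by simp) (by simp)
  · intro z hz l₁ l₂ h1 h2 h3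
    have h4 := hk (l₁ ++ z :: l₂) (by simp; omega) (by
      intro x hx
      rcases List.mem_append.1 hx with hx | hx
      · exact h1 x hx
      · rcases List.mem_cons.1 hx with rfl | hx
        · exact hz
        · exact h2 x hx)
    rw [List.prod_append, List.prod_cons] at h4
    simpa only [mul_assoc] using h4
  · intro j z hz b hb
    constructor
    · intro l₁ l₂ h1 h2 h3
      have h4 := hz l₁ (b :: l₂) h1 (by
        intro x hx
        rcases List.mem_cons.1 hx with rfl | hx
        · exact hb
        · exact h2 x hx) (by simp only [List.length_cons]; omega)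
      rw [List.prod_cons] at h4
      simpa only [mul_assoc] using h4
    · intro l₁ l₂ h1 h2 h3
      have h4 := hz (l₁ ++ [b]) l₂ (by
        intro x hx
        rcases List.mem_append.1 hx with hx | hx
        · exact h1 x hx
        · rw [List.mem_singleton.1 hx]
          exact hb) h2 (by simp only [List.length_append, List.length_singleton]; omega)
      rw [List.prod_append, List.prod_singleton] at h4
      simpa only [mul_assoc] using h4

end Pool.Agent.UN
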