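import Pool.Agent.Work.MP_3218de_al.UN.Stmts

set_option autoImplicit false
set_option linter.style.haveILetI false

/-!
# MP_3218de_al, block UN, item FT
-/

namespace Pool.Agent.UN

open Pool.Agent.HL3218
open scoped commutatorElement

universe u

namespace FT

variable {R : Type u} [Ring R] {G : Type} [Group G]

theorem de_mul (f : G →* Rˣ) (g h : G) : de f (g * h) = de f g + de f h + de f g * de f h := by
  unfold de
  rw [map_mul, Units.val_mul]
  noncomm_ring

theorem de_one (f : G →* Rˣ) : de f 1 = 0 := by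
  unfold de
  rw [map_one, Units.val_one, sub_self]

theorem de_inv (f : G →* Rˣ) (g : G) : de f g⁻¹ = - (de f g * ((f g)⁻¹ : Rˣ)) := by
  unfold de
  rw [map_inv, sub_mul, Units.mul_inv, one_mul]
  abel

theorem de_conj (f : G →* Rˣ) (g h : G) :
    de f (h * g * h⁻¹) = (f h : R) * de f g * ((f h)⁻¹ : Rˣ) := by
  unfold de
  rw [map_mul, map_mul, map_inv, Units.val_mul, Units.val_mul, mul_sub, sub_mul, mul_one,
    Units.mul_inv]

theorem de_comm (f : G →* Rˣ) (g h : G) :
    de f (g * h * g⁻¹ * h⁻¹) =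
      (de f g * de f h - de f h * de f g) * ((f g)⁻¹ : Rˣ) * ((f h)⁻¹ : Rˣ) := by
  have h1 : de f g * de f h - de f h * de f g = (f g : R) * f h - f h * f g := by
    unfold de
    noncomm_ring
  rw [h1]
  unfold de
  rw [map_mul, map_mul, map_mul, map_inv, map_inv, Units.val_mul,
    Units.val_mul, Units.val_mul, sub_mul, sub_mul, mul_assoc (f h : R) (f g : R), Units.mul_inv,
    mul_one, Units.mul_inv]

/-- the normal subgroup of a two-sided ideal -/
def EE (f : G →* Rˣ) (N : Ideal R) [N.IsTwoSided] : Subgroup G where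
  carrier := {g | de f g ∈ N}
  mul_mem' := by
    intro a b ha hb
    change de f (a * b) ∈ N
    rw [de_mul]
    exact add_mem (add_mem ha hb) (N.mul_mem_right _ ha)
  one_mem' := by
    change de f 1 ∈ N
    rw [de_one]
    exact zero_mem _
  inv_mem' := by
    intro a ha
    change de f a⁻¹ ∈ N
    rw [de_inv]
    exact neg_mem (N.mul_mem_right _ ha)

theorem mem_EE (f : G →* Rˣ) (N : Ideal R) [N.IsTwoSided] (g : G) :
    g ∈ EE f N ↔ de f g ∈ N := Iff.rfl

instance EE_normal (f : G →* Rˣ) (N : Ideal R) [N.IsTwoSided] : (EE f N).Normal := ⟨by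
  intro g hg h
  rw [mem_EE] at hg ⊢
  rw [de_conj]
  exact N.mul_mem_right _ (N.mul_mem_left _ hg)⟩

end FT

theorem pr_FT : StFT.{u} := by
  classical
  intro hFI p G _ hG R _ f N N' _ hN' hfin h0
  by_contra hcon
  push Not at hcon
  obtain ⟨g0, hg0⟩ := h0
  let E := FT.EE f N
  have hE : E ≠ ⊤ := by
    intro h1
    apply hg0
    have h2 : g0 ∈ E := by
      rw [h1]
      exact Subgroup.mem_top g0
    exact h2
  haveI : Nontrivial (G ⧸ E) := QuotientGroup.nontrivial_iff.2 hE
  let π : G →* G ⧸ E := QuotientGroup.mk' E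
  have hπ : Function.Surjective π := QuotientGroup.mk'_surjective E
  have hQ : Exm p (G ⧸ E) := hG.map π hπ
  refine not_bdd hQ 1 ?_
  intro S
  obtain ⟨T, hT, hNT, hTl, k, hk⟩ := hfin (S.toList.map fun x => de f (Function.surjInv hπ x))
    (by
      intro y hy
      obtain ⟨x, -, rfl⟩ := List.mem_map.1 hy
      exact hcon _)
  haveI := hT
  obtain ⟨I, hI2, hI0, hIk, hIs⟩ := hFI R N T k hk
  -- the image of the subgroup of `T`
  have hET : E ≤ FT.EE f T := fun g hg => hNT hg
  have hM : Subgroup.normalClosure (S : Set (G ⧸ E)) ≤ (FT.EE f T).map π := by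
    haveI : ((FT.EE f T).map π).Normal := Subgroup.Normal.map inferInstance π hπ
    apply Subgroup.normalClosure_le_normal
    intro x hx
    refine ⟨Function.surjInv hπ x, ?_, Function.surjInv_eq hπ x⟩
    rw [SetLike.mem_coe, FT.mem_EE]
    exact hTl _ (List.mem_map.2 ⟨x, by simpa using hx, rfl⟩)
  have hM' : ∀ x ∈ Subgroup.normalClosure (S : Set (G ⧸ E)), ∀ g, π g = x → de f g ∈ T := by
    intro x hx g hg
    obtain ⟨g', hg', hgx⟩ := hM hx
    have h1 : g'⁻¹ * g ∈ E := by
      rw [← QuotientGroup.eq]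
      change π g' = π g
      rw [hgx, hg]
    have h2 : g' * (g'⁻¹ * g) ∈ FT.EE f T := mul_mem hg' (hET h1)
    rw [mul_inv_cancel_left] at h2
    exact h2
  have key : ∀ (j : ℕ) (x : Subgroup.normalClosure (S : Set (G ⧸ E))) (g : G),
      π g = x → de f g ∈ I j →
      x ∈ (step^[j] ({1} : Set (Subgroup.normalClosure (S : Set (G ⧸ E))))) := by
    intro j
    induction j with
    | zero =>
      intro x g hg hgI
      have h1 : g ∈ E := hI0 hgI
      have h2 : π g = 1 := (QuotientGroup.eq_one_iff g).2 h1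
      change x = 1
      apply Subtype.ext
      rw [← hg, h2]
      rfl
    | succ j ih =>
      intro x g hg hgI
      rw [Function.iterate_succ_apply']
      intro y
      obtain ⟨h, hh⟩ := hπ (y : G ⧸ E)
      have hb : de f h ∈ T := hM' _ y.2 h hh
      apply ih _ (g * h * g⁻¹ * h⁻¹)
      · rw [map_mul, map_mul, map_mul, map_inv, map_inv, hg, hh]
        rfl
      · rw [FT.de_comm]
        obtain ⟨h1, h2⟩ := hIs j _ hgI _ hb
        haveI := hI2 j
        exact (I j).mul_mem_right _ ((I j).mul_mem_right _ (sub_mem h1 h2))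
  refine Set.eq_univ_of_forall fun x => ?_
  refine Set.mem_iUnion.2 ⟨k, ?_⟩
  obtain ⟨g, hg⟩ := hπ (x : G ⧸ E)
  exact key k x g hg (hIk (hM' _ x.2 g hg))

end Pool.Agent.UN
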