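import Pool.Agent.Work.MP_3218de_al.UN.Stmts

set_option autoImplicit false

namespace Pool.Agent.UN

open Pool.Agent.HL3218

namespace GR

theorem mem_center_of_mk {p : ℕ} {G : Type} [Group G] (hG : Exm p G) (b : G)
    (h : ∀ g : G, ((g : G ⧸ Subgroup.center G)) * (b : G ⧸ Subgroup.center G)
      = (b : G ⧸ Subgroup.center G) * (g : G ⧸ Subgroup.center G)) :
    b ∈ Subgroup.center G := by
  have := hG.isPerfect
  have hc : Subgroup.center (G ⧸ Subgroup.center G) = ⊥ :=
    Group.IsPerfect.center_quotient_center_eq_bot G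
  have h1 : (b : G ⧸ Subgroup.center G) ∈ Subgroup.center (G ⧸ Subgroup.center G) := by
    rw [Subgroup.mem_center_iff]
    intro q
    obtain ⟨g, rfl⟩ := QuotientGroup.mk_surjective q
    exact h g
  rw [hc, Subgroup.mem_bot] at h1
  exact (QuotientGroup.eq_one_iff b).mp h1

end GR

theorem pr_GR : StGR := by
  intro p G _ hG b
  constructor
  · intro hb
    apply GR.mem_center_of_mk hG b
    intro g
    have h1 : ((g * b * g⁻¹ * b⁻¹ : G) : G ⧸ Subgroup.center G) = 1 :=
      (QuotientGroup.eq_one_iff _).mpr (hb g)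
    rw [QuotientGroup.mk_mul, QuotientGroup.mk_mul, QuotientGroup.mk_mul, QuotientGroup.mk_inv,
      QuotientGroup.mk_inv, mul_inv_eq_one, mul_inv_eq_iff_eq_mul] at h1
    exact h1
  · intro hb hfin
    apply hb
    let π : G →* G ⧸ Subgroup.center G := QuotientGroup.mk' _
    let C : Subgroup G := (Subgroup.centralizer {π b}).comap π
    have hC : ∀ h : G, h ∈ C ↔ π b * π h = π h * π b := by
      intro h
      simp only [C, Subgroup.mem_comap, Subgroup.mem_centralizer_iff, Set.mem_singleton_iff,
        forall_eq]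
    have hkey : ∀ h h' : G, π (h * b * h⁻¹) = π (h' * b * h'⁻¹) → h⁻¹ * h' ∈ C := by
      intro h h' he
      rw [hC]
      simp only [map_mul, map_inv] at he ⊢
      have e1 : π b = (π h)⁻¹ * (π h' * π b * (π h')⁻¹) * π h := by
        rw [← he]; group
      calc π b * ((π h)⁻¹ * π h') = ((π h)⁻¹ * (π h' * π b * (π h')⁻¹) * π h) * ((π h)⁻¹ * π h') := by
            rw [← e1]
        _ = (π h)⁻¹ * π h' * π b := by group
    have : Finite (Set.range fun h : G => ((h * b * h⁻¹ : G) : G ⧸ Subgroup.center G)) :=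
      hfin.to_subtype
    have : Finite (G ⧸ C) := by
      refine Finite.of_injective
        (fun q : G ⧸ C => (⟨((q.out * b * q.out⁻¹ : G) : G ⧸ Subgroup.center G),
          ⟨q.out, rfl⟩⟩ :
          Set.range fun h : G => ((h * b * h⁻¹ : G) : G ⧸ Subgroup.center G))) ?_
      intro q q' he
      have h1 := hkey q.out q'.out (congrArg Subtype.val he)
      rw [← QuotientGroup.out_eq' q, ← QuotientGroup.out_eq' q']
      exact QuotientGroup.eq.mpr h1
    have : C.FiniteIndex := Subgroup.finiteIndex_of_finite_quotient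
    have htop : C = ⊤ := hG.eq_top_of_finiteIndex C
    apply GR.mem_center_of_mk hG b
    intro g
    have h1 : g ∈ C := htop ▸ Subgroup.mem_top g
    exact ((hC g).mp h1).symm

end Pool.Agent.UN
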