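import Pool.Agent.Work.MP_3218de_al.UN.Stmts

set_option autoImplicit false

/-!
# MP_3218de_al, block UN, items JI, PF, KP, RU
-/

namespace Pool.Agent.UN

open Pool.Agent.HL3218
open scoped commutatorElement

universe u

namespace JI

variable {R : Type u} [Ring R] {G : Type} [Group G]

theorem de_mul (f : G →* Rˣ) (g h : G) : de f (g * h) = de f g + de f h + de f g * de f h := by
  unfold de
  rw [map_mul, Units.val_mul]
  noncomm_ring

theorem de_one (f : G →* Rˣ) : de f 1 = 0 := by
  unfold de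
  rw [map_one, Units.val_one, sub_self]

theorem de_inv (f : G →* Rˣ) (g : G) : de f g⁻¹ = - (de f g * ((f g)⁻¹ : Rˣ)) := by
  unfold de
  rw [map_inv, sub_mul, Units.mul_inv, one_mul]
  abel

theorem de_mem (f : G →* Rˣ) (g : G) : de f g ∈ Jn f :=
  AddSubgroup.subset_closure ⟨g, rfl⟩

theorem de_comm (f : G →* Rˣ) (g h : G) :
    de f ⁅g, h⁆ = (de f g * de f h - de f h * de f g) * ((f g)⁻¹ : Rˣ) * ((f h)⁻¹ : Rˣ) := by
  have h1 : de f g * de f h - de f h * de f g = (f g : R) * f h - f h * f g := by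
    unfold de
    noncomm_ring
  rw [h1]
  unfold de
  rw [commutatorElement_def, map_mul, map_mul, map_mul, map_inv, map_inv, Units.val_mul,
    Units.val_mul, Units.val_mul, sub_mul, sub_mul, mul_assoc (f h : R) (f g : R), Units.mul_inv,
    mul_one, Units.mul_inv]

end JI

theorem pr_JI : StJI.{u} := by
  intro G _ R _ f hs x hx r
  have hr : r ∈ AddSubgroup.closure (Set.range fun g => (f g : R)) := by
    unfold Spn at hs
    rw [hs]
    exact AddSubgroup.mem_top r
  constructor
  · refine AddSubgroup.closure_induction ?_ ?_ ?_ ?_ hr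
    · rintro _ ⟨h, rfl⟩
      refine AddSubgroup.closure_induction ?_ ?_ ?_ ?_ hx
      · rintro _ ⟨g, rfl⟩
        have h1 : (f h : R) * de f g = de f (h * g) - de f h := by
          unfold de
          rw [map_mul, Units.val_mul]
          noncomm_ring
        change (f h : R) * de f g ∈ Jn f
        rw [h1]
        exact sub_mem (JI.de_mem f _) (JI.de_mem f _)
      · rw [mul_zero]
        exact zero_mem _
      · intro a b _ _ ha hb
        rw [mul_add]
        exact add_mem ha hb
      · intro a _ ha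
        rw [mul_neg]
        exact neg_mem ha
    · rw [zero_mul]
      exact zero_mem _
    · intro a b _ _ ha hb
      rw [add_mul]
      exact add_mem ha hb
    · intro a _ ha
      rw [neg_mul]
      exact neg_mem ha
  · refine AddSubgroup.closure_induction ?_ ?_ ?_ ?_ hr
    · rintro _ ⟨h, rfl⟩
      refine AddSubgroup.closure_induction ?_ ?_ ?_ ?_ hx
      · rintro _ ⟨g, rfl⟩
        have h1 : de f g * (f h : R) = de f (g * h) - de f h := by
          unfold de
          rw [map_mul, Units.val_mul]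
          noncomm_ring
        change de f g * (f h : R) ∈ Jn f
        rw [h1]
        exact sub_mem (JI.de_mem f _) (JI.de_mem f _)
      · rw [zero_mul]
        exact zero_mem _
      · intro a b _ _ ha hb
        rw [add_mul]
        exact add_mem ha hb
      · intro a _ ha
        rw [neg_mul]
        exact neg_mem ha
    · rw [mul_zero]
      exact zero_mem _
    · intro a b _ _ ha hb
      rw [mul_add]
      exact add_mem ha hb
    · intro a _ ha
      rw [mul_neg]
      exact neg_mem ha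

theorem pr_PF : StPF.{u} := by
  intro hJI G _ hperf R _ f hs g
  have hmul : ∀ x ∈ J2 f, ∀ r : R, x * r ∈ J2 f := by
    intro x hx r
    refine AddSubgroup.closure_induction ?_ ?_ ?_ ?_ hx
    · rintro _ ⟨y, hy, z, hz, rfl⟩
      rw [mul_assoc]
      exact AddSubgroup.subset_closure ⟨y, hy, z * r, (hJI G R f hs z hz r).2, rfl⟩
    · rw [zero_mul]
      exact zero_mem _
    · intro a b _ _ ha hb
      rw [add_mul]
      exact add_mem ha hb
    · intro a _ ha
      rw [neg_mul]
      exact neg_mem ha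
  let T : Subgroup G :=
    { carrier := {g | de f g ∈ J2 f}
      mul_mem' := by
        intro a b ha hb
        change de f (a * b) ∈ J2 f
        rw [JI.de_mul]
        exact add_mem (add_mem ha hb) (hmul _ ha _)
      one_mem' := by
        change de f 1 ∈ J2 f
        rw [JI.de_one]
        exact zero_mem _
      inv_mem' := by
        intro a ha
        change de f a⁻¹ ∈ J2 f
        rw [JI.de_inv]
        exact neg_mem (hmul _ ha _) }
  have hT : commutator G ≤ T := by
    rw [commutator_eq_closure, Subgroup.closure_le]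
    rintro _ ⟨a, b, rfl⟩
    change de f ⁅a, b⁆ ∈ J2 f
    rw [JI.de_comm]
    refine hmul _ (hmul _ (sub_mem ?_ ?_) _) _
    · exact AddSubgroup.subset_closure ⟨_, JI.de_mem f a, _, JI.de_mem f b, rfl⟩
    · exact AddSubgroup.subset_closure ⟨_, JI.de_mem f b, _, JI.de_mem f a, rfl⟩
  rw [hperf] at hT
  exact hT (Subgroup.mem_top g)

theorem pr_KP : StKP.{u} := by
  intro hJI hPF G _ hperf R _ f hs hnil g hg
  let K : Subgroup G :=
    { carrier := {h | ∃ r : R, de f h = de f g * r}
      mul_mem' := by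
        rintro a b ⟨r, hr⟩ ⟨s, hs⟩
        refine ⟨r + s + r * de f b, ?_⟩
        rw [JI.de_mul, hr, hs]
        noncomm_ring
      one_mem' := ⟨0, by rw [JI.de_one, mul_zero]⟩
      inv_mem' := by
        rintro a ⟨r, hr⟩
        refine ⟨- (r * ((f a)⁻¹ : Rˣ)), ?_⟩
        rw [JI.de_inv, hr, mul_neg, mul_assoc] }
  refine ⟨K, ?_, fun h => Iff.rfl⟩
  intro hK
  apply hg
  have h1 : ∀ x ∈ Jn f, ∃ r : R, x = de f g * r := by
    intro x hx
    refine AddSubgroup.closure_induction ?_ ?_ ?_ ?_ hx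
    · rintro _ ⟨h, rfl⟩
      have h2 : h ∈ K := by
        rw [hK]
        exact Subgroup.mem_top h
      exact h2
    · exact ⟨0, (mul_zero _).symm⟩
    · rintro _ _ _ _ ⟨r, rfl⟩ ⟨s, rfl⟩
      exact ⟨r + s, (mul_add _ _ _).symm⟩
    · rintro _ _ ⟨r, rfl⟩
      exact ⟨-r, (mul_neg _ _).symm⟩
  have h2 : ∀ x ∈ J2 f, ∃ j ∈ Jn f, x = de f g * j := by
    intro x hx
    refine AddSubgroup.closure_induction ?_ ?_ ?_ ?_ hx
    · rintro _ ⟨y, hy, z, hz, rfl⟩
      obtain ⟨r, rfl⟩ := h1 y hy
      exact ⟨r * z, (hJI G R f hs z hz r).1, mul_assoc _ _ _⟩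
    · exact ⟨0, zero_mem _, (mul_zero _).symm⟩
    · rintro _ _ _ _ ⟨r, hr, rfl⟩ ⟨s, hs, rfl⟩
      exact ⟨r + s, add_mem hr hs, (mul_add _ _ _).symm⟩
    · rintro _ _ ⟨r, hr, rfl⟩
      exact ⟨-r, neg_mem hr, (mul_neg _ _).symm⟩
  obtain ⟨j, hj, haj⟩ := h2 _ (hPF hJI G hperf R f hs g)
  obtain ⟨n, hn⟩ := hnil j hj
  have h3 : ∀ n : ℕ, de f g = de f g * j ^ n := by
    intro n
    induction n with
    | zero => rw [pow_zero, mul_one]
    | succ n ih => rw [pow_succ, ← mul_assoc, ← ih, ← haj]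
  rw [h3 n, hn, mul_zero]

theorem pr_RU : StRU.{u} := by
  intro hJI G _ R _ f hs hnil hN g K hK
  constructor
  · rintro _ ⟨r, rfl⟩ s
    exact ⟨r * s, mul_assoc _ _ _⟩
  · rintro _ ⟨r, rfl⟩
    have hxJ : de f g * r ∈ Jn f := (hJI G R f hs _ (JI.de_mem f g) r).2
    obtain ⟨u, hu⟩ := (hnil _ hxJ).isUnit_one_add
    refine ⟨u, hu, ?_⟩
    intro k hk
    obtain ⟨s, hs'⟩ := (hK k).1 hk
    have huinv : ((u⁻¹ : Rˣ) : R) = 1 - de f g * r * (u⁻¹ : Rˣ) := by
      have h1 : (u : R) * (u⁻¹ : Rˣ) = 1 := Units.mul_inv u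
      rw [hu, add_mul, one_mul] at h1
      rw [← h1]
      abel
    obtain ⟨g', hg'⟩ := hN u⁻¹ (by
      rw [huinv]
      have h2 : (1 : R) - de f g * r * (u⁻¹ : Rˣ) - 1 = -(de f g * r * (u⁻¹ : Rˣ)) := by abel
      rw [h2]
      exact neg_mem (hJI G R f hs _ hxJ _).2) k⁻¹
    rw [map_inv, inv_inv] at hg'
    refine ⟨g' * k, ?_, by rw [map_mul, hg']⟩
    rw [hK]
    have hfk : (f k : R) = 1 + de f g * s := by
      rw [← hs']
      unfold de
      abel
    have hfkinv : (((f k)⁻¹ : Rˣ) : R) = 1 - de f g * s * ((f k)⁻¹ : Rˣ) := by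
      have h1 : (f k : R) * ((f k)⁻¹ : Rˣ) = 1 := Units.mul_inv _
      conv at h1 =>
        lhs
        rw [hfk]
      rw [add_mul, one_mul] at h1
      rw [← h1]
      abel
    have e1 : de f (g' * k) = (u⁻¹ : Rˣ) * (((f k)⁻¹ : Rˣ) *
        (de f g * r * (f k : R) - (f k : R) * (de f g * r))) := by
      have e2 : (f (g' * k) : R) = (u⁻¹ : Rˣ) * (((f k)⁻¹ : Rˣ) * ((u : R) * (f k : R))) := by
        rw [map_mul, hg', Units.val_mul, Units.val_mul, Units.val_mul]
        simp only [mul_assoc]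
      have e3 : (1 : R) = (u⁻¹ : Rˣ) * (((f k)⁻¹ : Rˣ) * ((f k : R) * (u : R))) := by
        rw [← mul_assoc ((f k)⁻¹ : Rˣ).val, Units.inv_mul, one_mul, Units.inv_mul]
      unfold de at e2 ⊢
      rw [e2]
      conv_lhs =>
        rw [e3]
      rw [← mul_sub, ← mul_sub, hu]
      unfold de
      congr 2
      noncomm_ring
    -- left multiplication by the inverses preserves `a R`
    have m1 : ∀ y : R, ∃ y' : R, ((f k)⁻¹ : Rˣ) * (de f g * y) = de f g * y' := by
      intro y
      refine ⟨y - s * ((f k)⁻¹ : Rˣ) * de f g * y, ?_⟩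
      rw [hfkinv]
      conv_lhs =>
        rw [sub_mul, one_mul]
      rw [← hfkinv]
      noncomm_ring
    have m2 : ∀ y : R, ∃ y' : R, (u⁻¹ : Rˣ) * (de f g * y) = de f g * y' := by
      intro y
      refine ⟨y - r * (u⁻¹ : Rˣ) * de f g * y, ?_⟩
      conv_lhs => rw [huinv]
      noncomm_ring
    have m3 : ∃ y : R, de f g * r * (f k : R) - (f k : R) * (de f g * r) = de f g * y := by
      refine ⟨r * (f k : R) - (r + s * (de f g * r)), ?_⟩
      have : (f k : R) * (de f g * r) = de f g * r + de f g * s * (de f g * r) := by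
        conv_lhs => rw [hfk]
        rw [add_mul, one_mul]
      rw [this]
      noncomm_ring
    obtain ⟨y, hy⟩ := m3
    obtain ⟨y', hy'⟩ := m1 y
    obtain ⟨y'', hy''⟩ := m2 y'
    exact ⟨y'', by rw [e1, hy, hy', hy'']⟩

end Pool.Agent.UN
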