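import Pool.Agent.Work.MP_3218de_al.UN.Stmts

set_option autoImplicit false

/-!
# MP_3218de_al, block UN, item JN: the augmentation ideal is nil in characteristic `p`
-/

namespace Pool.Agent.UN

universe u

namespace JN

variable {R : Type u} [Ring R] {G : Type} [Group G]

theorem exists_list (f : G →* Rˣ) (X : Finset G) : ∀ l : List R,
    (∀ x ∈ l, x ∈ de f '' (X : Set G)) →
    ∃ l' : List (Subgroup.closure (X : Set G)),
      l'.length = l.length ∧ l'.map (de (f.comp (Subgroup.closure (X : Set G)).subtype)) = l := by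
  intro l
  induction l with
  | nil => intro _; exact ⟨[], rfl, rfl⟩
  | cons x l ih =>
    intro h
    obtain ⟨l', h1, h2⟩ := ih (fun y hy => h y (List.mem_cons_of_mem _ hy))
    obtain ⟨g, hg, hgx⟩ := h x List.mem_cons_self
    refine ⟨⟨g, Subgroup.subset_closure hg⟩ :: l', ?_, ?_⟩
    · rw [List.length_cons, List.length_cons, h1]
    · rw [List.map_cons, h2]
      congr 1

theorem exists_finset (f : G →* Rˣ) (x : R) (hx : x ∈ Jn f) :
    ∃ X : Finset G, x ∈ AddSubgroup.closure (de f '' (X : Set G)) := by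
  classical
  unfold Jn at hx
  induction hx using AddSubgroup.closure_induction with
  | mem y hy =>
    obtain ⟨g, rfl⟩ := hy
    exact ⟨{g}, AddSubgroup.subset_closure ⟨g, by simp, rfl⟩⟩
  | zero => exact ⟨∅, zero_mem _⟩
  | add y z _ _ hy hz =>
    obtain ⟨X, hX⟩ := hy
    obtain ⟨Y, hY⟩ := hz
    refine ⟨X ∪ Y, add_mem ?_ ?_⟩
    · exact AddSubgroup.closure_mono (Set.image_mono (by simp)) hX
    · exact AddSubgroup.closure_mono (Set.image_mono (by simp)) hY
  | neg y _ hy =>
    obtain ⟨X, hX⟩ := hy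
    exact ⟨X, neg_mem hX⟩

end JN

theorem pr_JN : StJN.{u} := by
  intro hML hLN p _ G _ hp hlf R _ hR f
  have h2 : ∀ X : Finset G, ∃ m : ℕ, Van (de f '' (X : Set G)) m := by
    intro X
    have hfin : Finite (Subgroup.closure (X : Set G)) := hlf X
    obtain ⟨m, hm⟩ := hLN p (Subgroup.closure (X : Set G)) (hp.to_subgroup _) R hR
      (f.comp (Subgroup.closure (X : Set G)).subtype)
    refine ⟨m, fun l hl hX => ?_⟩
    obtain ⟨l', h1, h2⟩ := JN.exists_list f X l hX
    have := hm l' (by rw [h1]; exact hl)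
    rw [h2] at this
    exact this
  refine ⟨fun x hx => ?_, h2⟩
  obtain ⟨X, hX⟩ := JN.exists_finset f x hx
  obtain ⟨m, hm⟩ := h2 X
  refine ⟨m, ?_⟩
  have h3 := hML R (de f '' (X : Set G)) ⊥ m
    (fun l hl hS => AddSubgroup.mem_bot.2 (hm l hl.ge hS)) (List.replicate m x)
    List.length_replicate (fun y hy => by
      rw [List.eq_of_mem_replicate hy]
      exact hX)
  rw [AddSubgroup.mem_bot, List.prod_replicate] at h3
  exact h3

end Pool.Agent.UN
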