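import Pool.Agent.Work.MP_3218de_al.UN.Stmts

set_option autoImplicit false

/-!
# MP_3218de_al, block UN, item LN: the augmentation ideal of a finite `p`-group is nilpotent in
characteristic `p`
-/

namespace Pool.Agent.UN

universe u

namespace LN

section act

variable {H : Type} [Group H] {M : Type u} [AddCommGroup M] [DistribMulAction H M]

/-- the product of the operators `h - 1` -/
def act (l : List H) (v : M) : M := l.foldr (fun h v => h • v - v) v

theorem act_cons (h : H) (l : List H) (v : M) : act (h :: l) v = h • act l v - act l v := rfl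

theorem act_append (l l' : List H) (v : M) : act (l ++ l') v = act l (act l' v) :=
  List.foldr_append

theorem act_add (l : List H) (v w : M) : act l (v + w) = act l v + act l w := by
  induction l with
  | nil => rfl
  | cons h l ih => rw [act_cons, act_cons, act_cons, ih, smul_add]; abel

theorem act_zero (l : List H) : act l (0 : M) = 0 := by
  induction l with
  | nil => rfl
  | cons h l ih => rw [act_cons, ih, smul_zero, sub_zero]

theorem act_neg (l : List H) (v : M) : act l (-v) = - act l v := by
  induction l with
  | nil => rfl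
  | cons h l ih => rw [act_cons, act_cons, ih, smul_neg]; abel

/-- the vectors killed by all long products -/
def W (H : Type) [Group H] (M : Type u) [AddCommGroup M] [DistribMulAction H M] :
    AddSubgroup M where
  carrier := {v | ∃ m : ℕ, ∀ l : List H, m ≤ l.length → act l v = 0}
  zero_mem' := ⟨0, fun l _ => act_zero l⟩
  add_mem' := by
    rintro v w ⟨m, hm⟩ ⟨m', hm'⟩
    refine ⟨max m m', fun l hl => ?_⟩
    rw [act_add, hm l ((le_max_left _ _).trans hl), hm' l ((le_max_right _ _).trans hl), add_zero]
  neg_mem' := by
    rintro v ⟨m, hm⟩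
    refine ⟨m, fun l hl => ?_⟩
    rw [act_neg, hm l hl, neg_zero]

theorem smul_mem_W (h : H) {v : M} (hv : v ∈ W H M) : h • v ∈ W H M := by
  obtain ⟨m, hm⟩ := hv
  refine ⟨m, fun l hl => ?_⟩
  have h1 : h • v = v + act [h] v := by
    rw [act_cons]
    show h • v = v + (h • v - v)
    abel
  rw [h1, act_add, hm l hl, zero_add, ← act_append]
  exact hm _ (by rw [List.length_append]; omega)

theorem mem_W_of_fixed [Finite H] {v : M} (hv : ∀ h : H, h • v - v ∈ W H M) : v ∈ W H M := by
  choose m hm using hv
  obtain ⟨K, hK⟩ := (Set.finite_range m).bddAbove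
  refine ⟨K + 1, fun l hl => ?_⟩
  have hne : l ≠ [] := by
    intro h0
    rw [h0, List.length_nil] at hl
    omega
  rw [← List.dropLast_append_getLast hne, act_append]
  refine hm (l.getLast hne) l.dropLast ?_
  have h1 : m (l.getLast hne) ≤ K := hK ⟨_, rfl⟩
  rw [List.length_dropLast]
  omega

end act

theorem main (p : ℕ) [Fact p.Prime] (H : Type) [Group H] [Finite H] (hH : IsPGroup p H)
    (M : Type u) [AddCommGroup M] [DistribMulAction H M] [Finite M] (hM : ∀ x : M, p • x = 0) :
    ∀ v : M, v ∈ W H M := by
  by_contra hcon
  push Not at hcon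
  obtain ⟨v, hv⟩ := hcon
  let A : MulAction H (M ⧸ W H M) :=
    { smul := fun h => QuotientAddGroup.map (W H M) (W H M) (DistribSMul.toAddMonoidHom M h)
        (fun w hw => smul_mem_W h hw)
      one_smul := by
        intro b
        induction b using QuotientAddGroup.induction_on with
        | H x =>
          show ((((1 : H) • x : M)) : M ⧸ W H M) = x
          rw [one_smul]
      mul_smul := by
        intro g h b
        induction b using QuotientAddGroup.induction_on with
        | H x =>
          show ((((g * h) • x : M)) : M ⧸ W H M) = ((g • (h • x) : M) : M ⧸ W H M)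
          rw [mul_smul] }
  have hsmul : ∀ (h : H) (x : M), A.toSMul.smul h ((x : M) : M ⧸ W H M) = ((h • x : M) : M ⧸ W H M) :=
    fun h x => rfl
  have hp : ∀ b : M ⧸ W H M, p • b = 0 := by
    intro b
    induction b using QuotientAddGroup.induction_on with
    | H x =>
      have h1 : p • ((x : M) : M ⧸ W H M) = ((p • x : M) : M ⧸ W H M) := rfl
      rw [h1, hM x]
      rfl
  have hv0 : ((v : M) : M ⧸ W H M) ≠ 0 := by
    intro h
    exact hv ((QuotientAddGroup.eq_zero_iff v).1 h)
  have hdvd : p ∣ Nat.card (M ⧸ W H M) := by
    rw [← addOrderOf_eq_prime (hp _) hv0]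
    exact addOrderOf_dvd_natCard _
  have h0 : (0 : M ⧸ W H M) ∈ MulAction.fixedPoints H (M ⧸ W H M) := by
    intro h
    have h1 := hsmul h 0
    rw [smul_zero] at h1
    exact h1
  obtain ⟨b, hb, hb0⟩ := hH.exists_fixed_point_of_prime_dvd_card_of_fixed_point (M ⧸ W H M) hdvd h0
  induction b using QuotientAddGroup.induction_on with
  | H x =>
    have hx : x ∈ W H M := by
      apply mem_W_of_fixed
      intro h
      have h1 : ((h • x : M) : M ⧸ W H M) = ((x : M) : M ⧸ W H M) := hb h
      have h2 : ((h • x - x : M) : M ⧸ W H M) = 0 := by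
        rw [QuotientAddGroup.mk_sub, h1, sub_self]
      exact (QuotientAddGroup.eq_zero_iff _).1 h2
    exact hb0 ((QuotientAddGroup.eq_zero_iff x).2 hx).symm

end LN

open LN in
/-- item LN -/
theorem pr_LN : StLN.{u} := by
  intro p _ H _ _ hH R _ hp f
  set V : AddSubgroup R := AddSubgroup.closure (Set.range fun h : H => (f h : R)) with hV
  have h1V : (1 : R) ∈ V := by
    apply AddSubgroup.subset_closure
    exact ⟨1, by show ((f 1 : Rˣ) : R) = 1; rw [map_one]; rfl⟩
  have hst : ∀ (h : H) (v : R), v ∈ V → (f h : R) * v ∈ V := by
    intro h v hv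
    induction hv using AddSubgroup.closure_induction with
    | mem x hx =>
      obtain ⟨g, rfl⟩ := hx
      apply AddSubgroup.subset_closure
      exact ⟨h * g, by simp⟩
    | zero => rw [mul_zero]; exact V.zero_mem
    | add x y _ _ hx hy => rw [mul_add]; exact V.add_mem hx hy
    | neg x _ hx => rw [mul_neg]; exact V.neg_mem hx
  have hpV : ∀ x : V, p • x = 0 := by
    intro x
    apply Subtype.ext
    rw [AddSubgroup.coe_nsmul, nsmul_eq_mul, hp, zero_mul]
    rfl
  haveI : AddGroup.FG V := AddGroup.closure_finite_fg _
  haveI : Finite V := by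
    apply AddCommGroup.finite_of_fg_isAddTorsion
    intro x
    exact isOfFinAddOrder_iff_nsmul_eq_zero.2 ⟨p, (Fact.out : p.Prime).pos, hpV x⟩
  letI : DistribMulAction H V :=
    { smul := fun h v => ⟨(f h : R) * v, hst h v v.2⟩
      one_smul := by
        intro v
        apply Subtype.ext
        show (f 1 : R) * v = v
        rw [map_one, Units.val_one, one_mul]
      mul_smul := by
        intro g h v
        apply Subtype.ext
        show (f (g * h) : R) * v = (f g : R) * ((f h : R) * v)
        rw [map_mul, Units.val_mul, mul_assoc]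
      smul_zero := by
        intro h
        apply Subtype.ext
        show (f h : R) * (0 : R) = 0
        rw [mul_zero]
      smul_add := by
        intro h v w
        apply Subtype.ext
        show (f h : R) * ((v : R) + w) = (f h : R) * v + (f h : R) * w
        rw [mul_add] }
  have hact : ∀ (l : List H) (v : V), ((act l v : V) : R) = (l.map (de f)).prod * v := by
    intro l v
    induction l with
    | nil => rw [List.map_nil, List.prod_nil, one_mul]; rfl
    | cons h l ih =>
      rw [act_cons, List.map_cons, List.prod_cons, mul_assoc, ← ih]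
      show (f h : R) * ((act l v : V) : R) - ((act l v : V) : R) = ((f h : R) - 1) * _
      rw [sub_mul, one_mul]
  obtain ⟨m, hm⟩ := main p H hH V hpV ⟨1, h1V⟩
  refine ⟨m, fun l hl => ?_⟩
  have h1 := hact l ⟨1, h1V⟩
  rw [hm l hl, mul_one] at h1
  exact h1.symm

end Pool.Agent.UN
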