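import Pool.Agent.Work.MP_3218de_al.UN.Stmts

set_option autoImplicit false

namespace Pool.Agent.UN

open Pool.Agent.HL3218

open scoped commutatorElement

universe u

namespace LW

/-- Two nonempty words whose junction vanishes have product zero. -/
theorem prod_mul_prod_eq_zero {R : Type u} [Ring R] (w v : ℕ → R) (n m : ℕ)
    (h : w n * v 0 = 0) :
    ((List.range (n + 1)).map w).prod * ((List.range (m + 1)).map v).prod = 0 := by
  rw [List.range_succ, List.map_append, List.prod_append, List.range_succ_eq_map, List.map_cons,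
    List.prod_cons, List.map_cons, List.map_nil, List.prod_cons, List.prod_nil, mul_one]
  rw [mul_assoc, ← mul_assoc (w n), h, zero_mul, mul_zero]

/-- Splitting a word in two halves. -/
theorem prod_split {R : Type u} [Ring R] (z : ℕ → R) (n m : ℕ) :
    ((List.range (n + m)).map z).prod =
      ((List.range n).map z).prod * ((List.range m).map fun i => z (n + i)).prod := by
  rw [List.range_add, List.map_append, List.prod_append, List.map_map]
  rfl

/-- The inverse of a unit `1 + y` with `y * y = 0`. -/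
theorem inv_eq {R : Type u} [Ring R] (a : Rˣ) (y : R) (h : (a : R) = 1 + y) (hy : y * y = 0) :
    ((a⁻¹ : Rˣ) : R) = 1 - y := by
  have h1 : (a : R) * (1 - y) = 1 := by
    rw [h, mul_sub, mul_one, add_mul, one_mul, hy, add_zero, add_sub_cancel_right]
  calc ((a⁻¹ : Rˣ) : R) = ((a⁻¹ : Rˣ) : R) * ((a : R) * (1 - y)) := by rw [h1, mul_one]
    _ = 1 - y := by rw [← mul_assoc, Units.inv_mul, one_mul]

/-- The commutator of two units `1 + y₁`, `1 + y₂`. -/
theorem comm_eq {R : Type u} [Ring R] (a b : Rˣ) (x y : R) (ha : (a : R) = 1 + x)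
    (hb : (b : R) = 1 + y) (hx : x * x = 0) (hy : y * y = 0) (hyx : y * x = 0) :
    ((⁅a, b⁆ : Rˣ) : R) = 1 + x * y := by
  rw [commutatorElement_def, Units.val_mul, Units.val_mul, Units.val_mul, inv_eq a x ha hx,
    inv_eq b y hb hy, ha, hb]
  have h1 : (1 + x) * (1 + y) * (1 - x) = 1 + y + x * y := by
    have e : (1 + x) * (1 + y) * (1 - x) =
        1 + y + x * y - x * x - y * x - x * (y * x) := by noncomm_ring
    rw [e, hx, hyx, mul_zero, sub_zero, sub_zero, sub_zero]
  rw [h1]
  have e2 : (1 + y + x * y) * (1 - y) = 1 + x * y - y * y - x * (y * y) := by noncomm_ring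
  rw [e2, hy, mul_zero, sub_zero, sub_zero]

theorem main {G : Type} [Group G] {R : Type u} [Ring R] (f : G →* Rˣ) (K : Subgroup G) (d : ℕ) :
    ∀ z : ℕ → R, (∀ i, i < 2 ^ d → ∃ k ∈ K, (f k : R) = 1 + z i) →
    (∀ i j, i ≤ j → j < 2 ^ d → z j * z i = 0) →
    ∃ k ∈ Dn d K, (f k : R) = 1 + ((List.range (2 ^ d)).map z).prod := by
  induction d with
  | zero =>
    intro z h _
    obtain ⟨k, hk, e⟩ := h 0 (by norm_num)
    refine ⟨k, hk, ?_⟩
    rw [e]
    simp
  | succ d ih =>
    intro z h hz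
    have hp : 2 ^ (d + 1) = 2 ^ d + 2 ^ d := by rw [pow_succ]; ring
    have hpos : 0 < 2 ^ d := pow_pos (by norm_num) d
    obtain ⟨q, hq⟩ : ∃ q, 2 ^ d = q + 1 := ⟨2 ^ d - 1, by omega⟩
    obtain ⟨k₁, hk₁, e₁⟩ := ih z (fun i hi => h i (by omega))
      (fun i j hij hj => hz i j hij (by omega))
    obtain ⟨k₂, hk₂, e₂⟩ := ih (fun i => z (2 ^ d + i)) (fun i hi => h (2 ^ d + i) (by omega))
      (fun i j hij hj => hz (2 ^ d + i) (2 ^ d + j) (by omega) (by omega))
    refine ⟨⁅k₁, k₂⁆, Subgroup.commutator_mem_commutator hk₁ hk₂, ?_⟩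
    rw [map_commutatorElement]
    rw [comm_eq (f k₁) (f k₂) _ _ e₁ e₂ ?_ ?_ ?_, hp, prod_split]
    · rw [hq]
      exact prod_mul_prod_eq_zero z z q q (hz 0 q (Nat.zero_le _) (by omega))
    · rw [hq]
      exact prod_mul_prod_eq_zero (fun i => z (q + 1 + i)) (fun i => z (q + 1 + i)) q q
        (hz (q + 1 + 0) (q + 1 + q) (by omega) (by omega))
    · rw [hq]
      exact prod_mul_prod_eq_zero (fun i => z (q + 1 + i)) z q q
        (hz 0 (q + 1 + q) (by omega) (by omega))

end LW

theorem pr_LW : StLW.{u} := by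
  intro G _ R _ f K d z h hz
  exact LW.main f K d z h hz

end Pool.Agent.UN
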