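import Pool.Agent.Work.MP_3218de_al.UN.Stmts

set_option autoImplicit false

/-!
# MP_3218de_al, block UN, item ML: products of elements of an additive span
-/

namespace Pool.Agent.UN

universe u

namespace ML

theorem aux {R : Type u} [Ring R] (S : Set R) (N : AddSubgroup R) :
    ∀ (l₂ l₁ : List R),
      (∀ l : List R, l.length = l₁.length + l₂.length → (∀ x ∈ l, x ∈ S) → l.prod ∈ N) →
      (∀ x ∈ l₁, x ∈ S) → (∀ x ∈ l₂, x ∈ AddSubgroup.closure S) → l₁.prod * l₂.prod ∈ N := by
  intro l₂
  induction l₂ with
  | nil =>
    intro l₁ h h1 _
    have := h l₁ (by simp) h1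
    simpa using this
  | cons x l ih =>
    intro l₁ h h1 h2
    have hx : x ∈ AddSubgroup.closure S := h2 x (by simp)
    have hl : ∀ y ∈ l, y ∈ AddSubgroup.closure S := fun y hy => h2 y (by simp [hy])
    rw [List.prod_cons, ← mul_assoc]
    have key : ∀ z ∈ AddSubgroup.closure S, l₁.prod * z * l.prod ∈ N := by
      intro z hz
      induction hz using AddSubgroup.closure_induction with
      | mem y hy =>
        have h3 := ih (l₁ ++ [y]) (by
          intro l' hl' hS
          refine h l' ?_ hS
          rw [hl', List.length_append, List.length_cons, List.length_cons, List.length_nil]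
          omega) (by
          intro w hw
          rcases List.mem_append.1 hw with hw | hw
          · exact h1 w hw
          · rw [List.mem_singleton.1 hw]
            exact hy) hl
        rw [List.prod_append, List.prod_singleton] at h3
        exact h3
      | zero =>
        rw [mul_zero, zero_mul]
        exact N.zero_mem
      | add y w _ _ hy hw =>
        rw [mul_add, add_mul]
        exact N.add_mem hy hw
      | neg y _ hy =>
        rw [mul_neg, neg_mul]
        exact N.neg_mem hy
    exact key x hx

end ML

theorem pr_ML : StML.{u} := by
  intro R _ S N m h l hl hS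
  have h1 := ML.aux S N l [] (by
    intro l' hl' hS'
    exact h l' (by rw [hl', List.length_nil, zero_add, hl]) hS') (by simp) hS
  rw [List.prod_nil, one_mul] at h1
  exact h1

end Pool.Agent.UN
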