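import Pool.Agent.Work.MP_3218de_al.UN.Stmts

set_option autoImplicit false

/-!
# MP_3218de_al, block UN, item NS
-/

namespace Pool.Agent.UN

open Pool.Agent.HL3218

universe u

namespace NS

variable {R : Type u} [Ring R]

theorem approx (B T : Ideal R) [B.IsTwoSided] [T.IsTwoSided] : ∀ l : List R,
    (∀ x ∈ l, x ∈ B ⊔ T) →
    ∃ lt : List R, lt.length = l.length ∧ (∀ x ∈ lt, x ∈ T) ∧ l.prod - lt.prod ∈ B
  | [], _ => ⟨[], rfl, by simp, by simp⟩
  | x :: l, h => by
    obtain ⟨lt, h1, h2, h3⟩ := approx B T l (fun y hy => h y (List.mem_cons_of_mem _ hy))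
    obtain ⟨b, hb, t, ht, hbt⟩ := Submodule.mem_sup.1 (h x List.mem_cons_self)
    refine ⟨t :: lt, by simp [h1], ?_, ?_⟩
    · intro y hy
      rcases List.mem_cons.1 hy with rfl | hy
      · exact ht
      · exact h2 y hy
    · have h4 : (x :: l).prod - (t :: lt).prod = b * l.prod + t * (l.prod - lt.prod) := by
        rw [List.prod_cons, List.prod_cons, ← hbt]
        noncomm_ring
      rw [h4]
      exact add_mem (B.mul_mem_right _ hb) (B.mul_mem_left _ h3)

theorem blocks (B C : Ideal R) (k' : ℕ)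
    (h : ∀ l : List R, k' ≤ l.length → (∀ x ∈ l, x ∈ C) → l.prod ∈ B) : ∀ (k : ℕ) (l : List R),
    k * k' ≤ l.length → (∀ x ∈ l, x ∈ C) →
    ∃ (L : List R) (r : R), k ≤ L.length ∧ (∀ x ∈ L, x ∈ B) ∧ l.prod = L.prod * r
  | 0, l, _, _ => ⟨[], l.prod, by simp, by simp, by simp⟩
  | k + 1, l, hl, hlC => by
    have hlen : k' ≤ l.length := le_trans (by nlinarith) hl
    obtain ⟨L, r, h1, h2, h3⟩ := blocks B C k' h k (l.drop k') (by
      rw [List.length_drop]
      have : (k + 1) * k' = k * k' + k' := by ring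
      omega) (fun x hx => hlC x (List.mem_of_mem_drop hx))
    refine ⟨(l.take k').prod :: L, r, by simp [h1], ?_, ?_⟩
    · intro x hx
      rcases List.mem_cons.1 hx with rfl | hx
      · exact h _ (by rw [List.length_take]; omega) (fun x hx => hlC x (List.mem_of_mem_take hx))
      · exact h2 x hx
    · rw [List.prod_cons, mul_assoc, ← h3, ← List.prod_append, List.take_append_drop]

end NS

theorem pr_NS : StNS.{u} := by
  intro R _ N B T _ _ _ k k' hk hk' l hl hlx
  obtain ⟨L, r, h1, h2, h3⟩ := NS.blocks B (B ⊔ T) k' (by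
    intro l hl hlx
    obtain ⟨lt, g1, g2, g3⟩ := NS.approx B T l hlx
    have g4 := hk' lt (by rw [g1]; exact hl) g2
    have g5 := add_mem g3 g4
    rwa [sub_add_cancel] at g5) k l hl hlx
  rw [h3]
  exact N.mul_mem_right _ (hk L h1 h2)

end Pool.Agent.UN
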