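import Pool.Agent.Work.MP_3218de_al.UN.Stmts

set_option autoImplicit false
set_option linter.style.haveILetI false

/-!
# MP_3218de_al, block UN, items NX and FN
-/

namespace Pool.Agent.UN

open Pool.Agent.HL3218

universe u

namespace NX

variable {R : Type u} [Ring R]

theorem sup_two (B T : Ideal R) [B.IsTwoSided] [T.IsTwoSided] :
    (B ⊔ T).IsTwoSided := ⟨by
  intro a b ha
  obtain ⟨x, hx, y, hy, rfl⟩ := Submodule.mem_sup.1 ha
  rw [add_mul]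
  exact Submodule.add_mem_sup (B.mul_mem_right b hx) (T.mul_mem_right b hy)⟩

theorem np_self (N : Ideal R) [N.IsTwoSided] : NP N N 1 := by
  intro l hl hlx
  cases l with
  | nil => simp at hl
  | cons a l =>
    rw [List.prod_cons]
    exact N.mul_mem_right _ (hlx a List.mem_cons_self)

theorem np_mono {N N' T : Ideal R} {k : ℕ} (h : NP N T k) (hN : N ≤ N') : NP N' T k :=
  fun l hl hlx => hN (h l hl hlx)

end NX

theorem pr_NX : StNX.{u} := by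
  intro hNS R _ N _
  let N' : Ideal R :=
    { carrier := {x | ∃ T : Ideal R, T.IsTwoSided ∧ x ∈ T ∧ ∃ k, NP N T k}
      add_mem' := by
        rintro x₁ x₂ ⟨T₁, hT₁, hx₁, k₁, hk₁⟩ ⟨T₂, hT₂, hx₂, k₂, hk₂⟩
        haveI := hT₁
        haveI := hT₂
        haveI := NX.sup_two N T₂
        haveI := NX.sup_two (N ⊔ T₂) T₁
        have h1 := hNS R N N T₂ 1 k₂ (NX.np_self N) hk₂
        have h2 := hNS R N (N ⊔ T₂) T₁ (1 * k₂) k₁ h1 (NX.np_mono hk₁ le_sup_left)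
        refine ⟨(N ⊔ T₂) ⊔ T₁, inferInstance, add_mem ?_ ?_, _, h2⟩
        · exact (le_sup_right : T₁ ≤ (N ⊔ T₂) ⊔ T₁) hx₁
        · exact (le_sup_left : N ⊔ T₂ ≤ (N ⊔ T₂) ⊔ T₁) ((le_sup_right : T₂ ≤ N ⊔ T₂) hx₂)
      zero_mem' := ⟨N, inferInstance, zero_mem _, 1, NX.np_self N⟩
      smul_mem' := by
        rintro r x ⟨T, hT, hx, k, hk⟩
        exact ⟨T, hT, T.mul_mem_left r hx, k, hk⟩ }
  refine ⟨N', ⟨⟨?_⟩, fun x => Iff.rfl⟩, fun x hx => ⟨N, inferInstance, hx, 1, NX.np_self N⟩⟩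
  rintro a b ⟨T, hT, hx, k, hk⟩
  haveI := hT
  exact ⟨T, hT, T.mul_mem_right b hx, k, hk⟩

theorem pr_FN : StFN.{u} := by
  intro hNS R _ N N' _ hN' l
  induction l with
  | nil =>
    intro _
    exact ⟨N, inferInstance, le_rfl, by simp, 1, NX.np_self N⟩
  | cons x l ih =>
    intro h
    obtain ⟨T₂, hT₂, hNT, hl, k₂, hk₂⟩ := ih (fun y hy => h y (List.mem_cons_of_mem _ hy))
    obtain ⟨T₁, hT₁, hx, k₁, hk₁⟩ := (hN'.2 x).1 (h x List.mem_cons_self)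
    haveI := hT₁
    haveI := hT₂
    refine ⟨T₂ ⊔ T₁, NX.sup_two T₂ T₁, hNT.trans le_sup_left, ?_, _,
      hNS R N T₂ T₁ k₂ k₁ hk₂ (NX.np_mono hk₁ hNT)⟩
    intro y hy
    rcases List.mem_cons.1 hy with rfl | hy
    · exact (le_sup_right : T₁ ≤ T₂ ⊔ T₁) hx
    · exact (le_sup_left : T₂ ≤ T₂ ⊔ T₁) (hl y hy)

end Pool.Agent.UN
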