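import Pool.Agent.Work.MP_3218de_al.UN.Stmts

set_option autoImplicit false
set_option linter.style.haveILetI false

/-!
# MP_3218de_al, block UN, items BB, PO, PS
-/

namespace Pool.Agent.UN

open Pool.Agent.HL3218
open scoped commutatorElement

universe u

theorem pr_BB : StBB := by
  intro hMC p G _ hG
  haveI := hG.isPerfect
  have hne : Subgroup.center G ≠ ⊤ := by
    intro h0
    refine hG.not_solvable ?_
    letI : CommGroup G :=
      { (inferInstance : Group G) with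
        mul_comm := fun x y => by
          have : y ∈ Subgroup.center G := h0 ▸ Subgroup.mem_top y
          exact Subgroup.mem_center_iff.1 this x }
    infer_instance
  haveI : Nontrivial (G ⧸ Subgroup.center G) := QuotientGroup.nontrivial_iff.2 hne
  let π : G →* G ⧸ Subgroup.center G := QuotientGroup.mk' _
  have hπ : Function.Surjective π := QuotientGroup.mk'_surjective _
  have hQ : Exm p (G ⧸ Subgroup.center G) := hG.map π hπ
  obtain ⟨N, hN, hNb, hNt⟩ := hMC p _ hQ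
  obtain ⟨V, hV, -, hVb, hVc, hVp⟩ := exists_elementary hQ.pgroup N hN hNb (hQ.proper N hNt).1
  haveI := hV
  have hker : ∀ g, π g = 1 → g ∈ Subgroup.center G := fun g hg => (QuotientGroup.eq_one_iff g).1 hg
  refine ⟨V.comap π, hV.comap π, ?_, ?_, ?_⟩
  · obtain ⟨⟨v, hv⟩, hv1⟩ := Subgroup.ne_bot_iff_exists_ne_one.1 hVb
    obtain ⟨b, rfl⟩ := hπ v
    refine ⟨b, hv, fun hb => hv1 ?_⟩
    apply Subtype.ext
    exact (QuotientGroup.eq_one_iff b).2 hb
  · intro b hb
    apply hker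
    rw [map_pow]
    exact hVp _ hb
  · intro x hx y hy
    apply hker
    rw [map_commutatorElement, commutatorElement_eq_one_iff_mul_comm]
    exact hVc _ hx _ hy

namespace PO

variable {G : Type} [Group G]

theorem swap_pow (x y c : G) (hc : ∀ h : G, h * c = c * h) (hyx : y * x = c * (x * y)) :
    ∀ k : ℕ, y ^ k * x = c ^ k * (x * y ^ k)
  | 0 => by simp
  | k + 1 => by
    have hck : ∀ h : G, h * c ^ k = c ^ k * h := fun h => (Commute.pow_right (hc h) k).eq
    calc y ^ (k + 1) * x = y * (y ^ k * x) := by rw [pow_succ', mul_assoc]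
      _ = y * (c ^ k * (x * y ^ k)) := by rw [swap_pow x y c hc hyx k]
      _ = c ^ k * (y * x) * y ^ k := by rw [← mul_assoc, hck y]; simp only [mul_assoc]
      _ = c ^ k * (c * (x * y)) * y ^ k := by rw [hyx]
      _ = c ^ (k + 1) * (x * y ^ (k + 1)) := by
        rw [pow_succ c, pow_succ' y]
        simp only [mul_assoc]

theorem mul_pow_class (x y c : G) (hc : ∀ h : G, h * c = c * h) (hyx : y * x = c * (x * y)) :
    ∀ n : ℕ, (x * y) ^ n = x ^ n * y ^ n * c ^ (n * (n - 1) / 2)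
  | 0 => by simp
  | n + 1 => by
    have hcn : ∀ (k : ℕ) (h : G), h * c ^ k = c ^ k * h := fun k h =>
      (Commute.pow_right (hc h) k).eq
    have e : (n + 1) * (n + 1 - 1) / 2 = n * (n - 1) / 2 + n := by
      rw [Nat.add_sub_cancel]
      rcases n with _ | n
      · rfl
      · have h1 : (n + 1 + 1) * (n + 1) = (n + 1) * (n + 1 - 1) + (n + 1) * 2 := by
          rw [Nat.add_sub_cancel]; ring
        rw [h1, Nat.add_mul_div_right _ _ (by norm_num)]
    calc (x * y) ^ (n + 1) = (x * y) ^ n * (x * y) := pow_succ _ _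
      _ = x ^ n * y ^ n * c ^ (n * (n - 1) / 2) * (x * y) := by rw [mul_pow_class x y c hc hyx n]
      _ = c ^ (n * (n - 1) / 2) * (x ^ n * (y ^ n * x) * y) := by
        rw [hcn, mul_assoc]
        simp only [mul_assoc]
      _ = c ^ (n * (n - 1) / 2) * (x ^ n * (c ^ n * (x * y ^ n)) * y) := by
        rw [swap_pow x y c hc hyx n]
      _ = c ^ (n * (n - 1) / 2) * (c ^ n * (x ^ (n + 1) * y ^ (n + 1))) := by
        rw [← mul_assoc (x ^ n) (c ^ n), hcn n (x ^ n), pow_succ x, pow_succ y]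
        simp only [mul_assoc]
      _ = _ := by
        rw [← mul_assoc, ← pow_add, ← e, ← hcn]

end PO

theorem pr_PO : StPO := by
  intro hMC hZG hBB hGR p G _ hG hp2 hD
  obtain ⟨ζ, hζ1, hζp, hζc, hζ⟩ := hZG hMC p G hG hD
  obtain ⟨B, hB, ⟨b, hb, hbc⟩, hBp, hBB'⟩ := hBB hMC p G hG
  apply hbc
  refine (hGR p G hG b).1 fun h => ?_
  set x : G := h * b * h⁻¹ with hx
  set y : G := b⁻¹ with hy
  have hxB : x ∈ B := hB.conj_mem b hb h
  have hyB : y ∈ B := inv_mem hb
  have hyx : y * x = ⁅y, x⁆ * (x * y) := by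
    rw [commutatorElement_def]
    group
  have hc : ∀ h : G, h * ⁅y, x⁆ = ⁅y, x⁆ * h :=
    fun h => Subgroup.mem_center_iff.1 (hBB' y hyB x hxB) h
  have hcp : ⁅y, x⁆ ^ p = 1 := by
    have h1 := PO.swap_pow x y ⁅y, x⁆ hc hyx p
    have h2 : y ^ p ∈ Subgroup.center G := hBp y hyB
    have h3 : x * y ^ p = y ^ p * x := Subgroup.mem_center_iff.1 h2 x
    rw [← h3] at h1
    exact (mul_eq_right.1 h1.symm)
  have hodd : ∃ q, p * (p - 1) / 2 = p * q := by
    obtain ⟨q, hq⟩ := hG.prime.odd_of_ne_two hp2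
    refine ⟨q, ?_⟩
    have h1 : p * (p - 1) = p * q * 2 := by
      have : p - 1 = 2 * q := by omega
      rw [this]
      ring
    rw [h1, Nat.mul_div_cancel _ (by norm_num)]
  obtain ⟨q, hq⟩ := hodd
  have hpow : (x * y) ^ p = 1 := by
    rw [PO.mul_pow_class x y _ hc hyx p, hq, pow_mul, hcp, one_pow, mul_one, hx, hy, conj_pow,
      inv_pow]
    have h3 : b ^ p ∈ Subgroup.center G := hBp b hb
    rw [Subgroup.mem_center_iff.1 h3 h, mul_assoc, mul_assoc]
    group
  obtain ⟨i, hi⟩ := hζ _ hpow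
  change x * y ∈ Subgroup.center G
  rw [hi]
  exact pow_mem hζc i

theorem pr_PS : StPS := by
  intro G _ ζ z b0 b1 b2 b3 hζ hζ2 hz h0 h1 h2 h3 h01 h02 h03 h12 h13 h23
  have hi : ∀ a b : G, a * b = ζ * (b * a) → b * a = ζ * (a * b) := by
    intro a b hab
    rw [hab, ← mul_assoc, hζ2, one_mul]
  have h10 := hi _ _ h01
  have h20 := hi _ _ h02
  have h30 := hi _ _ h03
  have h21 := hi _ _ h12
  have h31 := hi _ _ h13
  have h32 := hi _ _ h23
  have hzi : ∀ h : G, h * z⁻¹ = z⁻¹ * h := fun h => (Commute.inv_right (hz h)).eq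
  have e1 : b0 * b1 * b2 * b3 * (b0 * b1 * b2 * b3) = z * z * (z * z) := by
    have s0 : b1 * b2 * b3 * b0 = ζ * (b0 * (b1 * b2 * b3)) := by
      calc b1 * b2 * b3 * b0 = b1 * b2 * (b3 * b0) := by simp only [mul_assoc]
        _ = b1 * b2 * (ζ * (b0 * b3)) := by rw [h30]
        _ = ζ * (b1 * (b2 * b0) * b3) := by
          rw [← mul_assoc, hζ]
          simp only [mul_assoc]
        _ = ζ * (b1 * (ζ * (b0 * b2)) * b3) := by rw [h20]
        _ = ζ * (ζ * ((b1 * b0) * b2 * b3)) := by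
          rw [← mul_assoc b1, hζ b1]
          simp only [mul_assoc]
        _ = ζ * (ζ * ((ζ * (b0 * b1)) * b2 * b3)) := by rw [h10]
        _ = ζ * (ζ * ζ) * (b0 * (b1 * b2 * b3)) := by simp only [mul_assoc]
        _ = ζ * (b0 * (b1 * b2 * b3)) := by rw [hζ2, mul_one]
    have s1 : b2 * b3 * b1 = b1 * (b2 * b3) := by
      calc b2 * b3 * b1 = b2 * (b3 * b1) := by simp only [mul_assoc]
        _ = b2 * (ζ * (b1 * b3)) := by rw [h31]
        _ = ζ * ((b2 * b1) * b3) := by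
          rw [← mul_assoc, hζ]
          simp only [mul_assoc]
        _ = ζ * ((ζ * (b1 * b2)) * b3) := by rw [h21]
        _ = ζ * ζ * (b1 * (b2 * b3)) := by simp only [mul_assoc]
        _ = b1 * (b2 * b3) := by rw [hζ2, one_mul]
    calc b0 * b1 * b2 * b3 * (b0 * b1 * b2 * b3)
        = b0 * (b1 * b2 * b3 * b0) * (b1 * b2 * b3) := by simp only [mul_assoc]
      _ = b0 * (ζ * (b0 * (b1 * b2 * b3))) * (b1 * b2 * b3) := by rw [s0]
      _ = ζ * ((b0 * b0) * (b1 * (b2 * b3 * b1) * (b2 * b3))) := by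
        rw [← mul_assoc b0 ζ, hζ b0]
        simp only [mul_assoc]
      _ = ζ * (z * (b1 * (b1 * (b2 * b3)) * (b2 * b3))) := by rw [h0, s1]
      _ = ζ * (z * ((b1 * b1) * (b2 * (b3 * b2) * b3))) := by simp only [mul_assoc]
      _ = ζ * (z * (z * (b2 * (ζ * (b2 * b3)) * b3))) := by rw [h1, h32]
      _ = ζ * (z * (z * (ζ * ((b2 * b2) * (b3 * b3))))) := by
        rw [← mul_assoc b2 ζ, hζ b2]
        simp only [mul_assoc]
      _ = ζ * (z * (z * (ζ * (z * z)))) := by rw [h2, h3]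
      _ = ζ * ζ * (z * z * (z * z)) := by
        rw [← mul_assoc z ζ, hζ z, mul_assoc ζ z, ← mul_assoc z ζ, hζ z]
        simp only [mul_assoc]
      _ = _ := by rw [hζ2, one_mul]
  rw [pow_two]
  calc b0 * b1 * b2 * b3 * z⁻¹ * z⁻¹ * (b0 * b1 * b2 * b3 * z⁻¹ * z⁻¹)
      = (b0 * b1 * b2 * b3 * (b0 * b1 * b2 * b3)) * (z⁻¹ * z⁻¹ * (z⁻¹ * z⁻¹)) := by
        have h4 : z⁻¹ * z⁻¹ * (b0 * b1 * b2 * b3) = (b0 * b1 * b2 * b3) * (z⁻¹ * z⁻¹) := by
          rw [mul_assoc, ← hzi (b0 * b1 * b2 * b3), ← mul_assoc, ← hzi (b0 * b1 * b2 * b3),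
            mul_assoc]
        calc b0 * b1 * b2 * b3 * z⁻¹ * z⁻¹ * (b0 * b1 * b2 * b3 * z⁻¹ * z⁻¹)
            = b0 * b1 * b2 * b3 * (z⁻¹ * z⁻¹ * (b0 * b1 * b2 * b3)) * (z⁻¹ * z⁻¹) := by
              simp only [mul_assoc]
          _ = _ := by
            rw [h4]
            simp only [mul_assoc]
    _ = 1 := by
      rw [e1]
      group

end Pool.Agent.UN
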