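import Pool.Agent.Work.MP_3218de_al.UN.Stmts

/-!
# Item PT of block UN (MP_3218de_al): the contradiction for the prime 2
-/

set_option autoImplicit false

namespace Pool.Agent.UN

open Pool.Agent.HL3218
open scoped commutatorElement

namespace PT

/-- The commutator of two elements with the same central square, if it is central, is an involution
or trivial. -/
lemma comm_sq {G : Type} [Group G] (x y z c : G) (hc : ∀ h : G, h * c = c * h)
    (hz : ∀ h : G, h * z = z * h) (hx : x * x = z) (hxy : x * y = c * (y * x)) : c ^ 2 = 1 := by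
  have h1 : z * y = c * c * (z * y) := by
    calc z * y = x * (x * y) := by rw [← hx, mul_assoc]
      _ = x * (c * (y * x)) := by rw [hxy]
      _ = (x * c) * (y * x) := by rw [mul_assoc]
      _ = (c * x) * (y * x) := by rw [hc]
      _ = c * (x * y) * x := by simp only [mul_assoc]
      _ = c * (c * (y * x)) * x := by rw [hxy]
      _ = c * c * (y * (x * x)) := by simp only [mul_assoc]
      _ = c * c * (z * y) := by rw [hx, hz]
  rw [pow_two]
  exact (right_eq_mul.mp h1)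

lemma quot_sq {G : Type} [Group G] (x y z : G) (hx : x * x = z) (hy : y * y = z)
    (hxy : x * y = y * x) : (x⁻¹ * y) ^ 2 = 1 := by
  have h1 : x⁻¹ * y = y * x⁻¹ := by
    rw [inv_mul_eq_iff_eq_mul, ← mul_assoc, hxy, mul_assoc, mul_inv_cancel, mul_one]
  calc (x⁻¹ * y) ^ 2 = x⁻¹ * (y * x⁻¹) * y := by rw [pow_two]; simp only [mul_assoc]
    _ = x⁻¹ * (x⁻¹ * y) * y := by rw [h1]
    _ = (x * x)⁻¹ * (y * y) := by group
    _ = 1 := by rw [hx, hy, inv_mul_cancel]

end PT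

theorem pr_PT : StPT := by
  intro hMC hZG hBB hGR hPS G _ hE hD
  obtain ⟨ζ, hζ1, hζ2, hζc, hζ⟩ := hZG hMC 2 G hE hD
  obtain ⟨B, hBn, ⟨b, hb, hbc⟩, hB2, hBc⟩ := hBB hMC 2 G hE
  have hinf := (hGR 2 G hE b).2 hbc
  have hcen : ∀ v : G, v ^ 2 = 1 → v ∈ Subgroup.center G := by
    intro v hv
    obtain ⟨i, rfl⟩ := hζ v hv
    exact Subgroup.pow_mem _ hζc i
  have hcen' : ∀ v : G, v ∈ Subgroup.center G → ∀ h : G, h * v = v * h := fun v hv h =>
    Subgroup.mem_center_iff.mp hv h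
  have hcase : ∀ v : G, v ^ 2 = 1 → v = 1 ∨ v = ζ := by
    intro v hv
    obtain ⟨i, rfl⟩ := hζ v hv
    rcases Nat.even_or_odd' i with ⟨m, hm | hm⟩
    · left; rw [hm, pow_mul, hζ2, one_pow]
    · right; rw [hm, pow_succ, pow_mul, hζ2, one_pow, one_mul]
  let e := Set.Infinite.natEmbedding _ hinf
  have hex : ∀ i : ℕ, ∃ h : G, ((h * b * h⁻¹ : G) : G ⧸ Subgroup.center G) = (e i).1 := fun i =>
    (e i).2
  choose h hh using hex
  have hne : ∀ i j : ℕ, i ≠ j → (h i * b * (h i)⁻¹)⁻¹ * (h j * b * (h j)⁻¹) ∉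
      Subgroup.center G := by
    intro i j hij hmem
    rw [← QuotientGroup.eq, hh, hh] at hmem
    exact hij (e.injective (Subtype.ext hmem))
  obtain ⟨x, hx⟩ : ∃ x : ℕ → G, ∀ i, x i = h i * b * (h i)⁻¹ := ⟨_, fun _ => rfl⟩
  simp only [← hx] at hne
  have hxB : ∀ i, x i ∈ B := fun i => by rw [hx]; exact hBn.conj_mem b hb (h i)
  obtain ⟨z, hz⟩ : ∃ z, z = b * b := ⟨_, rfl⟩
  have hzc : z ∈ Subgroup.center G := by
    have := hB2 b hb
    rwa [pow_two, ← hz] at this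
  have hzz := hcen' z hzc
  have hxx : ∀ i, x i * x i = z := by
    intro i
    have h1 : x i * x i = h i * (b * b) * (h i)⁻¹ := by rw [hx]; group
    rw [h1, ← hz, hzz, mul_assoc, mul_inv_cancel, mul_one]
  have key : ∀ i j : ℕ, i ≠ j → x i * x j = ζ * (x j * x i) := by
    intro i j hij
    have hc := hBc (x i) (hxB i) (x j) (hxB j)
    have h1 : x i * x j = ⁅x i, x j⁆ * (x j * x i) := by
      rw [commutatorElement_def]; group
    have h2 := PT.comm_sq (x i) (x j) z _ (hcen' _ hc) hzz (hxx i) h1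
    rcases hcase _ h2 with h3 | h3
    · exfalso
      rw [h3, one_mul] at h1
      exact hne i j hij (hcen _ (PT.quot_sq (x i) (x j) z (hxx i) (hxx j) h1))
    · rw [h3] at h1
      exact h1
  have hζζ : ζ * ζ = 1 := by rw [← pow_two]; exact hζ2
  have p3 := hPS G ζ z (x 0) (x 1) (x 2) (x 3) (hcen' ζ hζc) hζζ hzz (hxx 0) (hxx 1) (hxx 2)
    (hxx 3) (key 0 1 (by decide)) (key 0 2 (by decide)) (key 0 3 (by decide))
    (key 1 2 (by decide)) (key 1 3 (by decide)) (key 2 3 (by decide))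
  have p4 := hPS G ζ z (x 0) (x 1) (x 2) (x 4) (hcen' ζ hζc) hζζ hzz (hxx 0) (hxx 1) (hxx 2)
    (hxx 4) (key 0 1 (by decide)) (key 0 2 (by decide)) (key 0 4 (by decide))
    (key 1 2 (by decide)) (key 1 4 (by decide)) (key 2 4 (by decide))
  apply hne 3 4 (by decide)
  have h5 : (x 3)⁻¹ * x 4 = z⁻¹ * z⁻¹ * ((x 0 * x 1 * x 2 * x 3 * z⁻¹ * z⁻¹)⁻¹ *
      (x 0 * x 1 * x 2 * x 4 * z⁻¹ * z⁻¹)) * z * z := by
    group
  rw [h5]
  have hzi : z⁻¹ ∈ Subgroup.center G := Subgroup.inv_mem _ hzc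
  exact Subgroup.mul_mem _ (Subgroup.mul_mem _ (Subgroup.mul_mem _ (Subgroup.mul_mem _ hzi hzi)
    (Subgroup.mul_mem _ (Subgroup.inv_mem _ (hcen _ p3)) (hcen _ p4))) hzc) hzc

end Pool.Agent.UN
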