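import Pool.Agent.Work.MP_3218de_al.UN.Stmts

set_option autoImplicit false

/-!
# MP_3218de_al, block UN, item SS
-/

namespace Pool.Agent.UN

open Pool.Agent.HL3218

universe u

theorem pr_SS : StSS.{u} := by
  classical
  intro hLW hSA hSW hWL G _ R _ f K ρ X d m hrho hXρ hXK hvan hK hm s r hs
  obtain ⟨hρr, hρu⟩ := hrho
  have hn : 1 ≤ 2 ^ d := Nat.one_le_two_pow
  choose! k hkK hk using hXK
  choose L hLlen hLX hsL using hs
  let gg : R → Rˣ := fun b => if b ∈ X then f (k b) else 1
  have hgg : ∀ b ∈ X, gg b = f (k b) := fun b hb => by simp only [gg, if_pos hb]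
  have hgg1 : ∀ b ∈ X, (gg b : R) = 1 + b := fun b hb => by rw [hgg b hb, hk b hb]
  obtain ⟨v, w, a, haX, hv0, hLw, hvb, c1, c2, c3, c4, c5, c6⟩ :=
    hSW hWL R X m (2 ^ d) hvan hm hn gg hgg1 L hLlen hLX
  let z : ℕ → R := fun i => ((gg (a i))⁻¹ : Rˣ) * (v i * r i * w i) * (gg (a i) : R)
    - v i * r i * w i
  obtain ⟨z1, z2, z3⟩ := hSA R (2 ^ d) v w r a (fun i => gg (a i)) (fun i => hgg1 _ (haX i))
    c1 c2 c3 c4 c5 c6 z (fun i => rfl)
  obtain ⟨k0, hk0, hfk0⟩ := hLW G R f K d z (by
    intro i hi
    obtain ⟨b, hb, y, hby⟩ := hvb i hi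
    have hx : v i * r i * w i ∈ ρ := by
      rw [hby, mul_assoc, mul_assoc]
      exact hρr _ (hXρ hb) _
    obtain ⟨u, hu, huk⟩ := hρu _ hx
    obtain ⟨hsq, hz⟩ := z2 i hi
    obtain ⟨k', hk', hfk'⟩ := huk (k (a i)) (hkK _ (haX i))
    refine ⟨k', hk', ?_⟩
    have hinv : ((u⁻¹ : Rˣ) : R) = 1 - v i * r i * w i := by
      apply Units.inv_eq_of_mul_eq_one_right
      rw [hu]
      have h3 : (1 + v i * r i * w i) * (1 - v i * r i * w i)
          = 1 - (v i * r i * w i) * (v i * r i * w i) := by noncomm_ring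
      rw [h3, hsq, sub_zero]
    rw [hfk', Units.val_mul, Units.val_mul, Units.val_mul, hinv, hu, ← hz, hgg _ (haX i)]
    noncomm_ring) z1
  have hk1 : k0 = 1 := by
    rw [hK] at hk0
    exact Subgroup.mem_bot.1 hk0
  rw [hk1, map_one, Units.val_one] at hfk0
  have hprod : ((List.range (2 ^ d)).map fun i => v i * r i * w i * a i).prod = 0 := by
    rw [← z3]
    exact (left_eq_add.1 hfk0)
  have hind : ∀ q, q ≤ 2 ^ d →
      ((List.range q).map fun i => v i * r i * w i * a i).prod * v q
        = ((List.range q).map fun i => s i * r i).prod * s q := by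
    intro q
    induction q with
    | zero =>
      intro _
      simp [hsL, hv0]
    | succ q ih =>
      intro hq
      rw [List.range_succ, List.map_append, List.prod_append, List.map_append, List.prod_append]
      simp only [List.map_cons, List.map_nil, List.prod_cons, List.prod_nil, mul_one]
      have h1 := ih (by omega)
      have h2 : s (q + 1) = w q * a q * v (q + 1) := by rw [hsL, hLw q (by omega)]
      calc ((List.range q).map fun i => v i * r i * w i * a i).prod *
            (v q * r q * w q * a q) * v (q + 1)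
          = (((List.range q).map fun i => v i * r i * w i * a i).prod * v q) * r q *
            (w q * a q * v (q + 1)) := by simp only [mul_assoc]
        _ = _ := by rw [h1, ← h2]; simp only [mul_assoc]
  rw [← hind _ le_rfl, hprod, zero_mul]

end Pool.Agent.UN
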