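import Pool.Agent.Work.MP_3218de_al.UN.Stmts

set_option autoImplicit false

/-!
# MP_3218de_al, block UN, item ST
-/

namespace Pool.Agent.UN

open Pool.Agent.HL3218

universe u

namespace ST

theorem lift_list {α β : Type u} (φ : α → β) (X : Set α) : ∀ l : List β,
    (∀ x ∈ l, x ∈ φ '' X) → ∃ l0 : List α, (∀ x ∈ l0, x ∈ X) ∧ l0.map φ = l
  | [], _ => ⟨[], by simp, rfl⟩
  | b :: l, h => by
    obtain ⟨l0, h0, h1⟩ := lift_list φ X l (fun x hx => h x (List.mem_cons_of_mem _ hx))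
    obtain ⟨a, ha, rfl⟩ := h b List.mem_cons_self
    refine ⟨a :: l0, ?_, by rw [List.map_cons, h1]⟩
    intro x hx
    rcases List.mem_cons.1 hx with rfl | hx
    · exact ha
    · exact h0 x hx

theorem sup_two {R : Type u} [Ring R] (B T : Ideal R) [B.IsTwoSided] [T.IsTwoSided] :
    (B ⊔ T).IsTwoSided := ⟨by
  intro a b ha
  obtain ⟨x, hx, y, hy, rfl⟩ := Submodule.mem_sup.1 ha
  rw [add_mul]
  exact Submodule.add_mem_sup (B.mul_mem_right b hx) (T.mul_mem_right b hy)⟩

end ST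

theorem pr_ST : StST.{u} := by
  classical
  intro hSS hTI hNS hML G _ R _ f K ρ X d m hrho hXρ hXK hK hm B _ k hk hB
  obtain ⟨hρr, hρu⟩ := hrho
  let π : R →+* R ⧸ B := Ideal.Quotient.mk B
  have hπ : Function.Surjective π := Ideal.Quotient.mk_surjective
  have hπ0 : ∀ x, π x = 0 ↔ x ∈ B := fun x => Ideal.Quotient.eq_zero_iff_mem
  let f' : G →* (R ⧸ B)ˣ := (Units.map (π : R →* R ⧸ B)).comp f
  have hf' : ∀ g, (f' g : R ⧸ B) = π (f g) := fun g => rfl
  have h1 := hSS G (R ⧸ B) f' K (π '' ρ) (π '' X) d m (by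
      constructor
      · rintro _ ⟨x, hx, rfl⟩ r
        obtain ⟨r, rfl⟩ := hπ r
        exact ⟨x * r, hρr x hx r, map_mul π x r⟩
      · rintro _ ⟨x, hx, rfl⟩
        obtain ⟨u, hu, huk⟩ := hρu x hx
        refine ⟨Units.map (π : R →* R ⧸ B) u, ?_, fun k hk => ?_⟩
        · change π (u : R) = 1 + π x
          rw [hu, map_add, map_one]
        · obtain ⟨k', hk', hfk⟩ := huk k hk
          refine ⟨k', hk', ?_⟩
          change Units.map (π : R →* R ⧸ B) (f k') = _
          rw [hfk, map_mul, map_mul, map_mul, map_inv, map_inv]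
          rfl) (Set.image_mono hXρ) (by
      rintro _ ⟨b, hb, rfl⟩
      obtain ⟨k, hk, hfk⟩ := hXK b hb
      exact ⟨k, hk, by rw [hf', hfk, map_add, map_one]⟩) (by
      intro l hl hlX
      obtain ⟨l0, h0, rfl⟩ := ST.lift_list π X l hlX
      rw [← map_list_prod, hπ0]
      exact hB l0 (by rwa [List.length_map] at hl) h0) hK hm
  let S : Set R := {w | ∃ L : List R, L.length + 1 = m ∧ (∀ x ∈ L, x ∈ X) ∧ w = L.prod}
  obtain ⟨T, hT, hST, hTn⟩ := hTI hML R S B (2 ^ d) (by
    intro s r hs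
    rw [← hπ0, map_mul, map_list_prod, List.map_map]
    have h2 := h1 (fun i => π (s i)) (fun i => π (r i)) (by
      intro i
      obtain ⟨L, hL, hLX, hsL⟩ := hs i
      refine ⟨L.map π, by rwa [List.length_map], ?_, by rw [hsL, map_list_prod]⟩
      intro x hx
      obtain ⟨y, hy, rfl⟩ := List.mem_map.1 hx
      exact ⟨y, hLX y hy, rfl⟩)
    have h3 : ((fun i => π (s i) * π (r i)) : ℕ → R ⧸ B) = π ∘ fun i => s i * r i := by
      funext i
      exact (map_mul π _ _).symm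
    rw [h3] at h2
    exact h2)
  have h4 := hNS R ⊥ B T k (2 ^ d + 1) hk hTn
  refine ⟨B ⊔ T, ST.sup_two B T, ⟨_, h4⟩, ?_⟩
  intro l hl hlX
  apply (le_sup_right : T ≤ B ⊔ T)
  have hsplit : l = l.take (m - 1) ++ l.drop (m - 1) := (List.take_append_drop _ _).symm
  rw [hsplit, List.prod_append]
  apply Ideal.mul_mem_right
  apply hST
  refine ⟨l.take (m - 1), ?_, fun x hx => hlX x (List.mem_of_mem_take hx), rfl⟩
  rw [List.length_take]
  have : 1 ≤ m := by omega
  omega

end Pool.Agent.UN
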