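import Pool.Agent.Work.MP_3218de_al.UN.Stmts

set_option autoImplicit false

/-!
# MP_3218de_al, block UN, item SW
-/

namespace Pool.Agent.UN

open Pool.Agent.HL3218

universe u

theorem pr_SW : StSW.{u} := by
  classical
  intro hWL R _ X m n hvan hmn hn gg hgg L hLlen hLX
  have hL0 : 0 < (L 0).length := by have := hLlen 0; omega
  let b0 : R := (L 0)[0]
  have hb0 : b0 ∈ X := hLX 0 _ (List.getElem_mem _)
  let v : ℕ → R := fun i => ((L i).drop (2 * i)).prod
  let w : ℕ → R := fun i => ((L (i + 1)).take (2 * i + 1)).prod
  let a : ℕ → R := fun i => (L (i + 1)).getD (2 * i + 1) b0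
  have haX : ∀ i, a i ∈ X := by
    intro i
    change (L (i + 1)).getD (2 * i + 1) b0 ∈ X
    by_cases h : 2 * i + 1 < (L (i + 1)).length
    · rw [List.getD_eq_getElem _ _ h]
      exact hLX _ _ (List.getElem_mem _)
    · rw [List.getD_eq_default _ _ (by omega)]
      exact hb0
  have hdX : ∀ i k, ∀ x ∈ (L i).drop k, x ∈ X := fun i k x hx => hLX i x (List.mem_of_mem_drop hx)
  have htX : ∀ i k, ∀ x ∈ (L i).take k, x ∈ X := fun i k x hx => hLX i x (List.mem_of_mem_take hx)
  have hdl : ∀ i, i ≤ n → ((L i).drop (2 * i)).length + 2 * i + 1 = m := by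
    intro i hi
    rw [List.length_drop]
    have := hLlen i
    omega
  have htl : ∀ i, i < n → ((L (i + 1)).take (2 * i + 1)).length = 2 * i + 1 := by
    intro i hi
    rw [List.length_take]
    have := hLlen (i + 1)
    omega
  have hta : ∀ i, w i * a i = ((L (i + 1)).take (2 * i + 1) ++ [a i]).prod := by
    intro i
    rw [List.prod_append, List.prod_singleton]
  have htaX : ∀ i, ∀ x ∈ (L (i + 1)).take (2 * i + 1) ++ [a i], x ∈ X := by
    intro i x hx
    rcases List.mem_append.1 hx with hx | hx
    · exact htX _ _ x hx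
    · rw [List.mem_singleton.1 hx]
      exact haX i
  have hprod : ∀ l l' : List R, (∀ x ∈ l, x ∈ X) → (∀ x ∈ l', x ∈ X) →
      m ≤ l.length + l'.length → l.prod * l'.prod = 0 := by
    intro l l' hl hl' hlen
    rw [← List.prod_append]
    refine hvan _ (by rw [List.length_append]; exact hlen) ?_
    intro x hx
    rcases List.mem_append.1 hx with hx | hx
    · exact hl x hx
    · exact hl' x hx
  refine ⟨v, w, a, haX, ?_, ?_, ?_, ?_, ?_, ?_, ?_, ?_, ?_⟩
  · change (L 0).prod = ((L 0).drop (2 * 0)).prod
    rw [mul_zero, List.drop_zero]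
  · intro i hi
    have hlen : 2 * i + 1 < (L (i + 1)).length := by
      have := hLlen (i + 1)
      omega
    have ha : a i = (L (i + 1))[2 * i + 1] := List.getD_eq_getElem _ _ hlen
    have h1 : (L (i + 1)).drop (2 * i + 1) = a i :: (L (i + 1)).drop (2 * (i + 1)) := by
      rw [List.drop_eq_getElem_cons hlen, ha]
      rfl
    calc (L (i + 1)).prod = ((L (i + 1)).take (2 * i + 1) ++ (L (i + 1)).drop (2 * i + 1)).prod := by
          rw [List.take_append_drop]
      _ = _ := by
          rw [List.prod_append, h1, List.prod_cons, mul_assoc]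
  · intro i hi
    have h1 := hdl i hi.le
    rcases hl : (L i).drop (2 * i) with _ | ⟨b, l⟩
    · rw [hl] at h1
      simp at h1
      omega
    · refine ⟨b, hdX i (2 * i) b (by rw [hl]; exact List.mem_cons_self), l.prod, ?_⟩
      change ((L i).drop (2 * i)).prod = b * l.prod
      rw [hl, List.prod_cons]
  · intro i j hij hj
    refine hprod _ _ (htX _ _) (hdX _ _) ?_
    have h1 := hdl i (by omega)
    have h2 := htl j hj
    omega
  · intro i j hij hj
    refine hWL R X m hvan _ _ (htX _ _) (hdX _ _) ?_ (a i) (haX i) (gg (a i)) (hgg _ (haX i))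
    have h1 := hdl i (by omega)
    have h2 := htl j hj
    omega
  · intro i j hij hj
    rw [hta]
    refine hprod _ _ (htaX _) (hdX _ _) ?_
    have h1 := hdl i (by omega)
    have h2 := htl j hj
    rw [List.length_append, List.length_singleton]
    omega
  · intro i j hij hj
    rw [hta]
    refine hWL R X m hvan _ _ (htaX _) (hdX _ _) ?_ (a i) (haX i) (gg (a i)) (hgg _ (haX i))
    have h1 := hdl i (by omega)
    have h2 := htl j hj
    rw [List.length_append, List.length_singleton]
    omega
  · have h0 := hWL R X m hvan [a 0] _ (by simpa using haX 0) (hdX 0 (2 * 0)) (by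
      have h1 := hdl 0 (by omega)
      rw [List.length_singleton]
      omega) (a 0) (haX 0) (gg (a 0)) (hgg _ (haX 0))
    rw [List.prod_singleton] at h0
    exact h0
  · intro i hi
    have h0 := hWL R X m hvan ((L (i + 1)).take (2 * i + 1) ++ [a i] ++ [a (i + 1)]) _ (by
      intro x hx
      rcases List.mem_append.1 hx with hx | hx
      · exact htaX i x hx
      · rw [List.mem_singleton.1 hx]
        exact haX _) (hdX (i + 1) (2 * (i + 1))) (by
      have h1 := hdl (i + 1) (by omega)
      have h2 := htl i (by omega)
      rw [List.length_append, List.length_append, List.length_singleton]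
      simp only [List.length_singleton]
      omega) (a (i + 1)) (haX _) (gg (a (i + 1))) (hgg _ (haX _))
    rw [List.prod_append, List.prod_append, List.prod_singleton, List.prod_singleton] at h0
    exact h0

end Pool.Agent.UN
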