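import Pool.Agent.Work.MP_3218de_al.UN.Stmts

set_option autoImplicit false

/-!
# MP_3218de_al, block UN, items T1, T4
-/

namespace Pool.Agent.UN

open Pool.Agent.HL3218

universe u

namespace T1

variable {R : Type u} [Ring R]

theorem pow_sq_zero (y : R) (hy : y * y = 0) : ∀ n : ℕ, (1 + y) ^ n = 1 + (n : R) * y
  | 0 => by simp
  | n + 1 => by
    rw [pow_succ, pow_sq_zero y hy n, mul_add, mul_one, add_mul, one_mul, mul_assoc, hy, mul_zero,
      add_zero, Nat.cast_add, Nat.cast_one, add_mul, one_mul]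
    abel

end T1

theorem pr_T1 : StT1.{u} := by
  intro p G _ hpg hp R _ f hN g c
  set N := NN f g with hNdef
  set a := de f g with ha
  have hfa : (f g : R) = 1 + a := by
    rw [ha]
    unfold de
    abel
  have hNa : N * a = 0 := by
    rw [hNdef, ha]
    unfold NN de
    rw [geom_sum_mul, ← Units.val_pow_eq_pow_val, ← map_pow, pow_orderOf_eq_one, map_one,
      Units.val_one, sub_self]
  have hNg : N * (f g : R) = N := by rw [hfa, mul_add, mul_one, hNa, add_zero]
  have hNgi : N * ((f g)⁻¹ : Rˣ) = N := by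
    conv_lhs => rw [← hNg]
    rw [mul_assoc, Units.mul_inv, mul_one]
  let x : R := a * c * N
  have hxx : x * x = 0 := by
    change a * c * N * (a * c * N) = 0
    have : a * c * N * (a * c * N) = a * c * (N * a) * (c * N) := by simp only [mul_assoc]
    rw [this, hNa, mul_zero, zero_mul]
  have hxg : x * (f g : R) = x := by
    change a * c * N * (f g : R) = a * c * N
    rw [mul_assoc, hNg]
  let u : Rˣ := ⟨1 + x, 1 - x, by
    have : (1 + x) * (1 - x) = 1 - x * x := by noncomm_ring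
    rw [this, hxx, sub_zero], by
    have : (1 - x) * (1 + x) = 1 - x * x := by noncomm_ring
    rw [this, hxx, sub_zero]⟩
  have hu : (u : R) = 1 + x := rfl
  have hui : ((u⁻¹ : Rˣ) : R) = 1 - x := rfl
  obtain ⟨g', hg'⟩ := hN u ⟨2, by rw [hu, add_sub_cancel_left, pow_two, hxx]⟩ g
  have h1 : (f g' : R) = (f g : R) - a * x := by
    rw [hg', Units.val_mul, Units.val_mul, hu, hui]
    have : (1 + x) * (f g : R) * (1 - x) =
        (f g : R) + x * (f g : R) - (f g : R) * x - x * (f g : R) * x := by noncomm_ring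
    rw [this, hxg, hxx, sub_zero]
    conv_lhs =>
      rw [hfa]
    rw [hfa]
    noncomm_ring
  let y : R := -(((f g)⁻¹ : Rˣ) * (a * x))
  have h2 : (f (g⁻¹ * g') : R) = 1 + y := by
    rw [map_mul, map_inv, Units.val_mul, h1, mul_sub, Units.inv_mul, sub_eq_add_neg]
  have hyy : y * y = 0 := by
    have e : y * y = ((f g)⁻¹ : Rˣ) * (a * (a * c)) * (N * ((f g)⁻¹ : Rˣ) * a) * (a * c * N) := by
      change -(((f g)⁻¹ : Rˣ) * (a * (a * c * N))) * -(((f g)⁻¹ : Rˣ) * (a * (a * c * N))) = _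
      rw [neg_mul_neg]
      simp only [mul_assoc]
    rw [e, hNgi, hNa, mul_zero, zero_mul]
  obtain ⟨e, he⟩ := hpg (g⁻¹ * g')
  refine ⟨e, ?_⟩
  have h3 : (1 + y) ^ p ^ e = 1 := by
    rw [← h2, ← Units.val_pow_eq_pow_val, ← map_pow, he, map_one, Units.val_one]
  rw [T1.pow_sq_zero y hyy, add_eq_left, Nat.cast_pow] at h3
  have h4 : (p : R) ^ e * (((f g)⁻¹ : Rˣ) * (a * x)) = 0 := by
    have h5 : (p : R) ^ e * y = -((p : R) ^ e * (((f g)⁻¹ : Rˣ) * (a * x))) := mul_neg _ _
    rw [h5, neg_eq_zero] at h3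
    exact h3
  have hcomm : (f g : R) * (p : R) ^ e = (p : R) ^ e * (f g : R) := by
    rw [← Nat.cast_pow]
    exact (Nat.cast_comm _ _).symm
  have h6 : (f g : R) * ((p : R) ^ e * (((f g)⁻¹ : Rˣ) * (a * x))) = (p : R) ^ e * (a * x) := by
    rw [← mul_assoc, hcomm, mul_assoc, ← mul_assoc (f g : R), Units.mul_inv, one_mul]
  rw [h4, mul_zero] at h6
  rw [h6]
  change _ = (p : R) ^ e * (a * (a * c * N))
  simp only [mul_assoc]

theorem pr_T4 : StT4.{u} := by
  intro p hp Γ _ R' _ f' _ ht hsum v w hvw hv hw hw1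
  by_contra hcon
  push Not at hcon
  have hvj : ∀ j : ℕ, v * w ^ j ≠ 1 := by
    intro j hj
    refine hcon (j * (p - 1)) ?_
    have h1 : v = (w ^ j)⁻¹ := eq_inv_of_mul_eq_one_left hj
    have h2 : w ^ j * w ^ (j * (p - 1)) = 1 := by
      rw [← pow_add]
      have : j + j * (p - 1) = p * j := by
        obtain ⟨q, rfl⟩ : ∃ q, p = q + 1 := ⟨p - 1, by have := hp.pos; omega⟩
        simp
        ring
      rw [this, pow_mul, hw, one_pow]
    rw [h1]
    exact (eq_inv_of_mul_eq_one_right h2).symm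
  have hc : Commute v w := hvw
  have hvjp : ∀ j : ℕ, (v * w ^ j) ^ p = 1 := by
    intro j
    rw [(hc.pow_right j).mul_pow, hv, ← pow_mul, mul_comm, pow_mul, hw, one_pow, one_mul]
  have hwi : ∀ i : ℕ, 0 < i → i < p → w ^ i ≠ 1 := by
    intro i hi hip h1
    apply hw1
    have h2 : orderOf w ∣ i := orderOf_dvd_of_pow_eq_one h1
    have h3 : orderOf w ∣ p := orderOf_dvd_of_pow_eq_one hw
    have h4 : orderOf w ∣ 1 := by
      have h5 : Nat.Coprime p i :=
        (Nat.Prime.coprime_iff_not_dvd hp).2 fun h6 => absurd (Nat.le_of_dvd hi h6) (by omega)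
      exact h5 ▸ Nat.dvd_gcd h3 h2
    exact orderOf_eq_one_iff.1 (Nat.dvd_one.1 h4)
  have hC : Commute (f' v : R') (f' w : R') := by
    have : Commute (f' v) (f' w) := hc.map f'
    exact congrArg Units.val this.eq
  have h1 : ∀ j : ℕ, ∑ i ∈ Finset.range p, ((f' v : R') * (f' w : R') ^ j) ^ i = 0 := by
    intro j
    have := hsum (v * w ^ j) (hvj j) (hvjp j)
    rwa [map_mul, map_pow, Units.val_mul, Units.val_pow_eq_pow_val] at this
  have h2 : ∑ j ∈ Finset.range p, ∑ i ∈ Finset.range p,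
      ((f' v : R') * (f' w : R') ^ j) ^ i = 0 := Finset.sum_eq_zero fun j _ => h1 j
  rw [Finset.sum_comm] at h2
  obtain ⟨q, rfl⟩ : ∃ q, p = q + 1 := ⟨p - 1, by have := hp.pos; omega⟩
  rw [Finset.sum_range_succ'] at h2
  have h3 : ∑ i ∈ Finset.range q, ∑ j ∈ Finset.range (q + 1),
      ((f' v : R') * (f' w : R') ^ j) ^ (i + 1) = 0 := by
    refine Finset.sum_eq_zero fun i hi => ?_
    have hi' : i < q := Finset.mem_range.1 hi
    have h4 : ∀ j, ((f' v : R') * (f' w : R') ^ j) ^ (i + 1) =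
        (f' v : R') ^ (i + 1) * (f' (w ^ (i + 1)) : R') ^ j := by
      intro j
      rw [(hC.pow_right j).mul_pow, map_pow, Units.val_pow_eq_pow_val, ← pow_mul, ← pow_mul,
        mul_comm j]
    simp only [h4]
    rw [← Finset.mul_sum, hsum _ (hwi (i + 1) (by omega) (by omega)) (by
      rw [← pow_mul, mul_comm, pow_mul, hw, one_pow]), mul_zero]
  rw [h3, zero_add] at h2
  simp only [pow_zero, Finset.sum_const, Finset.card_range, nsmul_eq_mul, mul_one] at h2
  exact one_ne_zero (ht 1 (by rw [mul_one]; exact h2))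

end Pool.Agent.UN
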