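import Pool.Agent.Work.MP_3218de_al.UN.Stmts

set_option autoImplicit false

namespace Pool.Agent.UN

open Pool.Agent.HL3218

universe u

namespace T3

theorem pure_pow {R : Type u} [Ring R] {p : ℕ} {P : Ideal R} (h : Pure p P) (e : ℕ) (y : R)
    (hy : (p : R) ^ e * y ∈ P) : y ∈ P := by
  induction e with
  | zero => simpa using hy
  | succ e ih =>
    apply ih
    apply h
    rwa [← mul_assoc, ← pow_succ']

theorem expand {R : Type u} [Ring R] (a : R) (n : ℕ) :
    ∃ q : R, (1 + a) ^ n = 1 + n * a + q * (a * a) := by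
  induction n with
  | zero => exact ⟨0, by simp⟩
  | succ n ih =>
    obtain ⟨q, hq⟩ := ih
    refine ⟨q + n + q * a, ?_⟩
    rw [pow_succ, hq]
    push_cast
    noncomm_ring

theorem order_rel {p : ℕ} {G : Type} [Group G] (hG : IsPGroup p G) (hp : p.Prime) {R : Type u}
    [Ring R] (f : G →* Rˣ) (g : G) :
    ∃ (k : ℕ) (q : R), (p : R) ^ k * de f g = - (q * (de f g * de f g)) := by
  have : Fact p.Prime := ⟨hp⟩
  obtain ⟨k, hk⟩ := IsPGroup.iff_orderOf.mp hG g
  obtain ⟨q, hq⟩ := expand (de f g) (orderOf g)
  refine ⟨k, q, ?_⟩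
  have h1 : (1 + de f g) ^ orderOf g = 1 := by
    have : 1 + de f g = (f g : R) := by simp [de]
    rw [this, ← Units.val_pow_eq_pow_val, ← map_pow, pow_orderOf_eq_one, map_one, Units.val_one]
  rw [h1, hk] at hq
  push_cast at hq
  have h2 : (p : R) ^ k * de f g + q * (de f g * de f g) = 0 := by
    have h3 : (1 : R) + ((p : R) ^ k * de f g + q * (de f g * de f g)) = 1 + 0 := by
      rw [add_zero, ← add_assoc]
      exact hq.symm
    exact add_left_cancel h3
  exact eq_neg_of_add_eq_zero_left h2

end T3

theorem pr_T3 : StT3.{u} := by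
  intro p G _ hG hp R _ f g0 P hP hyp g hg
  obtain ⟨hts, hpure, hx0, hmax⟩ := hP
  have := hts
  set a := de f g with ha
  set N := NN f g with hN
  have h1 : ∀ c : R, a * a * c * N ∈ P := by
    intro c
    obtain ⟨e, he⟩ := hyp g c
    exact T3.pure_pow hpure e _ (by rw [he]; exact P.zero_mem)
  have h2 : ∀ c : R, a * c * N ∈ P := by
    intro c
    obtain ⟨k, q, hkq⟩ := T3.order_rel hG hp f g
    apply T3.pure_pow hpure k
    have e1 : (p : R) ^ k * (a * c * N) = - (q * (a * a * c * N)) := by
      have : (p : R) ^ k * (a * c * N) = ((p : R) ^ k * a) * c * N := by noncomm_ring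
      rw [this, hkq]
      noncomm_ring
    rw [e1]
    exact P.neg_mem (P.mul_mem_left q (h1 c))
  by_contra hNP
  -- the ideal W
  let W : Ideal R :=
    { carrier := {x | ∀ c, a * c * x ∈ P}
      add_mem' := by
        intro x y hx hy c
        rw [mul_add]
        exact P.add_mem (hx c) (hy c)
      zero_mem' := by
        intro c
        rw [mul_zero]
        exact P.zero_mem
      smul_mem' := by
        intro r x hx c
        have : a * c * (r • x) = a * (c * r) * x := by
          rw [smul_eq_mul]; noncomm_ring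
        rw [this]
        exact hx _ }
  have hWm : ∀ x, x ∈ W ↔ ∀ c, a * c * x ∈ P := fun x => Iff.rfl
  have hWts : W.IsTwoSided := ⟨by
    intro x r hx
    rw [hWm] at hx ⊢
    intro c
    rw [← mul_assoc]
    exact P.mul_mem_right r (hx c)⟩
  have hWpure : Pure p W := by
    intro x hx
    rw [hWm] at hx ⊢
    intro c
    apply hpure
    have : (p : R) * (a * c * x) = a * c * ((p : R) * x) := by
      rw [← mul_assoc, ← mul_assoc, ← mul_assoc, (Nat.cast_commute p a).eq, mul_assoc a,
        (Nat.cast_commute p c).eq, ← mul_assoc a]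
    rw [this]
    exact hx c
  have hPW : P ≤ W := fun x hx c => P.mul_mem_left _ hx
  have hneW : P ≠ W := by
    intro h
    apply hNP
    rw [h]
    exact h2
  have hx0W := hmax W hWts hWpure hPW hneW
  -- the ideal V
  set x0 := de f g0 with hx0d
  let V : Ideal R :=
    { carrier := {y | ∀ c, y * c * x0 ∈ P}
      add_mem' := by
        intro x y hx hy c
        rw [add_mul, add_mul]
        exact P.add_mem (hx c) (hy c)
      zero_mem' := by
        intro c
        rw [zero_mul, zero_mul]
        exact P.zero_mem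
      smul_mem' := by
        intro r x hx c
        have : (r • x) * c * x0 = r * (x * c * x0) := by
          rw [smul_eq_mul]; noncomm_ring
        rw [this]
        exact P.mul_mem_left _ (hx c) }
  have hVm : ∀ y, y ∈ V ↔ ∀ c, y * c * x0 ∈ P := fun y => Iff.rfl
  have hVts : V.IsTwoSided := ⟨by
    intro x r hx
    rw [hVm] at hx ⊢
    intro c
    have := hx (r * c)
    rwa [← mul_assoc] at this⟩
  have hVpure : Pure p V := by
    intro x hx
    rw [hVm] at hx ⊢
    intro c
    apply hpure
    have : (p : R) * (x * c * x0) = (p : R) * x * c * x0 := by noncomm_ring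
    rw [this]
    exact hx c
  have hPV : P ≤ V := fun x hx c => by
    rw [mul_assoc]
    exact P.mul_mem_right _ hx
  have haV : a ∈ V := fun c => hx0W c
  have hneV : P ≠ V := by
    intro h
    apply hg
    rw [h]
    exact haV
  have hx0V : x0 ∈ V := hmax V hVts hVpure hPV hneV
  have h3 : x0 * x0 ∈ P := by
    have := hx0V 1
    rwa [mul_one] at this
  apply hx0
  obtain ⟨k, q, hkq⟩ := T3.order_rel hG hp f g0
  apply T3.pure_pow hpure k
  rw [hkq]
  exact P.neg_mem (P.mul_mem_left q h3)

end Pool.Agent.UN
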