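import Pool.Agent.Work.MP_3218de_al.UN.Stmts

set_option autoImplicit false

/-!
# MP_3218de_al, block UN, item TI: the two-sided ideal generated by a set
-/

namespace Pool.Agent.UN

universe u

namespace TI

variable {R : Type u} [Ring R]

/-- the multiples of the elements of `S` -/
def W (S : Set R) : Set R := {w | ∃ x y : R, ∃ s ∈ S, w = x * s * y}

theorem left_mem (S : Set R) (r z : R) (hz : z ∈ AddSubgroup.closure (W S)) :
    r * z ∈ AddSubgroup.closure (W S) := by
  induction hz using AddSubgroup.closure_induction with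
  | mem y hy =>
    obtain ⟨x, y', s, hs, rfl⟩ := hy
    exact AddSubgroup.subset_closure ⟨r * x, y', s, hs, by simp only [mul_assoc]⟩
  | zero =>
    rw [mul_zero]
    exact zero_mem _
  | add y w _ _ hy hw =>
    rw [mul_add]
    exact add_mem hy hw
  | neg y _ hy =>
    rw [mul_neg]
    exact neg_mem hy

theorem right_mem (S : Set R) (r z : R) (hz : z ∈ AddSubgroup.closure (W S)) :
    z * r ∈ AddSubgroup.closure (W S) := by
  induction hz using AddSubgroup.closure_induction with
  | mem y hy =>
    obtain ⟨x, y', s, hs, rfl⟩ := hy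
    exact AddSubgroup.subset_closure ⟨x, y' * r, s, hs, by simp only [mul_assoc]⟩
  | zero =>
    rw [zero_mul]
    exact zero_mem _
  | add y w _ _ hy hw =>
    rw [add_mul]
    exact add_mem hy hw
  | neg y _ hy =>
    rw [neg_mul]
    exact neg_mem hy

/-- the ideal -/
def T (S : Set R) : Ideal R where
  carrier := AddSubgroup.closure (W S)
  add_mem' := fun h1 h2 => (AddSubgroup.closure (W S)).add_mem h1 h2
  zero_mem' := (AddSubgroup.closure (W S)).zero_mem
  smul_mem' := fun r z hz => left_mem S r z hz

theorem mem_T (S : Set R) (z : R) : z ∈ T S ↔ z ∈ AddSubgroup.closure (W S) := Iff.rfl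

theorem words (S : Set R) : ∀ (l : List R) (w : R), w ∈ W S → (∀ x ∈ l, x ∈ W S) →
    ∃ (l' : List (R × R)) (s' x y : R), (∀ q ∈ l', q.1 ∈ S) ∧ s' ∈ S ∧ l'.length = l.length ∧
      (w :: l).prod = x * ((l'.map fun q => q.1 * q.2).prod * s') * y := by
  intro l
  induction l with
  | nil =>
    intro w hw _
    obtain ⟨x, y, s, hs, rfl⟩ := hw
    refine ⟨[], s, x, y, by simp, hs, rfl, ?_⟩
    simp
  | cons v l ih =>
    intro w hw h
    obtain ⟨l', s', x', y', h1, h2, h3, h4⟩ := ih v (h v (by simp))
      (fun z hz => h z (by simp [hz]))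
    obtain ⟨x, y, s, hs, rfl⟩ := hw
    refine ⟨(s, y * x') :: l', s', x, y', ?_, h2, ?_, ?_⟩
    · intro q hq
      rcases List.mem_cons.1 hq with rfl | hq
      · exact hs
      · exact h1 q hq
    · rw [List.length_cons, List.length_cons, h3]
    · rw [List.prod_cons, h4, List.map_cons, List.prod_cons]
      simp only [mul_assoc]

theorem words_mem (S : Set R) (B : Ideal R) [B.IsTwoSided] (n : ℕ)
    (h : ∀ s r : ℕ → R, (∀ i, s i ∈ S) →
      ((List.range n).map fun i => s i * r i).prod * s n ∈ B)
    (l : List R) (hl : l.length = n + 1) (hW : ∀ x ∈ l, x ∈ W S) : l.prod ∈ B := by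
  rcases l with _ | ⟨w, l⟩
  · rw [List.length_nil] at hl
    omega
  · obtain ⟨l', s', x, y, h1, h2, h3, h4⟩ := words S l w (hW w (by simp))
      (fun z hz => hW z (by simp [hz]))
    have hn : l'.length = n := by
      rw [h3]
      rw [List.length_cons] at hl
      omega
    have key := h (fun i => (l'.getD i (s', 0)).1) (fun i => (l'.getD i (s', 0)).2) (by
      intro i
      change (l'.getD i (s', 0)).1 ∈ S
      by_cases hi : i < l'.length
      · rw [List.getD_eq_getElem l' (s', 0) hi]
        exact h1 _ (List.getElem_mem hi)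
      · rw [List.getD_eq_default l' (s', 0) (not_lt.1 hi)]
        exact h2)
    have e1 : ((List.range n).map fun i => (l'.getD i (s', 0)).1 * (l'.getD i (s', 0)).2) =
        l'.map fun q => q.1 * q.2 := by
      apply List.ext_getElem
      · rw [List.length_map, List.length_map, List.length_range, hn]
      · intro i hi1 hi2
        rw [List.length_map] at hi2
        rw [List.getElem_map, List.getElem_map, List.getElem_range,
          List.getD_eq_getElem l' (s', 0) hi2]
    have e2 : (l'.getD n (s', 0)).1 = s' := by
      rw [List.getD_eq_default l' (s', 0) (by omega)]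
    rw [e1] at key
    simp only [e2] at key
    rw [h4]
    exact B.mul_mem_right y (B.mul_mem_left x key)

end TI

theorem pr_TI : StTI.{u} := by
  intro hML R _ S B _ n h
  refine ⟨TI.T S, ⟨?_⟩, ?_, ?_⟩
  · intro a b ha
    exact TI.right_mem S b a ha
  · intro s hs
    exact AddSubgroup.subset_closure ⟨1, 1, s, hs, by rw [one_mul, mul_one]⟩
  · intro l hl hT
    rw [← List.take_append_drop (n + 1) l, List.prod_append]
    refine B.mul_mem_right _ ?_
    have := hML R (TI.W S) B.toAddSubgroup (n + 1) (fun l hl hW => TI.words_mem S B n h l hl hW)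
      (l.take (n + 1)) (by rw [List.length_take]; omega)
      (fun x hx => hT x (List.mem_of_mem_take hx))
    exact this

end Pool.Agent.UN
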