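import Pool.Agent.Work.MP_3218de_al.UN.Stmts

set_option autoImplicit false

namespace Pool.Agent.UN

open Pool.Agent.HL3218

universe u

namespace TQ

theorem sum_mul {R : Type u} [Ring R] (t : R) (p : ℕ) (ht : t ^ p = 1) (n : ℕ) :
    ∑ i ∈ Finset.range (p * n), t ^ i = (n : R) * ∑ i ∈ Finset.range p, t ^ i := by
  induction n with
  | zero => simp
  | succ n ih =>
    rw [Nat.mul_succ, Finset.sum_range_add, ih]
    have : ∀ i, t ^ (p * n + i) = t ^ i := by
      intro i
      rw [pow_add, pow_mul, ht, one_pow, one_mul]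
    simp only [this]
    push_cast
    rw [add_mul, one_mul]

theorem pow_torsion {R : Type u} [Ring R] (p : ℕ) (h : ∀ x : R, (p : R) * x = 0 → x = 0) (k : ℕ)
    (x : R) (hx : (p : R) ^ k * x = 0) : x = 0 := by
  induction k with
  | zero => simpa using hx
  | succ k ih =>
    apply ih
    apply h
    rwa [← mul_assoc, ← pow_succ']

end TQ

theorem pr_TQ : StTQ.{u} := by
  intro p G _ hG hp R _ f g0 P hP hyp
  obtain ⟨hts, hpure, hx0, hmax⟩ := hP
  have := hts
  have : Fact p.Prime := ⟨hp⟩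
  let φ : G →* (R ⧸ P)ˣ := (Units.map (Ideal.Quotient.mk P : R →* R ⧸ P)).comp f
  have hφ : ∀ g, ((φ g : (R ⧸ P)ˣ) : R ⧸ P) = Ideal.Quotient.mk P (f g : R) := fun g => rfl
  have hφ1 : ∀ g, φ g = 1 ↔ de f g ∈ P := by
    intro g
    rw [← Ideal.Quotient.eq_zero_iff_mem, de, map_sub, map_one, sub_eq_zero, ← hφ]
    constructor
    · intro h; rw [h]; rfl
    · intro h; exact Units.ext h
  have htor : ∀ x : R ⧸ P, (p : R ⧸ P) * x = 0 → x = 0 := by
    intro x hx
    obtain ⟨y, rfl⟩ := Ideal.Quotient.mk_surjective x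
    rw [Ideal.Quotient.eq_zero_iff_mem]
    apply hpure
    rw [← Ideal.Quotient.eq_zero_iff_mem, map_mul, map_natCast]
    exact hx
  refine ⟨G ⧸ φ.ker, inferInstance, QuotientGroup.mk' φ.ker, QuotientGroup.mk'_surjective _, ?_,
    R ⧸ P, inferInstance, QuotientGroup.kerLift φ, ?_, htor, ?_⟩
  · rw [QuotientGroup.nontrivial_iff]
    intro h
    apply hx0
    rw [← hφ1, ← MonoidHom.mem_ker, h]
    exact Subgroup.mem_top _
  · apply Ideal.Quotient.nontrivial_iff.mpr
    intro h
    apply hx0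
    rw [h]
    exact Submodule.mem_top
  · intro v hv hvp
    obtain ⟨g, rfl⟩ := QuotientGroup.mk'_surjective φ.ker v
    have hk : (QuotientGroup.kerLift φ) (QuotientGroup.mk' φ.ker g) = φ g := rfl
    rw [hk]
    have hg1 : φ g ≠ 1 := by
      intro h
      apply hv
      exact (QuotientGroup.eq_one_iff g).mpr h
    have hgP : de f g ∉ P := fun h => hg1 ((hφ1 g).mpr h)
    have hgp : φ g ^ p = 1 := by
      have := congrArg (QuotientGroup.kerLift φ) hvp
      rw [map_pow, hk, map_one] at this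
      exact this
    have ht : (φ g : R ⧸ P) ^ p = 1 := by
      rw [← Units.val_pow_eq_pow_val, hgp, Units.val_one]
    have hN := hyp g hgP
    rw [← Ideal.Quotient.eq_zero_iff_mem, NN, map_sum] at hN
    simp only [map_pow, ← hφ] at hN
    obtain ⟨k, hk⟩ := IsPGroup.iff_orderOf.mp hG g
    have hk0 : k ≠ 0 := by
      intro h0
      rw [h0, pow_zero, orderOf_eq_one_iff] at hk
      apply hg1
      rw [hk, map_one]
    obtain ⟨k', rfl⟩ := Nat.exists_eq_succ_of_ne_zero hk0
    rw [hk, Nat.succ_eq_add_one, pow_succ', TQ.sum_mul _ p ht] at hN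
    apply TQ.pow_torsion p htor k'
    rw [Nat.cast_pow] at hN
    exact hN

end Pool.Agent.UN
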