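import Pool.Agent.Work.MP_3218de_al.UN.Stmts

set_option autoImplicit false

namespace Pool.Agent.UN

open Pool.Agent.HL3218

universe u

theorem pr_WL : StWL.{u} := by
  intro R _ X m hX l l' hl hl' hlen b hb g hg
  -- the inverse
  have hinv : ((g⁻¹ : Rˣ) : R) = 1 - b * ((g⁻¹ : Rˣ) : R) := by
    have h : (g : R) * ((g⁻¹ : Rˣ) : R) = 1 := Units.mul_inv g
    rw [hg, add_mul, one_mul] at h
    exact eq_sub_of_add_eq h
  have main : ∀ (n : ℕ) (l : List R), (∀ x ∈ l, x ∈ X) → m ≤ l.length + l'.length →
      m ≤ l.length + n → l.prod * ((g⁻¹ : Rˣ) : R) * l'.prod = 0 := by
    intro n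
    induction n with
    | zero =>
      intro l hl hlen hn
      have : l.prod = 0 := hX l (by simpa using hn) hl
      rw [this, zero_mul, zero_mul]
    | succ n ih =>
      intro l hl hlen hn
      have h1 : (l ++ l').prod = 0 := by
        apply hX
        · simpa using hlen
        · intro x hx
          rcases List.mem_append.mp hx with h | h
          · exact hl x h
          · exact hl' x h
      have h2 : (l ++ [b]).prod * ((g⁻¹ : Rˣ) : R) * l'.prod = 0 := by
        apply ih
        · intro x hx
          rcases List.mem_append.mp hx with h | h
          · exact hl x h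
          · rw [List.mem_singleton] at h
            rw [h]; exact hb
        · simp only [List.length_append, List.length_singleton]
          omega
        · simp only [List.length_append, List.length_singleton]
          omega
      rw [List.prod_append] at h1
      rw [List.prod_append, List.prod_singleton] at h2
      rw [hinv, mul_sub, mul_one, sub_mul, h1, zero_sub, neg_eq_zero, ← mul_assoc]
      exact h2
  exact main m l hl hlen (by omega)

end Pool.Agent.UN
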