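import Pool.Agent.Work.MP_3218de_al.UN.Stmts

set_option autoImplicit false

/-!
# MP_3218de_al, block UN, item ZG: a central element of order `p`
-/

namespace Pool.Agent.UN

open Pool.Agent.HL3218
open scoped commutatorElement

theorem pr_ZG : StZG := by
  classical
  intro hMC p G _ hG hD
  have hpf : Fact p.Prime := ⟨hG.prime⟩
  obtain ⟨N, hN, hNb, hNt⟩ := hMC p G hG
  obtain ⟨V, hVn, hVN, hVb, hVc, hVp⟩ := exists_elementary hG.pgroup N hN hNb (hG.proper N hNt).1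
  obtain ⟨w, hw⟩ := Subgroup.ne_bot_iff_exists_ne_one.1 hVb
  obtain ⟨ζ, hζV, hζ1⟩ : ∃ ζ : G, ζ ∈ V ∧ ζ ≠ 1 := ⟨w.1, w.2, fun h0 => hw (Subtype.ext h0)⟩
  have hζp : ζ ^ p = 1 := hVp ζ hζV
  have hVfin : Finite V := by
    have h1 : (V : Set G) ⊆ Set.range (fun i : Fin p => ζ ^ (i : ℕ)) := by
      intro v hv
      obtain ⟨i, hi⟩ := hD v ζ (hVc v hv ζ hζV) (hVp v hv) hζp hζ1
      refine ⟨⟨i % p, Nat.mod_lt _ hG.prime.pos⟩, ?_⟩
      change ζ ^ (i % p) = v
      rw [hi]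
      conv_rhs => rw [← Nat.div_add_mod i p, pow_add, pow_mul, hζp, one_pow, one_mul]
    exact ((Set.finite_range _).subset h1).to_subtype
  have hker : (MulAut.conjNormal (H := V)).ker = ⊤ := by
    have : Finite (MulAut V) := inferInstance
    exact hG.eq_top_of_finiteIndex _
  have hcen : ∀ g : G, g * ζ = ζ * g := by
    intro g
    have h1 : g ∈ (MulAut.conjNormal (H := V)).ker := by
      rw [hker]
      exact Subgroup.mem_top g
    rw [MonoidHom.mem_ker] at h1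
    have h2 : ((MulAut.conjNormal g ⟨ζ, hζV⟩ : V) : G) = g * ζ * g⁻¹ :=
      MulAut.conjNormal_apply g ⟨ζ, hζV⟩
    rw [h1] at h2
    have h3 : ζ = g * ζ * g⁻¹ := h2
    exact (eq_mul_inv_iff_mul_eq.1 h3).symm
  refine ⟨ζ, hζ1, hζp, Subgroup.mem_center_iff.2 hcen, fun v hv => ?_⟩
  exact hD v ζ (hcen v) hv hζp hζ1

end Pool.Agent.UN
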