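import Pool.Agent.Work.MP_3218de_al.UN.Stmts

set_option autoImplicit false

/-!
# MP_3218de_al, block UN, item ZR: a maximal pure ideal
-/

namespace Pool.Agent.UN

open Pool.Agent.HL3218
open scoped commutatorElement

universe u

/-- The ideal of the elements killed by a power of `p`. -/
def ZR.tors {R : Type u} [Ring R] (p : ℕ) : Ideal R where
  carrier := {x | ∃ e : ℕ, (p : R) ^ e * x = 0}
  zero_mem' := ⟨0, by simp⟩
  add_mem' := by
    rintro x y ⟨e, he⟩ ⟨e', he'⟩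
    refine ⟨e + e', ?_⟩
    rw [mul_add, pow_add, mul_assoc, mul_assoc, he', mul_zero, add_zero,
      ((Commute.refl (p : R)).pow_pow e e').left_comm, he, mul_zero]
  smul_mem' := by
    rintro a x ⟨e, he⟩
    refine ⟨e, ?_⟩
    rw [smul_eq_mul, ((Nat.cast_commute p a).pow_left e).left_comm, he, mul_zero]

theorem pr_ZR : StZR.{u} := by
  intro R _ p x0 hx0
  obtain ⟨P, -, hP⟩ := zorn_le_nonempty₀
    {P : Ideal R | P.IsTwoSided ∧ Pure p P ∧ x0 ∉ P} (by
      intro c hc hchain y hy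
      have hmem : ∀ z : R, z ∈ sSup c ↔ ∃ P ∈ c, z ∈ P := fun z =>
        Submodule.mem_sSup_of_directed ⟨y, hy⟩ hchain.directedOn
      refine ⟨sSup c, ⟨⟨?_⟩, ?_, ?_⟩, fun z hz => le_sSup hz⟩
      · intro a b ha
        obtain ⟨P, hPc, haP⟩ := (hmem a).1 ha
        exact (hmem _).2 ⟨P, hPc, (hc hPc).1.mul_mem_of_left b haP⟩
      · intro x hx
        obtain ⟨P, hPc, hxP⟩ := (hmem _).1 hx
        exact (hmem _).2 ⟨P, hPc, (hc hPc).2.1 x hxP⟩
      · intro hx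
        obtain ⟨P, hPc, hxP⟩ := (hmem _).1 hx
        exact (hc hPc).2.2 hxP)
    (ZR.tors p) (by
      refine ⟨⟨?_⟩, ?_, ?_⟩
      · rintro a b ⟨e, he⟩
        exact ⟨e, by rw [← mul_assoc, he, zero_mul]⟩
      · rintro x ⟨e, he⟩
        exact ⟨e + 1, by rw [pow_succ, mul_assoc, he]⟩
      · rintro ⟨e, he⟩
        exact hx0 e he)
  refine ⟨P, hP.prop.1, hP.prop.2.1, hP.prop.2.2, ?_⟩
  intro P' h1 h2 h3 h4
  by_contra h5
  exact h4 (le_antisymm h3 (hP.le_of_ge ⟨h1, h2, h5⟩ h3))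

end Pool.Agent.UN
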