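import Pool.Agent.Work.MP_3218de_al.UN.AsmP
import Pool.Agent.Work.MP_3218de_al.UN.I_ML
import Pool.Agent.Work.MP_3218de_al.UN.I_NS
import Pool.Agent.Work.MP_3218de_al.UN.I_NX
import Pool.Agent.Work.MP_3218de_al.UN.I_TI
import Pool.Agent.Work.MP_3218de_al.UN.I_LN
import Pool.Agent.Work.MP_3218de_al.UN.I_JN
import Pool.Agent.Work.MP_3218de_al.UN.I_JI
import Pool.Agent.Work.MP_3218de_al.UN.I_LW
import Pool.Agent.Work.MP_3218de_al.UN.I_WL
import Pool.Agent.Work.MP_3218de_al.UN.I_SA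
import Pool.Agent.Work.MP_3218de_al.UN.I_SW
import Pool.Agent.Work.MP_3218de_al.UN.I_SS
import Pool.Agent.Work.MP_3218de_al.UN.I_ST
import Pool.Agent.Work.MP_3218de_al.UN.I_DP
import Pool.Agent.Work.MP_3218de_al.UN.I_A2
import Pool.Agent.Work.MP_3218de_al.UN.I_FT
import Pool.Agent.Work.MP_3218de_al.UN.I_T1
import Pool.Agent.Work.MP_3218de_al.UN.I_ZR
import Pool.Agent.Work.MP_3218de_al.UN.I_T3
import Pool.Agent.Work.MP_3218de_al.UN.I_TQ
import Pool.Agent.Work.MP_3218de_al.UN.I_TF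
import Pool.Agent.Work.MP_3218de_al.UN.I_MC
import Pool.Agent.Work.MP_3218de_al.UN.I_ZG
import Pool.Agent.Work.MP_3218de_al.UN.I_GR
import Pool.Agent.Work.MP_3218de_al.UN.I_PO
import Pool.Agent.Work.MP_3218de_al.UN.I_PT

set_option autoImplicit false

/-!
# MP_3218de_al, block UN: the main theorem
-/

namespace Pool.Agent.UN

open Pool.Agent.HL3218

universe u

theorem allP : AllP.{u} where
  ML := pr_ML
  NS := pr_NS
  NX := pr_NX
  TI := pr_TI
  LN := pr_LN
  JN := pr_JN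
  JI := pr_JI
  PF := pr_PF
  KP := pr_KP
  RU := pr_RU
  LW := pr_LW
  WL := pr_WL
  SA := pr_SA
  SW := pr_SW
  SS := pr_SS
  ST := pr_ST
  DP := pr_DP
  XT := pr_XT
  A2 := pr_A2
  A3 := pr_A3
  FI := pr_FI
  FT := pr_FT
  FN := pr_FN

theorem allT : AllT.{u} where
  T1 := pr_T1
  ZR := pr_ZR
  T3 := pr_T3
  TQ := pr_TQ
  T4 := pr_T4
  TF := pr_TF
  TL := pr_TL
  FL := pr_FL
  MC := pr_MC
  ZG := pr_ZG
  BB := pr_BB
  GR := pr_GR
  PO := pr_PO
  PS := pr_PS
  PT := pr_PT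

/-- THEOREM U: the image of an example in the unit group of a ring is not normalised by all units
of the form `1 + x`, `x` a nilpotent element of the subring which it generates -/
theorem main (p : ℕ) {G : Type} [Group G] (hG : Exm p G) (A : Type u) [Ring A]
    (f : G →* Aˣ) (hf : f ≠ 1) :
    ∃ u : Aˣ, (u : A) ∈ Subring.closure (Set.range fun g => (f g : A)) ∧
      IsNilpotent ((u : A) - 1) ∧ ∃ g, u * f g * u⁻¹ ∉ f.range :=
  main_of allP allT p hG A f hf

end Pool.Agent.UN
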