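import Pool.Agent.Work.MP_3218de_al.UN.Stmts

set_option autoImplicit false
set_option linter.style.haveILetI false

/-!
# MP_3218de_al, block UN: assembly from the statements of the items
-/

namespace Pool.Agent.UN

open Pool.Agent.HL3218

universe u

/-- the statements of parts 1 to 4 -/
structure AllP : Prop where
  ML : StML.{u}
  NS : StNS.{u}
  NX : StNX.{u}
  TI : StTI.{u}
  LN : StLN.{u}
  JN : StJN.{u}
  JI : StJI.{u}
  PF : StPF.{u}
  KP : StKP.{u}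
  RU : StRU.{u}
  LW : StLW.{u}
  WL : StWL.{u}
  SA : StSA.{u}
  SW : StSW.{u}
  SS : StSS.{u}
  ST : StST.{u}
  DP : StDP.{u}
  XT : StXT.{u}
  A2 : StA2.{u}
  A3 : StA3.{u}
  FI : StFI.{u}
  FT : StFT.{u}
  FN : StFN.{u}

/-- the statements of parts 5 and 6 -/
structure AllT : Prop where
  T1 : StT1.{u}
  ZR : StZR.{u}
  T3 : StT3.{u}
  TQ : StTQ.{u}
  T4 : StT4.{u}
  TF : StTF.{u}
  TL : StTL.{u}
  FL : StFL.{u}
  MC : StMC
  ZG : StZG
  BB : StBB
  GR : StGR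
  PO : StPO
  PS : StPS
  PT : StPT

section P

variable {G : Type} [Group G] {R : Type u} [Ring R]

theorem de_mem_Jn (f : G →* Rˣ) (g : G) : de f g ∈ Jn f :=
  AddSubgroup.subset_closure ⟨g, rfl⟩

theorem eq_one_of_de (f : G →* Rˣ) (h : ∀ g, de f g = 0) : f = 1 := by
  ext g
  have := h g
  unfold de at this
  rw [sub_eq_zero] at this
  simpa using this

theorem partP (H : AllP.{u}) (p : ℕ) (hG : Exm p G) (hp : (p : R) = 0) (f : G →* Rˣ)
    (hs : Spn f) (hN : NrmJ f) : f = 1 := by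
  classical
  haveI : Fact p.Prime := ⟨hG.prime⟩
  by_contra hf
  obtain ⟨hnil, hvan⟩ := H.JN H.ML H.LN p G hG.pgroup hG.locfin R hp f
  obtain ⟨N1, hN1, h01⟩ := H.NX H.NS R (⊥ : Ideal R)
  haveI := hN1.1
  obtain ⟨N2, hN2, h12⟩ := H.NX H.NS R N1
  haveI := hN2.1
  obtain ⟨N3, hN3, h23⟩ := H.NX H.NS R N2
  have e0 : ∃ g, de f g ∉ (⊥ : Ideal R) := by
    by_contra h0
    push Not at h0
    exact hf (eq_one_of_de f fun g => by simpa using h0 g)
  have e1 := H.FT H.FI p G hG R f ⊥ N1 hN1 (H.FN H.NS R ⊥ N1 hN1) e0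
  have e2 := H.FT H.FI p G hG R f N1 N2 hN2 (H.FN H.NS R N1 N2 hN2) e1
  obtain ⟨g, hg⟩ := H.FT H.FI p G hG R f N2 N3 hN3 (H.FN H.NS R N2 N3 hN3) e2
  apply hg
  have sq : ∀ g, de f g * de f g ∈ N2 := by
    intro g
    by_cases hg0 : de f g = 0
    · rw [hg0, mul_zero]
      exact zero_mem _
    obtain ⟨K, hKt, hK⟩ := H.KP H.JI H.PF G hG.perfect R f hs hnil g hg0
    obtain ⟨d, hd⟩ := (solvable_iff K).1 (hG.proper K hKt).1
    have hrho := H.RU H.JI G R f hs hnil hN g K hK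
    have hst := H.ST (H.SS H.LW H.SA H.SW H.WL) H.TI H.NS H.ML G R f K
      {x | ∃ r : R, x = de f g * r}
    have hdp := H.DP G R f K {x | ∃ r : R, x = de f g * r} d
      (fun X m hX hXK hm B _ k hk hB => hst X d m hrho hX hXK hd hm B k hk hB)
      (fun k hk => (hK k).1 hk) hvan
    obtain ⟨q, hq⟩ : ∃ q, 2 * 2 ^ d = q + 1 :=
      ⟨2 * 2 ^ d - 1, by
        have h2 : 0 < 2 ^ d := pow_pos (by norm_num) d
        omega⟩
    have h1 : ∀ l : List G, l.length = q + 1 → (∀ k ∈ l, k ∈ K) → (l.map (de f)).prod ∈ N1 := by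
      intro l hl hlK
      obtain ⟨B, hB, hBk, hBl⟩ := hdp l (by rw [hl, hq]) hlK
      exact (hN1.2 _).2 ⟨B, hB, hBl, hBk⟩
    have h2 := H.A2 H.JI H.XT G R f hs hnil hN g K hK N1 q h1
    obtain ⟨T, hT, hST, hTn⟩ := H.TI H.ML R {de f g * de f g} N1 q (by
      intro s r hsr
      have hse : s = fun _ => de f g * de f g := funext fun i => hsr i
      rw [hse]
      exact h2 r)
    exact (hN2.2 _).2 ⟨T, hT, hST rfl, _, hTn⟩
  have h3 := H.A3 G R f hs N2 sq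
  obtain ⟨T, hT, hST, hTn⟩ := H.TI H.ML R {de f g} N2 1 (by
    intro s r hsr
    have hse : s = fun _ => de f g := funext fun i => hsr i
    rw [hse]
    simpa using h3 g (r 0))
  exact (hN3.2 _).2 ⟨T, hT, hST rfl, _, hTn⟩

theorem no_dep (H : AllT.{u}) (p : ℕ) {Γ : Type} [Group Γ] (hG : Exm p Γ) : ¬ Dep p Γ := by
  intro hD
  by_cases h2 : p = 2
  · subst h2
    exact H.PT H.MC H.ZG H.BB H.GR H.PS Γ hG hD
  · exact H.PO H.MC H.ZG H.BB H.GR p Γ hG h2 hD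

/-- part T: `J` is `p`-power torsion -/
theorem torsion_de (H : AllT.{u}) (p : ℕ) (hG : Exm p G) (f : G →* Rˣ) (hN : Nrm f) (g : G) :
    ∃ e : ℕ, (p : R) ^ e * de f g = 0 := by
  by_contra h0
  push Not at h0
  obtain ⟨P, hP⟩ := H.ZR R p (de f g) h0
  have h1 := H.T3 p G hG.pgroup hG.prime R f g P hP (H.T1 p G hG.pgroup hG.prime R f hN)
  obtain ⟨Γ, _, π, hπ, hΓ, R', _, f', hR', ht, hv⟩ := H.TQ p G hG.pgroup hG.prime R f g P hP h1
  exact no_dep H p (hG.map π hπ) (H.T4 p hG.prime Γ R' f' ht hv)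

theorem torsion_Jn (p : ℕ) (f : G →* Rˣ) (h : ∀ g, ∃ e : ℕ, (p : R) ^ e * de f g = 0) :
    ∀ x ∈ Jn f, ∃ e : ℕ, (p : R) ^ e * x = 0 := by
  intro x hx
  refine AddSubgroup.closure_induction ?_ ?_ ?_ ?_ hx
  · rintro _ ⟨g, rfl⟩
    exact h g
  · exact ⟨0, by simp⟩
  · rintro x y - - ⟨e, he⟩ ⟨e', he'⟩
    refine ⟨e + e', ?_⟩
    rw [mul_add, pow_add, mul_assoc, mul_assoc, he', mul_zero, add_zero, ← mul_assoc,
      ← pow_add, add_comm, pow_add, mul_assoc, he, mul_zero]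
  · rintro x - ⟨e, he⟩
    exact ⟨e, by rw [mul_neg, he, neg_zero]⟩

/-- the quotient by `p` -/
theorem partT (HP : AllP.{u}) (H : AllT.{u}) (p : ℕ) (hG : Exm p G) (f : G →* Rˣ)
    (hs : Spn f) (hN : Nrm f) : f = 1 := by
  classical
  haveI : Fact p.Prime := ⟨hG.prime⟩
  by_contra hf
  have ht := torsion_Jn p f (torsion_de H p hG f hN)
  obtain ⟨g, hg⟩ := H.TF HP.JI HP.PF p G hG.perfect R f hs ht hf
  -- the ideal `p R`
  let I : Ideal R :=
    { carrier := {x | ∃ c : R, x = (p : R) * c}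
      add_mem' := by
        rintro _ _ ⟨c, rfl⟩ ⟨c', rfl⟩
        exact ⟨c + c', (mul_add _ _ _).symm⟩
      zero_mem' := ⟨0, (mul_zero _).symm⟩
      smul_mem' := by
        rintro r _ ⟨c, rfl⟩
        exact ⟨r * c, by rw [smul_eq_mul, ← mul_assoc, ← mul_assoc, Nat.cast_comm]⟩ }
  have hImem : ∀ x, x ∈ I ↔ ∃ c : R, x = (p : R) * c := fun x => Iff.rfl
  haveI : I.IsTwoSided := ⟨by
    rintro _ b ⟨c, rfl⟩
    exact ⟨c * b, mul_assoc _ _ _⟩⟩
  let π : R →+* R ⧸ I := Ideal.Quotient.mk I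
  let f₁ : G →* (R ⧸ I)ˣ := (Units.map (π : R →* R ⧸ I)).comp f
  have hf₁ : ∀ g, (f₁ g : R ⧸ I) = π (f g) := fun g => rfl
  have hπ : Function.Surjective π := Ideal.Quotient.mk_surjective
  have hs₁ : Spn f₁ := by
    unfold Spn at hs ⊢
    rw [eq_top_iff]
    intro y _
    obtain ⟨x, rfl⟩ := hπ y
    have hx : x ∈ AddSubgroup.closure (Set.range fun g => (f g : R)) := by
      rw [hs]
      exact AddSubgroup.mem_top x
    refine AddSubgroup.closure_induction ?_ ?_ ?_ ?_ hx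
    · rintro _ ⟨g, rfl⟩
      exact AddSubgroup.subset_closure ⟨g, rfl⟩
    · rw [map_zero]
      exact zero_mem _
    · intro x y _ _ h1 h2
      rw [map_add]
      exact add_mem h1 h2
    · intro x _ h1
      rw [map_neg]
      exact neg_mem h1
  have hp₁ : ((p : ℕ) : R ⧸ I) = 0 := by
    have h1 : π (p : R) = 0 := Ideal.Quotient.eq_zero_iff_mem.2 ⟨1, (mul_one _).symm⟩
    rw [map_natCast] at h1
    exact h1
  obtain ⟨hnil, -⟩ := HP.JN HP.ML HP.LN p G hG.pgroup hG.locfin (R ⧸ I) hp₁ f₁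
  have hN₁ : NrmJ f₁ := H.TL p G R (R ⧸ I) π f f₁ hπ
    (fun x hx => (hImem x).1 (Ideal.Quotient.eq_zero_iff_mem.1 hx)) hf₁ ht hnil hN
  have h1 := partP HP p hG hp₁ f₁ hs₁ hN₁
  apply hg
  apply (hImem _).1
  apply Ideal.Quotient.eq_zero_iff_mem.1
  have h2 : f₁ g = 1 := by rw [h1]; rfl
  have h3 : (f₁ g : R ⧸ I) = 1 := by rw [h2]; rfl
  unfold de
  rw [map_sub, map_one]
  change (f₁ g : R ⧸ I) - 1 = 0
  rw [h3, sub_self]

/-- the main theorem from the items -/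
theorem main_of (HP : AllP.{u}) (H : AllT.{u}) (p : ℕ) (hG : Exm p G) (A : Type u) [Ring A]
    (f : G →* Aˣ) (hf : f ≠ 1) :
    ∃ u : Aˣ, (u : A) ∈ Subring.closure (Set.range fun g => (f g : A)) ∧
      IsNilpotent ((u : A) - 1) ∧ ∃ g, u * f g * u⁻¹ ∉ f.range := by
  obtain ⟨R, _, ι, f', hι, hs, hf', hcl⟩ := H.FL G A f
  by_contra hcon
  push Not at hcon
  have hN : Nrm f' := by
    intro u hu g
    obtain ⟨g', hg'⟩ := hcon (Units.map (ι : R →* A) u) (hcl _) (by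
      have h1 : ((Units.map (ι : R →* A) u : Aˣ) : A) - 1 = ι ((u : R) - 1) := by
        rw [map_sub, map_one]
        rfl
      rw [h1]
      exact hu.map ι) g
    refine ⟨g', Units.ext (hι ?_)⟩
    rw [hf', hg']
    simp [hf']
  have h1 := partT HP H p hG f' hs hN
  apply hf
  ext g
  rw [← hf', h1]
  simp

end P

end Pool.Agent.UN
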