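import Pool.Agent.Work.MP_3218de_al.UN.Stmts

set_option autoImplicit false

/-!
# MP_3218de_al, block UN, item SA: the computation in the ring
-/

namespace Pool.Agent.UN

universe u

namespace SA

variable {R : Type u} [Ring R]

theorem zz (vj rj wj m vi ri wi : R) (h : wj * m * vi = 0) :
    (vj * rj * wj) * m * (vi * ri * wi) = 0 := by
  calc (vj * rj * wj) * m * (vi * ri * wi)
      = vj * rj * (wj * m * vi) * (ri * wi) := by simp only [mul_assoc]
    _ = 0 := by rw [h, mul_zero, zero_mul]

theorem one (Hj xj Gj Hi xi Gi : R) (hA : xj * 1 * xi = 0) (hB : xj * Hi * xi = 0)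
    (hC : xj * Gj * xi = 0) (hD : xj * (Gj * Hi) * xi = 0) :
    (Hj * xj * Gj - xj) * (Hi * xi * Gi - xi) = 0 := by
  have e : (Hj * xj * Gj - xj) * (Hi * xi * Gi - xi) =
      Hj * (xj * (Gj * Hi) * xi) * Gi - Hj * (xj * Gj * xi) - (xj * Hi * xi) * Gi +
        xj * 1 * xi := by noncomm_ring
  rw [e, hA, hB, hC, hD]
  simp

theorem two (H x G : R) (hHG : H * G = 1) (hB : x * H * x = 0) :
    (1 - x) * (H * (1 + x) * G) = 1 + (H * x * G - x) := by
  have e : (1 - x) * (H * (1 + x) * G) =
      H * G + H * x * G - x * (H * G) - (x * H * x) * G := by noncomm_ring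
  rw [e, hHG, hB]
  noncomm_ring

theorem three (H G a x : R) (hGH : G * H = 1) (hG : G = 1 + a) :
    H * x * G - x = -(a * H * x * G) + x * a := by
  have h1 : H = 1 - a * H := by
    have h2 : (1 + a) * H = 1 := by rw [← hG]; exact hGH
    rw [add_mul, one_mul] at h2
    exact eq_sub_of_add_eq h2
  calc H * x * G - x = (1 - a * H) * x * G - x := by rw [← h1]
    _ = -(a * H * x * G) + (x * G - x) := by noncomm_ring
    _ = -(a * H * x * G) + x * a := by rw [hG]; noncomm_ring

end SA

theorem pr_SA : StSA.{u} := by
  intro R _ n v w r a g hg h1 h2 h3 h4 h5 h6 z hz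
  have hHG : ∀ i, (((g i)⁻¹ : Rˣ) : R) * (g i : R) = 1 := fun i => Units.inv_mul (g i)
  have hGH : ∀ i, (g i : R) * (((g i)⁻¹ : Rˣ) : R) = 1 := fun i => Units.mul_inv (g i)
  have hA : ∀ i j, i ≤ j → j < n →
      (v j * r j * w j) * 1 * (v i * r i * w i) = 0 := fun i j hij hj =>
    SA.zz _ _ _ _ _ _ _ (by rw [mul_one]; exact h1 i j hij hj)
  have hB : ∀ i j, i ≤ j → j < n →
      (v j * r j * w j) * (((g i)⁻¹ : Rˣ) : R) * (v i * r i * w i) = 0 := fun i j hij hj =>
    SA.zz _ _ _ _ _ _ _ (h2 i j hij hj)
  have hC : ∀ i j, i ≤ j → j < n →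
      (v j * r j * w j) * (g j : R) * (v i * r i * w i) = 0 := fun i j hij hj =>
    SA.zz _ _ _ _ _ _ _ (by
      rw [hg j, mul_add, mul_one, add_mul, h1 i j hij hj, h3 i j hij hj, add_zero])
  have hD : ∀ i j, i ≤ j → j < n →
      (v j * r j * w j) * ((g j : R) * (((g i)⁻¹ : Rˣ) : R)) * (v i * r i * w i) = 0 :=
    fun i j hij hj => SA.zz _ _ _ _ _ _ _ (by
      rw [hg j, ← mul_assoc, mul_add, mul_one, add_mul, add_mul, h2 i j hij hj, h4 i j hij hj,
        add_zero])
  refine ⟨?_, ?_, ?_⟩
  · intro i j hij hj
    rw [hz j, hz i]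
    exact SA.one _ _ _ _ _ _ (hA i j hij hj) (hB i j hij hj) (hC i j hij hj) (hD i j hij hj)
  · intro i hi
    refine ⟨?_, ?_⟩
    · have := hA i i le_rfl hi
      rw [mul_one] at this
      exact this
    · rw [hz i]
      exact SA.two _ _ _ (hHG i) (hB i i le_rfl hi)
  · have hz' : ∀ i, z i = -(a i * (((g i)⁻¹ : Rˣ) : R) * (v i * r i * w i) * (g i : R)) +
        (v i * r i * w i) * a i := fun i => by
      rw [hz i]
      exact SA.three _ _ _ _ (hGH i) (hg i)
    have key : ∀ q, q + 1 ≤ n → ((List.range (q + 1)).map z).prod =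
        ((List.range (q + 1)).map fun i => v i * r i * w i * a i).prod := by
      intro q
      induction q with
      | zero =>
        intro _
        rw [List.range_one, List.map_singleton, List.map_singleton, List.prod_singleton,
          List.prod_singleton, hz' 0]
        have e : a 0 * (((g 0)⁻¹ : Rˣ) : R) * (v 0 * r 0 * w 0) * (g 0 : R) =
            (a 0 * (((g 0)⁻¹ : Rˣ) : R) * v 0) * (r 0 * w 0 * (g 0 : R)) := by
          simp only [mul_assoc]
        rw [e, h5, zero_mul, neg_zero, zero_add]
      | succ q ih =>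
        intro hq
        have ih' := ih (by omega)
        rw [List.range_succ, List.map_append, List.map_append, List.prod_append,
          List.prod_append, List.map_singleton, List.map_singleton, List.prod_singleton,
          List.prod_singleton, ih', hz' (q + 1), mul_add]
        have e : ((List.range (q + 1)).map fun i => v i * r i * w i * a i).prod *
            -(a (q + 1) * (((g (q + 1))⁻¹ : Rˣ) : R) * (v (q + 1) * r (q + 1) * w (q + 1)) *
              (g (q + 1) : R)) = 0 := by
          rw [List.range_succ, List.map_append, List.prod_append, List.map_singleton,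
            List.prod_singleton]
          calc ((List.range q).map fun i => v i * r i * w i * a i).prod *
                (v q * r q * w q * a q) *
                -(a (q + 1) * (((g (q + 1))⁻¹ : Rˣ) : R) * (v (q + 1) * r (q + 1) * w (q + 1)) *
                (g (q + 1) : R))
              = -(((List.range q).map fun i => v i * r i * w i * a i).prod *
                (v q * r q) *
                (w q * a q * a (q + 1) * (((g (q + 1))⁻¹ : Rˣ) : R) * v (q + 1)) *
                (r (q + 1) * w (q + 1) * (g (q + 1) : R))) := by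
                simp only [mul_assoc, mul_neg]
            _ = 0 := by rw [h6 q (by omega), mul_zero, zero_mul, neg_zero]
        rw [e, zero_add]
    rcases n with _ | n
    · simp
    · exact key n le_rfl

end Pool.Agent.UN
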