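import Pool.Agent.Work.MP_3218de_al.UN.Stmts

set_option autoImplicit false

/-!
# MP_3218de_al, block UN, items TF, TL, FL
-/

namespace Pool.Agent.UN

open Pool.Agent.HL3218

universe u

theorem pr_TF : StTF.{u} := by
  intro hJI hPF p G _ hperf R _ f hs ht hf
  by_contra hcon
  push Not at hcon
  apply hf
  have hJ2 : ∀ x ∈ Jn f, x ∈ J2 f := by
    intro x hx
    refine AddSubgroup.closure_induction ?_ ?_ ?_ ?_ hx
    · rintro _ ⟨g, rfl⟩
      exact hPF hJI G hperf R f hs g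
    · exact zero_mem _
    · intro a b _ _ ha hb
      exact add_mem ha hb
    · intro a _ ha
      exact neg_mem ha
  have h1 : ∀ x ∈ Jn f, ∃ r : R, x = (p : R) * r := by
    intro x hx
    refine AddSubgroup.closure_induction ?_ ?_ ?_ ?_ hx
    · rintro _ ⟨g, rfl⟩
      exact hcon g
    · exact ⟨0, (mul_zero _).symm⟩
    · rintro _ _ _ _ ⟨r, rfl⟩ ⟨s, rfl⟩
      exact ⟨r + s, (mul_add _ _ _).symm⟩
    · rintro _ _ ⟨r, rfl⟩
      exact ⟨-r, (mul_neg _ _).symm⟩
  have h2 : ∀ x ∈ Jn f, ∃ j ∈ Jn f, x = (p : R) * j := by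
    intro x hx
    refine AddSubgroup.closure_induction ?_ ?_ ?_ ?_ (hJ2 x hx)
    · rintro _ ⟨y, hy, z, hz, rfl⟩
      obtain ⟨r, rfl⟩ := h1 y hy
      exact ⟨r * z, (hJI G R f hs z hz r).1, mul_assoc _ _ _⟩
    · exact ⟨0, zero_mem _, (mul_zero _).symm⟩
    · rintro _ _ _ _ ⟨r, hr, rfl⟩ ⟨s, hs, rfl⟩
      exact ⟨r + s, add_mem hr hs, (mul_add _ _ _).symm⟩
    · rintro _ _ ⟨r, hr, rfl⟩
      exact ⟨-r, neg_mem hr, (mul_neg _ _).symm⟩
  have h3 : ∀ e : ℕ, ∀ x ∈ Jn f, ∃ j ∈ Jn f, x = (p : R) ^ e * j := by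
    intro e
    induction e with
    | zero => exact fun x hx => ⟨x, hx, by rw [pow_zero, one_mul]⟩
    | succ e ih =>
      intro x hx
      obtain ⟨y, hy, rfl⟩ := ih x hx
      obtain ⟨z, hz, rfl⟩ := h2 y hy
      exact ⟨z, hz, by rw [pow_succ, mul_assoc]⟩
  have h4 : ∀ y ∈ Jn f, ∀ z ∈ Jn f, y * z = 0 := by
    intro y hy z hz
    obtain ⟨e, he⟩ := ht y hy
    obtain ⟨z', -, rfl⟩ := h3 e z hz
    have h5 : y * ((p : R) ^ e * z') = (p : R) ^ e * y * z' := by
      rw [← mul_assoc, ← Nat.cast_pow, Nat.cast_comm]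
    rw [h5, he, zero_mul]
  have h6 : ∀ g, de f g = 0 := by
    intro g
    have h7 : J2 f ≤ ⊥ := by
      unfold J2
      rw [AddSubgroup.closure_le]
      rintro _ ⟨y, hy, z, hz, rfl⟩
      exact AddSubgroup.mem_bot.2 (h4 y hy z hz)
    exact AddSubgroup.mem_bot.1 (h7 (hPF hJI G hperf R f hs g))
  ext g
  have := h6 g
  unfold de at this
  rw [sub_eq_zero] at this
  simpa using this

theorem pr_TL : StTL.{u} := by
  intro p G _ R R₁ _ _ π f f₁ hπ hker hf₁ ht hnil hN u₁ hu₁ g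
  have h1 : ∀ y ∈ Jn f₁, ∃ x ∈ Jn f, π x = y := by
    intro y hy
    refine AddSubgroup.closure_induction ?_ ?_ ?_ ?_ hy
    · rintro _ ⟨h, rfl⟩
      refine ⟨de f h, AddSubgroup.subset_closure ⟨h, rfl⟩, ?_⟩
      unfold de
      rw [map_sub, map_one, hf₁]
    · exact ⟨0, zero_mem _, map_zero π⟩
    · rintro _ _ _ _ ⟨r, hr, rfl⟩ ⟨s, hs, rfl⟩
      exact ⟨r + s, add_mem hr hs, map_add π r s⟩
    · rintro _ _ ⟨r, hr, rfl⟩
      exact ⟨-r, neg_mem hr, map_neg π r⟩
  obtain ⟨x, hx, hxu⟩ := h1 _ hu₁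
  obtain ⟨k, hk⟩ := hnil _ hu₁
  rw [← hxu, ← map_pow] at hk
  obtain ⟨c, hc⟩ := hker _ hk
  obtain ⟨e, he⟩ := ht x hx
  have hxn : IsNilpotent x := by
    refine ⟨k * e + 1, ?_⟩
    have hcomm : Commute ((p : R)) c := Nat.cast_commute p c
    rw [pow_succ, pow_mul, hc, hcomm.mul_pow, (hcomm.pow_pow e e).eq, mul_assoc, he, mul_zero]
  obtain ⟨u, hu⟩ := hxn.isUnit_one_add
  obtain ⟨g', hg'⟩ := hN u (by rw [hu, add_sub_cancel_left]; exact hxn) g
  refine ⟨g', ?_⟩
  have h2 : ∀ g, f₁ g = Units.map (π : R →* R₁) (f g) := fun g => Units.ext (hf₁ g)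
  have h3 : u₁ = Units.map (π : R →* R₁) u := by
    apply Units.ext
    change (u₁ : R₁) = π (u : R)
    rw [hu, map_add, map_one, hxu]
    abel
  rw [h2, h2, h3, hg', map_mul, map_mul, map_inv]

theorem pr_FL : StFL.{u} := by
  intro G _ A _ f
  let Λ : Subring A := Subring.closure (Set.range fun g => (f g : A))
  have hmem : ∀ g, (f g : A) ∈ Λ := fun g => Subring.subset_closure ⟨g, rfl⟩
  let f' : G →* Λˣ :=
    { toFun := fun g => ⟨⟨f g, hmem g⟩, ⟨f g⁻¹, hmem g⁻¹⟩, by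
        apply Subtype.ext
        change (f g : A) * (f g⁻¹ : A) = 1
        rw [map_inv, Units.mul_inv], by
        apply Subtype.ext
        change (f g⁻¹ : A) * (f g : A) = 1
        rw [map_inv, Units.inv_mul]⟩
      map_one' := by
        apply Units.ext
        apply Subtype.ext
        change (f 1 : A) = 1
        rw [map_one, Units.val_one]
      map_mul' := by
        intro a b
        apply Units.ext
        apply Subtype.ext
        change (f (a * b) : A) = (f a : A) * (f b : A)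
        rw [map_mul, Units.val_mul] }
  refine ⟨Λ, inferInstance, Λ.subtype, f', Subtype.val_injective, ?_, fun g => rfl, fun r => r.2⟩
  unfold Spn
  rw [eq_top_iff]
  rintro ⟨x, hx⟩ -
  -- the additive span of `f(G)` in `A` is a subring
  have h1 : ∀ y ∈ AddSubgroup.closure (Set.range fun g => (f g : A)),
      ∃ z ∈ AddSubgroup.closure (Set.range fun g => (f' g : Λ)), (z : A) = y := by
    intro y hy
    refine AddSubgroup.closure_induction ?_ ?_ ?_ ?_ hy
    · rintro _ ⟨g, rfl⟩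
      exact ⟨f' g, AddSubgroup.subset_closure ⟨g, rfl⟩, rfl⟩
    · exact ⟨0, zero_mem _, rfl⟩
    · rintro _ _ _ _ ⟨r, hr, rfl⟩ ⟨s, hs, rfl⟩
      exact ⟨r + s, add_mem hr hs, rfl⟩
    · rintro _ _ ⟨r, hr, rfl⟩
      exact ⟨-r, neg_mem hr, rfl⟩
  have h2 : ∀ y ∈ AddSubgroup.closure (Set.range fun g => (f g : A)),
      ∀ z ∈ AddSubgroup.closure (Set.range fun g => (f g : A)),
      y * z ∈ AddSubgroup.closure (Set.range fun g => (f g : A)) := by
    intro y hy z hz
    refine AddSubgroup.closure_induction ?_ ?_ ?_ ?_ hy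
    · rintro _ ⟨g, rfl⟩
      refine AddSubgroup.closure_induction ?_ ?_ ?_ ?_ hz
      · rintro _ ⟨h, rfl⟩
        exact AddSubgroup.subset_closure ⟨g * h, by simp⟩
      · rw [mul_zero]
        exact zero_mem _
      · intro a b _ _ ha hb
        rw [mul_add]
        exact add_mem ha hb
      · intro a _ ha
        rw [mul_neg]
        exact neg_mem ha
    · rw [zero_mul]
      exact zero_mem _
    · intro a b _ _ ha hb
      rw [add_mul]
      exact add_mem ha hb
    · intro a _ ha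
      rw [neg_mul]
      exact neg_mem ha
  have h3 : x ∈ AddSubgroup.closure (Set.range fun g => (f g : A)) := by
    refine Subring.closure_induction (p := fun y _ =>
      y ∈ AddSubgroup.closure (Set.range fun g => (f g : A))) ?_ ?_ ?_ ?_ ?_ ?_ hx
    · intro y hy
      exact AddSubgroup.subset_closure hy
    · exact zero_mem _
    · exact AddSubgroup.subset_closure ⟨1, by simp⟩
    · intro a b _ _ ha hb
      exact add_mem ha hb
    · intro a _ ha
      exact neg_mem ha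
    · intro a b _ _ ha hb
      exact h2 a ha b hb
  obtain ⟨z, hz, hzx⟩ := h1 x h3
  have h4 : z = ⟨x, hx⟩ := Subtype.ext hzx
  rw [← h4]
  exact hz

end Pool.Agent.UN
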