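import Pool.Agent.Work.MP_3218de_al.UN.Asm

set_option autoImplicit false
set_option linter.style.haveILetI false

/-!
# MP_3218de_al, block UN: subnormal images, part 1 (the ideal generated by an element)
-/

namespace Pool.Agent.UN

open Pool.Agent.HL3218
open scoped commutatorElement

universe u v

/-- the left normed commutator `[u, k₁, ..., k_r]` -/
def cm {H : Type v} [Group H] (u : H) (l : List H) : H :=
  l.foldl (fun x k => x⁻¹ * k⁻¹ * x * k) u

section

variable {R : Type u} [Ring R] {G : Type} [Group G]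

/-- all `r`-fold commutators of the units `u` with `u - 1 ∈ J` with elements of `f(G)` lie in
`f(G)` -/
def NrmJr (f : G →* Rˣ) (r : ℕ) : Prop :=
  ∀ u : Rˣ, (u : R) - 1 ∈ Jn f → ∀ l : List G, l.length = r → ∃ g', f g' = cm u (l.map f)

/-- all `r`-fold commutators of the units `u` with `u - 1` nilpotent with elements of `f(G)` lie in
`f(G)` -/
def Nrmr (f : G →* Rˣ) (r : ℕ) : Prop :=
  ∀ u : Rˣ, IsNilpotent ((u : R) - 1) → ∀ l : List G, l.length = r → ∃ g', f g' = cm u (l.map f)

theorem cm_cons {H : Type v} [Group H] (u k : H) (l : List H) :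
    cm u (k :: l) = cm (u⁻¹ * k⁻¹ * u * k) l := rfl

theorem cm_nil {H : Type v} [Group H] (u : H) : cm u [] = u := rfl

theorem cm_append {H : Type v} [Group H] (u : H) (l l' : List H) :
    cm u (l ++ l') = cm (cm u l) l' := by
  unfold cm
  rw [List.foldl_append]

theorem cm_map {H : Type v} [Group H] {H' : Type*} [Group H'] (φ : H →* H') (l : List H) :
    ∀ u : H, φ (cm u l) = cm (φ u) (l.map φ) := by
  induction l with
  | nil => exact fun u => rfl
  | cons k l ih =>
    intro u
    rw [cm_cons, ih, List.map_cons, cm_cons, map_mul, map_mul, map_mul, map_inv, map_inv]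

/-- commutators of elements of `1 + T` stay in `1 + T` -/
theorem cm_mem (T : Ideal R) [T.IsTwoSided] (l : List Rˣ) :
    ∀ u : Rˣ, (u : R) - 1 ∈ T → ((cm u l : Rˣ) : R) - 1 ∈ T := by
  induction l with
  | nil => exact fun u hu => hu
  | cons k l ih =>
    intro u hu
    rw [cm_cons]
    apply ih
    have h1 : ((u⁻¹ * k⁻¹ * u * k : Rˣ) : R) - 1 =
        (u⁻¹ : Rˣ) * ((k⁻¹ : Rˣ) * (((u : R) - 1) * k - k * ((u : R) - 1))) := by
      have e1 : (1 : R) = (u⁻¹ : Rˣ) * ((k⁻¹ : Rˣ) * ((k : R) * (u : R))) := by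
        rw [← mul_assoc (k⁻¹ : Rˣ).val, Units.inv_mul, one_mul, Units.inv_mul]
      have e2 : ((u⁻¹ * k⁻¹ * u * k : Rˣ) : R) =
          (u⁻¹ : Rˣ) * ((k⁻¹ : Rˣ) * ((u : R) * (k : R))) := by
        rw [Units.val_mul, Units.val_mul, Units.val_mul]
        simp only [mul_assoc]
      rw [e2]
      conv_lhs =>
        rw [e1]
      rw [← mul_sub, ← mul_sub]
      congr 2
      noncomm_ring
    rw [h1]
    exact T.mul_mem_left _ (T.mul_mem_left _
      (sub_mem (T.mul_mem_right _ hu) (T.mul_mem_left _ hu)))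

/-- the two-sided ideal generated by an element -/
def TT (a : R) : Ideal R :=
  { (AddSubgroup.closure {w : R | ∃ y z : R, w = y * a * z}).toAddSubmonoid with
    smul_mem' := by
      intro r x hx
      change r • x ∈ AddSubgroup.closure {w : R | ∃ y z : R, w = y * a * z}
      refine AddSubgroup.closure_induction ?_ ?_ ?_ ?_ hx
      · rintro _ ⟨y, z, rfl⟩
        exact AddSubgroup.subset_closure ⟨r * y, z, by simp only [smul_eq_mul, mul_assoc]⟩
      · rw [smul_zero]
        exact zero_mem _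
      · intro a b _ _ ha hb
        rw [smul_add]
        exact add_mem ha hb
      · intro a _ ha
        rw [smul_neg]
        exact neg_mem ha }

theorem mem_TT (a x : R) :
    x ∈ TT a ↔ x ∈ AddSubgroup.closure {w : R | ∃ y z : R, w = y * a * z} := Iff.rfl

instance TT_two (a : R) : (TT a).IsTwoSided := ⟨by
  intro x r hx
  rw [mem_TT] at hx ⊢
  refine AddSubgroup.closure_induction ?_ ?_ ?_ ?_ hx
  · rintro _ ⟨y, z, rfl⟩
    exact AddSubgroup.subset_closure ⟨y, z * r, by simp only [mul_assoc]⟩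
  · rw [zero_mul]
    exact zero_mem _
  · intro a b _ _ ha hb
    rw [add_mul]
    exact add_mem ha hb
  · intro a _ ha
    rw [neg_mul]
    exact neg_mem ha⟩

theorem self_mem_TT (a : R) : a ∈ TT a :=
  AddSubgroup.subset_closure ⟨1, 1, by rw [one_mul, mul_one]⟩

theorem TT_le_Jn (f : G →* Rˣ) (hs : Spn f) (g : G) : ∀ x ∈ TT (de f g), x ∈ Jn f := by
  intro x hx
  refine AddSubgroup.closure_induction ?_ ?_ ?_ ?_ ((mem_TT _ _).1 hx)
  · rintro _ ⟨y, z, rfl⟩
    exact (pr_JI G R f hs _ (pr_JI G R f hs _ (JI.de_mem f g) y).1 z).2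
  · exact zero_mem _
  · intro a b _ _ ha hb
    exact add_mem ha hb
  · intro a _ ha
    exact neg_mem ha

theorem Jn_le_J2 (hperf : commutator G = ⊤) (f : G →* Rˣ) (hs : Spn f) :
    ∀ x ∈ Jn f, x ∈ J2 f := by
  intro x hx
  refine AddSubgroup.closure_induction ?_ ?_ ?_ ?_ hx
  · rintro _ ⟨g, rfl⟩
    exact pr_PF pr_JI G hperf R f hs g
  · exact zero_mem _
  · intro a b _ _ ha hb
    exact add_mem ha hb
  · intro a _ ha
    exact neg_mem ha

/-- every element of `J` is a sum of products of `M + 1` elements `f(g) - 1` -/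
theorem Jn_pow (hperf : commutator G = ⊤) (f : G →* Rˣ) (hs : Spn f) : ∀ (M : ℕ), ∀ x ∈ Jn f,
    x ∈ AddSubgroup.closure {w : R | ∃ l : List G, l.length = M + 1 ∧ w = (l.map (de f)).prod} := by
  intro M
  induction M with
  | zero =>
    intro x hx
    refine AddSubgroup.closure_mono ?_ hx
    rintro _ ⟨g, rfl⟩
    exact ⟨[g], rfl, by simp⟩
  | succ M ih =>
    intro x hx
    refine AddSubgroup.closure_induction ?_ ?_ ?_ ?_ (Jn_le_J2 hperf f hs x hx)
    · rintro _ ⟨y, hy, z, hz, rfl⟩
      refine AddSubgroup.closure_induction ?_ ?_ ?_ ?_ hy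
      · rintro _ ⟨g, rfl⟩
        refine AddSubgroup.closure_induction ?_ ?_ ?_ ?_ (ih z hz)
        · rintro _ ⟨l, hl, rfl⟩
          exact AddSubgroup.subset_closure ⟨g :: l, by simp [hl], by simp⟩
        · rw [mul_zero]
          exact zero_mem _
        · intro a b _ _ ha hb
          rw [mul_add]
          exact add_mem ha hb
        · intro a _ ha
          rw [mul_neg]
          exact neg_mem ha
      · rw [zero_mul]
        exact zero_mem _
      · intro a b _ _ ha hb
        rw [add_mul]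
        exact add_mem ha hb
      · intro a _ ha
        rw [neg_mul]
        exact neg_mem ha
    · exact zero_mem _
    · intro a b _ _ ha hb
      exact add_mem ha hb
    · intro a _ ha
      exact neg_mem ha

/-- the additive span of the elements `y a z` with `y`, `z` in `S` -/
def SaS (S : AddSubgroup R) (a : R) : AddSubgroup R :=
  AddSubgroup.closure {w : R | ∃ y ∈ S, ∃ z ∈ S, w = y * a * z}

theorem mul_SaS (f : G →* Rˣ) (hs : Spn f) (a : R) :
    ∀ x ∈ TT a, ∀ y ∈ Jn f, ∀ z ∈ Jn f, y * x * z ∈ SaS (Jn f) a := by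
  intro x hx y hy z hz
  refine AddSubgroup.closure_induction ?_ ?_ ?_ ?_ ((mem_TT _ _).1 hx)
  · rintro _ ⟨y', z', rfl⟩
    refine AddSubgroup.subset_closure ⟨y * y', (pr_JI G R f hs y hy y').2, z' * z,
      (pr_JI G R f hs z hz z').1, ?_⟩
    simp only [mul_assoc]
  · rw [mul_zero, zero_mul]
    exact zero_mem _
  · intro a b _ _ ha hb
    rw [mul_add, add_mul]
    exact add_mem ha hb
  · intro a _ ha
    rw [mul_neg, neg_mul]
    exact neg_mem ha

/-- if `J` is contained in the ideal generated by `a`, then `J ⊆ J a J` -/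
theorem Jn_le_SaS (hperf : commutator G = ⊤) (f : G →* Rˣ) (hs : Spn f) (a : R)
    (h : ∀ x ∈ Jn f, x ∈ TT a) : ∀ x ∈ Jn f, x ∈ SaS (Jn f) a := by
  intro x hx
  refine AddSubgroup.closure_induction ?_ ?_ ?_ ?_ (Jn_le_J2 hperf f hs x hx)
  · rintro _ ⟨y, hy, z, hz, rfl⟩
    -- write `z` as a sum of products
    refine AddSubgroup.closure_induction ?_ ?_ ?_ ?_ (Jn_le_J2 hperf f hs z hz)
    · rintro _ ⟨z₁, hz₁, z₂, hz₂, rfl⟩
      rw [← mul_assoc]
      exact mul_SaS f hs a z₁ (h z₁ hz₁) y hy z₂ hz₂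
    · rw [mul_zero]
      exact zero_mem _
    · intro a b _ _ ha hb
      rw [mul_add]
      exact add_mem ha hb
    · intro a _ ha
      rw [mul_neg]
      exact neg_mem ha
  · exact zero_mem _
  · intro a b _ _ ha hb
    exact add_mem ha hb
  · intro a _ ha
    exact neg_mem ha

theorem SaS_finite [DecidableEq G] (f : G →* Rˣ) (a x : R) (hx : x ∈ SaS (Jn f) a) :
    ∃ X : Finset G, x ∈ SaS (AddSubgroup.closure (de f '' (X : Set G))) a := by
  have mono : ∀ {S S' : AddSubgroup R}, S ≤ S' → SaS S a ≤ SaS S' a := by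
    intro S S' h
    refine AddSubgroup.closure_mono ?_
    rintro _ ⟨y, hy, z, hz, rfl⟩
    exact ⟨y, h hy, z, h hz, rfl⟩
  have fin1 : ∀ y ∈ Jn f, ∃ X : Finset G, y ∈ AddSubgroup.closure (de f '' (X : Set G)) := by
    intro y hy
    refine AddSubgroup.closure_induction ?_ ?_ ?_ ?_ hy
    · rintro _ ⟨g, rfl⟩
      exact ⟨{g}, AddSubgroup.subset_closure ⟨g, by simp, rfl⟩⟩
    · exact ⟨∅, zero_mem _⟩
    · rintro a b _ _ ⟨X, hX⟩ ⟨Y, hY⟩
      refine ⟨X ∪ Y, add_mem ?_ ?_⟩
      · exact AddSubgroup.closure_mono (Set.image_mono (by simp)) hX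
      · exact AddSubgroup.closure_mono (Set.image_mono (by simp)) hY
    · rintro a _ ⟨X, hX⟩
      exact ⟨X, neg_mem hX⟩
  refine AddSubgroup.closure_induction ?_ ?_ ?_ ?_ hx
  · rintro _ ⟨y, hy, z, hz, rfl⟩
    obtain ⟨X, hX⟩ := fin1 y hy
    obtain ⟨Y, hY⟩ := fin1 z hz
    refine ⟨X ∪ Y, AddSubgroup.subset_closure ⟨y, ?_, z, ?_, rfl⟩⟩
    · exact AddSubgroup.closure_mono (Set.image_mono (by simp)) hX
    · exact AddSubgroup.closure_mono (Set.image_mono (by simp)) hY
  · exact ⟨∅, zero_mem _⟩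
  · rintro a b _ _ ⟨X, hX⟩ ⟨Y, hY⟩
    refine ⟨X ∪ Y, add_mem ?_ ?_⟩
    · exact mono (AddSubgroup.closure_mono (Set.image_mono (by simp))) hX
    · exact mono (AddSubgroup.closure_mono (Set.image_mono (by simp))) hY
  · rintro a _ ⟨X, hX⟩
    exact ⟨X, neg_mem hX⟩

/-- if `a ∈ S a S` and products of `m` elements of `S` vanish, then `a = 0` -/
theorem eq_zero_of_SaS (S : AddSubgroup R) (a : R) (h : a ∈ SaS S a) (m : ℕ)
    (hm : ∀ l : List R, l.length = m → (∀ x ∈ l, x ∈ S) → l.prod = 0) : a = 0 := by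
  have key : ∀ n : ℕ, a ∈ AddSubgroup.closure {w : R | ∃ l : List R, ∃ z : R, l.length = n ∧
      (∀ x ∈ l, x ∈ S) ∧ w = l.prod * a * z} := by
    intro n
    induction n with
    | zero => exact AddSubgroup.subset_closure ⟨[], 1, rfl, by simp, by simp⟩
    | succ n ih =>
      have h1 : ∀ w ∈ AddSubgroup.closure {w : R | ∃ l : List R, ∃ z : R, l.length = n ∧
          (∀ x ∈ l, x ∈ S) ∧ w = l.prod * a * z},
          w ∈ AddSubgroup.closure {w : R | ∃ l : List R, ∃ z : R, l.length = n + 1 ∧
          (∀ x ∈ l, x ∈ S) ∧ w = l.prod * a * z} := by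
        intro w hw
        refine AddSubgroup.closure_induction ?_ ?_ ?_ ?_ hw
        · rintro _ ⟨l, z, hl, hlS, rfl⟩
          have h2 : ∀ b ∈ SaS S a, l.prod * b * z ∈
              AddSubgroup.closure {w : R | ∃ l : List R, ∃ z : R, l.length = n + 1 ∧
              (∀ x ∈ l, x ∈ S) ∧ w = l.prod * a * z} := by
            intro b hb
            refine AddSubgroup.closure_induction ?_ ?_ ?_ ?_ hb
            · rintro _ ⟨y, hy, z', hz', rfl⟩
              refine AddSubgroup.subset_closure ⟨l ++ [y], z' * z, by simp [hl], ?_, ?_⟩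
              · intro x hx
                rcases List.mem_append.1 hx with hx | hx
                · exact hlS x hx
                · rw [List.mem_singleton.1 hx]
                  exact hy
              · rw [List.prod_append, List.prod_singleton]
                simp only [mul_assoc]
            · rw [mul_zero, zero_mul]
              exact zero_mem _
            · intro c d _ _ hc hd
              rw [mul_add, add_mul]
              exact add_mem hc hd
            · intro c _ hc
              rw [mul_neg, neg_mul]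
              exact neg_mem hc
          exact h2 a h
        · exact zero_mem _
        · intro c d _ _ hc hd
          exact add_mem hc hd
        · intro c _ hc
          exact neg_mem hc
      exact h1 a ih
  have h3 : AddSubgroup.closure {w : R | ∃ l : List R, ∃ z : R, l.length = m ∧
      (∀ x ∈ l, x ∈ S) ∧ w = l.prod * a * z} ≤ ⊥ := by
    rw [AddSubgroup.closure_le]
    rintro _ ⟨l, z, hl, hlS, rfl⟩
    rw [hm l hl hlS, zero_mul, zero_mul]
    exact zero_mem _
  exact AddSubgroup.mem_bot.1 (h3 (key m))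

/-- in characteristic `p` the ideal generated by `f(g) - 1 ≠ 0` does not contain `J` -/
theorem TT_proper {p : ℕ} (hG : Exm p G) (hp : (p : R) = 0) (f : G →* Rˣ) (hs : Spn f) (g : G)
    (hg : de f g ≠ 0) : ∃ h, de f h ∉ TT (de f g) := by
  classical
  haveI : Fact p.Prime := ⟨hG.prime⟩
  by_contra hcon
  push Not at hcon
  apply hg
  obtain ⟨-, hvan⟩ := pr_JN pr_ML pr_LN p G hG.pgroup hG.locfin R hp f
  have h1 : ∀ x ∈ Jn f, x ∈ TT (de f g) := by
    intro x hx
    refine AddSubgroup.closure_induction ?_ ?_ ?_ ?_ hx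
    · rintro _ ⟨h, rfl⟩
      exact hcon h
    · exact zero_mem _
    · intro a b _ _ ha hb
      exact add_mem ha hb
    · intro a _ ha
      exact neg_mem ha
  obtain ⟨X, hX⟩ := SaS_finite f (de f g) _
    (Jn_le_SaS hG.perfect f hs (de f g) h1 _ (JI.de_mem f g))
  obtain ⟨m, hm⟩ := hvan X
  refine eq_zero_of_SaS _ _ hX m ?_
  intro l hl hlX
  have h2 := pr_ML R (de f '' (X : Set G)) ⊥ m (fun l hl hlx => by
    rw [AddSubgroup.mem_bot]
    exact hm l hl.ge hlx) l hl hlX
  exact AddSubgroup.mem_bot.1 h2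

end

end Pool.Agent.UN
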