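import Pool.Agent.Work.MP_3218de_al.UN.S1

set_option autoImplicit false
set_option linter.style.haveILetI false

/-!
# MP_3218de_al, block UN: subnormal images, part 2 (the main computation)
-/

namespace Pool.Agent.UN

open Pool.Agent.HL3218
open scoped commutatorElement

universe u v

section

variable {R : Type u} [Ring R] {G : Type} [Group G]

/-- the product of the elements `f(g) - 1`, `g` in the list -/
def wd (f : G →* Rˣ) (l : List G) : R := (l.map (de f)).prod

theorem wd_append (f : G →* Rˣ) (l l' : List G) : wd f (l ++ l') = wd f l * wd f l' := by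
  unfold wd
  rw [List.map_append, List.prod_append]

theorem wd_nil (f : G →* Rˣ) : wd f [] = 1 := rfl

theorem wd_cons (f : G →* Rˣ) (g : G) (l : List G) : wd f (g :: l) = de f g * wd f l := by
  unfold wd
  rw [List.map_cons, List.prod_cons]

/-- between two elements of `T` the words of length at least `m` in `F` vanish -/
def VanT (f : G →* Rˣ) (F : Subgroup G) (T : Ideal R) (m : ℕ) : Prop :=
  ∀ t ∈ T, ∀ t' ∈ T, ∀ l : List G, m ≤ l.length → (∀ x ∈ l, x ∈ F) → t * wd f l * t' = 0

/-- the span of the elements `w t w'` with `t ∈ T` and words `w`, `w'` of lengths at least `α`,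
`β` -/
def XX (f : G →* Rˣ) (F : Subgroup G) (T : Ideal R) (α β : ℕ) : AddSubgroup R :=
  AddSubgroup.closure {y : R | ∃ l l' : List G, ∃ t ∈ T, α ≤ l.length ∧ β ≤ l'.length ∧
    (∀ x ∈ l, x ∈ F) ∧ (∀ x ∈ l', x ∈ F) ∧ y = wd f l * t * wd f l'}

variable {f : G →* Rˣ} {F : Subgroup G} {T : Ideal R}

theorem XX_mono {α β α' β' : ℕ} (h1 : α ≤ α') (h2 : β ≤ β') {x : R} (hx : x ∈ XX f F T α' β') :
    x ∈ XX f F T α β := by
  refine AddSubgroup.closure_mono ?_ hx
  rintro _ ⟨l, l', t, ht, hl, hl', hlF, hlF', rfl⟩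
  exact ⟨l, l', t, ht, h1.trans hl, h2.trans hl', hlF, hlF', rfl⟩

theorem XX_mem (l l' : List G) (t : R) (ht : t ∈ T) (hl : ∀ x ∈ l, x ∈ F)
    (hl' : ∀ x ∈ l', x ∈ F) : wd f l * t * wd f l' ∈ XX f F T l.length l'.length :=
  AddSubgroup.subset_closure ⟨l, l', t, ht, le_rfl, le_rfl, hl, hl', rfl⟩

theorem XX_mul_zero {m : ℕ} (hv : VanT f F T m) {α β α' β' : ℕ} (h : m ≤ β + α') {x y : R}
    (hx : x ∈ XX f F T α β) (hy : y ∈ XX f F T α' β') : x * y = 0 := by
  have h1 : ∀ x ∈ XX f F T α β, ∀ y ∈ XX f F T α' β', x * y ∈ (⊥ : AddSubgroup R) := by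
    intro x hx y hy
    refine AddSubgroup.closure_induction ?_ ?_ ?_ ?_ hx
    · rintro _ ⟨l₁, l₁', t₁, ht₁, hl₁, hl₁', hF₁, hF₁', rfl⟩
      refine AddSubgroup.closure_induction ?_ ?_ ?_ ?_ hy
      · rintro _ ⟨l₂, l₂', t₂, ht₂, hl₂, hl₂', hF₂, hF₂', rfl⟩
        have h2 := hv t₁ ht₁ t₂ ht₂ (l₁' ++ l₂) (by rw [List.length_append]; omega) (by
          intro x hx
          rcases List.mem_append.1 hx with hx | hx
          · exact hF₁' x hx
          · exact hF₂ x hx)
        rw [AddSubgroup.mem_bot]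
        have h3 : wd f l₁ * t₁ * wd f l₁' * (wd f l₂ * t₂ * wd f l₂') =
            wd f l₁ * (t₁ * wd f (l₁' ++ l₂) * t₂) * wd f l₂' := by
          rw [wd_append]
          simp only [mul_assoc]
        rw [h3, h2, mul_zero, zero_mul]
      · rw [mul_zero]
        exact zero_mem _
      · intro a b _ _ ha hb
        rw [mul_add]
        exact add_mem ha hb
      · intro a _ ha
        rw [mul_neg]
        exact neg_mem ha
    · rw [zero_mul]
      exact zero_mem _
    · intro a b _ _ ha hb
      rw [add_mul]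
      exact add_mem ha hb
    · intro a _ ha
      rw [neg_mul]
      exact neg_mem ha
  exact AddSubgroup.mem_bot.1 (h1 x hx y hy)

theorem mul_XX_zero {m : ℕ} (hv : VanT f F T m) {α β : ℕ} (h : m ≤ α) {t x : R} (ht : t ∈ T)
    (hx : x ∈ XX f F T α β) : t * x = 0 := by
  have h1 : t ∈ XX f F T 0 0 :=
    AddSubgroup.subset_closure ⟨[], [], t, ht, le_rfl, le_rfl, by simp, by simp, by
      rw [wd_nil, one_mul, mul_one]⟩
  exact XX_mul_zero hv (by omega) h1 hx

theorem XX_left {α β : ℕ} {x : R} (hx : x ∈ XX f F T α β) {g : G} (hg : g ∈ F) :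
    de f g * x ∈ XX f F T (α + 1) β := by
  refine AddSubgroup.closure_induction ?_ ?_ ?_ ?_ hx
  · rintro _ ⟨l, l', t, ht, hl, hl', hlF, hlF', rfl⟩
    refine AddSubgroup.subset_closure ⟨g :: l, l', t, ht, by simp [hl], hl', ?_, hlF', ?_⟩
    · intro x hx
      rcases List.mem_cons.1 hx with rfl | hx
      · exact hg
      · exact hlF x hx
    · rw [wd_cons]
      simp only [mul_assoc]
  · rw [mul_zero]
    exact zero_mem _
  · intro a b _ _ ha hb
    rw [mul_add]
    exact add_mem ha hb
  · intro a _ ha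
    rw [mul_neg]
    exact neg_mem ha

theorem XX_right {α β : ℕ} {x : R} (hx : x ∈ XX f F T α β) {g : G} (hg : g ∈ F) :
    x * de f g ∈ XX f F T α (β + 1) := by
  refine AddSubgroup.closure_induction ?_ ?_ ?_ ?_ hx
  · rintro _ ⟨l, l', t, ht, hl, hl', hlF, hlF', rfl⟩
    refine AddSubgroup.subset_closure ⟨l, l' ++ [g], t, ht, hl, by simp [hl'], hlF, ?_, ?_⟩
    · intro x hx
      rcases List.mem_append.1 hx with hx | hx
      · exact hlF' x hx
      · rw [List.mem_singleton.1 hx]
        exact hg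
    · rw [wd_append]
      simp [wd, mul_assoc]
  · rw [zero_mul]
    exact zero_mem _
  · intro a b _ _ ha hb
    rw [add_mul]
    exact add_mem ha hb
  · intro a _ ha
    rw [neg_mul]
    exact neg_mem ha

theorem XX_right_wd {α : ℕ} (l : List G) (hl : ∀ x ∈ l, x ∈ F) : ∀ (β : ℕ) (x : R),
    x ∈ XX f F T α β → x * wd f l ∈ XX f F T α (β + l.length) := by
  induction l with
  | nil =>
    intro β x hx
    rw [wd_nil, mul_one]
    exact hx
  | cons g l ih =>
    intro β x hx
    rw [wd_cons, ← mul_assoc]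
    have h1 := ih (fun y hy => hl y (List.mem_cons_of_mem _ hy)) (β + 1) _
      (XX_right hx (hl g List.mem_cons_self))
    refine XX_mono le_rfl ?_ h1
    rw [List.length_cons]
    omega

theorem XX_fl {α β : ℕ} {x : R} (hx : x ∈ XX f F T α β) {g : G} (hg : g ∈ F) :
    (f g : R) * x ∈ XX f F T α β := by
  have h1 : (f g : R) * x = x + de f g * x := by
    unfold de
    noncomm_ring
  rw [h1]
  exact add_mem hx (XX_mono (Nat.le_succ α) le_rfl (XX_left hx hg))

theorem XX_fr {α β : ℕ} {x : R} (hx : x ∈ XX f F T α β) {g : G} (hg : g ∈ F) :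
    x * (f g : R) ∈ XX f F T α β := by
  have h1 : x * (f g : R) = x + x * de f g := by
    unfold de
    noncomm_ring
  rw [h1]
  exact add_mem hx (XX_mono le_rfl (Nat.le_succ β) (XX_right hx hg))

/-- one commutator -/
theorem comm_step {m : ℕ} (hv : VanT f F T m) {α β : ℕ} (h : m ≤ β + α) {x : R}
    (hx : x ∈ XX f F T α β) {u : Rˣ} (hu : (u : R) = 1 + x) {g : G} (hg : g ∈ F) :
    ∃ y : R, ((u⁻¹ * (f g)⁻¹ * u * f g : Rˣ) : R) = 1 + y ∧ y ∈ XX f F T α β ∧
      y - x * de f g ∈ XX f F T (α + 1) β := by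
  have hxx : x * x = 0 := XX_mul_zero hv h hx hx
  have hui : ((u⁻¹ : Rˣ) : R) = 1 - x := by
    apply Units.inv_eq_of_mul_eq_one_right
    rw [hu]
    have h3 : (1 + x) * (1 - x) = 1 - x * x := by noncomm_ring
    rw [h3, hxx, sub_zero]
  have hgi : g⁻¹ ∈ F := inv_mem hg
  have hfi : (((f g)⁻¹ : Rˣ) : R) = (f g⁻¹ : R) := by rw [map_inv]
  have hc : (f g⁻¹ : R) * x * (f g : R) ∈ XX f F T α β := XX_fr (XX_fl hx hgi) hg
  have hxc : x * ((f g⁻¹ : R) * x * (f g : R)) = 0 := XX_mul_zero hv h hx hc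
  have hff : (f g⁻¹ : R) * (f g : R) = 1 := by rw [← hfi, Units.inv_mul]
  refine ⟨(f g⁻¹ : R) * x * (f g : R) - x, ?_, sub_mem hc hx, ?_⟩
  · rw [Units.val_mul, Units.val_mul, Units.val_mul, hui, hfi, hu]
    have h3 : (1 - x) * (f g⁻¹ : R) * (1 + x) * (f g : R) =
        (f g⁻¹ : R) * (f g : R) - x * ((f g⁻¹ : R) * (f g : R)) +
          (f g⁻¹ : R) * x * (f g : R) - x * ((f g⁻¹ : R) * x * (f g : R)) := by noncomm_ring
    rw [h3, hff, hxc]
    noncomm_ring
  · have h4 : (f g⁻¹ : R) * x * (f g : R) - x - x * de f g = de f g⁻¹ * (x * (f g : R)) := by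
      unfold de
      noncomm_ring
    rw [h4]
    exact XX_left (XX_fr hx hg) hgi

/-- iterated commutators -/
theorem comm_iter {m : ℕ} (hv : VanT f F T m) {α β : ℕ} (h : m ≤ β + α) (l : List G)
    (hl : ∀ x ∈ l, x ∈ F) : ∀ (x : R) (u : Rˣ), x ∈ XX f F T α β → (u : R) = 1 + x →
    ∃ z : R, ((cm u (l.map f) : Rˣ) : R) = 1 + z ∧ z ∈ XX f F T α β ∧
      z - x * wd f l ∈ XX f F T (α + 1) β := by
  induction l with
  | nil =>
    intro x u hx hu
    refine ⟨x, hu, hx, ?_⟩
    rw [wd_nil, mul_one, sub_self]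
    exact zero_mem _
  | cons g l ih =>
    intro x u hx hu
    obtain ⟨y, hy1, hy2, hy3⟩ := comm_step hv h hx hu (hl g List.mem_cons_self)
    have hl' : ∀ x ∈ l, x ∈ F := fun y hy => hl y (List.mem_cons_of_mem _ hy)
    obtain ⟨z, hz1, hz2, hz3⟩ := ih hl' y _ hy2 hy1
    refine ⟨z, ?_, hz2, ?_⟩
    · rw [List.map_cons, cm_cons]
      exact hz1
    · have h1 : z - x * wd f (g :: l) = (z - y * wd f l) + (y - x * de f g) * wd f l := by
        rw [wd_cons]
        noncomm_ring
      rw [h1]
      exact add_mem hz3 (XX_mono le_rfl (Nat.le_add_right _ _) (XX_right_wd l hl' β _ hy3))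

/-- the chain of products -/
theorem chain {m r n : ℕ} (hv : VanT f F T m) (x z w : ℕ → R) (α β : ℕ → ℕ)
    (hz : ∀ i, i < n → z i - x i * w i ∈ XX f F T (α i + 1) (β i))
    (hw : ∀ i, i < n → x i * w i ∈ XX f F T (α i) (β i + r))
    (h1 : ∀ i, i + 1 < n → m ≤ β i + r + (α (i + 1) + 1)) (h0 : m ≤ α 0 + 1) (t : R)
    (ht : t ∈ T) : ∀ q, q ≤ n → t * ((List.range q).map z).prod =
      t * ((List.range q).map fun i => x i * w i).prod := by
  intro q
  induction q with
  | zero => intro _; simp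
  | succ q ih =>
    intro hq
    rw [List.range_succ, List.map_append, List.prod_append, List.map_append, List.prod_append]
    simp only [List.map_cons, List.map_nil, List.prod_cons, List.prod_nil, mul_one]
    rw [← mul_assoc, ih (by omega), mul_assoc]
    have h2 : z q = x q * w q + (z q - x q * w q) := by abel
    conv_lhs => rw [h2]
    rw [mul_add, mul_add]
    have h3 : t * (((List.range q).map fun i => x i * w i).prod * (z q - x q * w q)) = 0 := by
      rcases q with _ | q
      · rw [List.range_zero, List.map_nil, List.prod_nil, one_mul]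
        exact mul_XX_zero hv h0 ht (hz 0 (by omega))
      · rw [List.range_succ, List.map_append, List.prod_append]
        simp only [List.map_cons, List.map_nil, List.prod_cons, List.prod_nil, mul_one]
        rw [mul_assoc, XX_mul_zero hv (h1 q (by omega)) (hw q (by omega)) (hz (q + 1) (by omega)),
          mul_zero, mul_zero]
    rw [h3, add_zero]

/-- the hypothesis on `T`: the elements `1 + x`, `x ∈ T`, are units whose `r`-fold commutators
with elements of `f(G)` lie in `f(E)` -/
def HT (f : G →* Rˣ) (E : Subgroup G) (T : Ideal R) (r : ℕ) : Prop :=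
  ∀ x ∈ T, ∃ u : Rˣ, (u : R) = 1 + x ∧
    ∀ l : List G, l.length = r → ∃ k ∈ E, f k = cm u (l.map f)

/-- the main computation -/
theorem main_words {E : Subgroup G} [T.IsTwoSided] {r d m : ℕ} (hT : HT f E T r)
    (hE : Dn d E = ⊥)
    (hv : VanT f F T m) (hm : (r + 1) * 2 ^ d + 1 ≤ m) (L : ℕ → List G)
    (hL : ∀ i, (L i).length + 1 = m) (hLF : ∀ i, ∀ x ∈ L i, x ∈ F) (ρ : ℕ → R)
    (hρ : ∀ i, ρ i ∈ T) (t : R) (ht : t ∈ T) :
    t * ((List.range (2 ^ d)).map fun i => wd f (L i) * ρ i).prod * wd f (L (2 ^ d)) = 0 := by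
  classical
  set n := 2 ^ d with hn
  have hn1 : 1 ≤ n := Nat.one_le_two_pow
  let v : ℕ → List G := fun i => (L i).drop ((r + 1) * i)
  let w : ℕ → List G := fun i => ((L (i + 1)).drop (1 + (r + 1) * i)).take r
  let s : ℕ → List G := fun i => (L (i + 1)).take (1 + (r + 1) * i)
  have hvF : ∀ i, ∀ x ∈ v i, x ∈ F := fun i x hx => hLF i x (List.mem_of_mem_drop hx)
  have hwF : ∀ i, ∀ x ∈ w i, x ∈ F := fun i x hx =>
    hLF (i + 1) x (List.mem_of_mem_drop (List.mem_of_mem_take hx))
  have hsF : ∀ i, ∀ x ∈ s i, x ∈ F := fun i x hx => hLF (i + 1) x (List.mem_of_mem_take hx)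
  have hmul : ∀ i, i < n → (r + 1) * (i + 1) ≤ (r + 1) * n := fun i hi =>
    Nat.mul_le_mul_left _ hi
  have hmul2 : ∀ i, (r + 1) * (i + 1) = (r + 1) * i + (r + 1) := fun i => by ring
  have hvl : ∀ i, i ≤ n → (v i).length + (r + 1) * i + 1 = m := by
    intro i hi
    have h1 := hL i
    have h2 : (r + 1) * i ≤ (r + 1) * n := Nat.mul_le_mul_left _ hi
    change ((L i).drop ((r + 1) * i)).length + (r + 1) * i + 1 = m
    rw [List.length_drop]
    omega
  have hsl : ∀ i, i < n → (s i).length = 1 + (r + 1) * i := by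
    intro i hi
    have h1 := hL (i + 1)
    have h2 := hmul i hi
    have h3 := hmul2 i
    change ((L (i + 1)).take (1 + (r + 1) * i)).length = _
    rw [List.length_take]
    omega
  have hwl : ∀ i, i < n → (w i).length = r := by
    intro i hi
    have h1 := hL (i + 1)
    have h2 := hmul i hi
    have h3 := hmul2 i
    change (((L (i + 1)).drop (1 + (r + 1) * i)).take r).length = _
    rw [List.length_take, List.length_drop]
    omega
  have hcut : ∀ i, wd f (L (i + 1)) = wd f (s i) * wd f (w i) * wd f (v (i + 1)) := by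
    intro i
    have h1 : L (i + 1) = s i ++ (w i ++ v (i + 1)) := by
      have e1 : v (i + 1) = ((L (i + 1)).drop (1 + (r + 1) * i)).drop r := by
        rw [List.drop_drop]
        change (L (i + 1)).drop ((r + 1) * (i + 1)) = _
        congr 1
        rw [hmul2]
        omega
      rw [e1]
      change L (i + 1) = (L (i + 1)).take (1 + (r + 1) * i) ++
        (((L (i + 1)).drop (1 + (r + 1) * i)).take r ++
          ((L (i + 1)).drop (1 + (r + 1) * i)).drop r)
      rw [List.take_append_drop, List.take_append_drop]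
    conv_lhs => rw [h1]
    rw [wd_append, wd_append, mul_assoc]
  let x : ℕ → R := fun i => wd f (v i) * ρ i * wd f (s i)
  let α : ℕ → ℕ := fun i => m - 1 - (r + 1) * i
  let β : ℕ → ℕ := fun i => 1 + (r + 1) * i
  have hα : ∀ i, i ≤ n → α i + (r + 1) * i + 1 = m := by
    intro i hi
    have h1 := hvl i hi
    change m - 1 - (r + 1) * i + (r + 1) * i + 1 = m
    omega
  have hxX : ∀ i, i < n → x i ∈ XX f F T (α i) (β i) := by
    intro i hi
    have h1 := XX_mem (v i) (s i) (ρ i) (hρ i) (hvF i) (hsF i) (f := f)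
    refine XX_mono ?_ ?_ h1
    · have h2 := hvl i hi.le
      have h3 := hα i hi.le
      omega
    · rw [hsl i hi]
  have hxT : ∀ i, x i ∈ T := fun i => T.mul_mem_right _ (T.mul_mem_left _ (hρ i))
  have hba : ∀ i j, i ≤ j → j < n → m ≤ β j + α i := by
    intro i j hij hj
    have h1 := hα i (by omega)
    have h2 : (r + 1) * i ≤ (r + 1) * j := Nat.mul_le_mul_left _ hij
    change m ≤ 1 + (r + 1) * j + α i
    omega
  have hz : ∀ i, ∃ z : R, i < n → (∃ k ∈ E, (f k : R) = 1 + z) ∧ z ∈ XX f F T (α i) (β i) ∧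
      z - x i * wd f (w i) ∈ XX f F T (α i + 1) (β i) := by
    intro i
    by_cases hi : i < n
    · obtain ⟨u, hu, hul⟩ := hT (x i) (hxT i)
      obtain ⟨z, hz1, hz2, hz3⟩ := comm_iter hv (hba i i le_rfl hi) (w i) (hwF i) (x i) u
        (hxX i hi) hu
      obtain ⟨k, hk, hfk⟩ := hul (w i) (hwl i hi)
      exact ⟨z, fun _ => ⟨⟨k, hk, by rw [hfk, hz1]⟩, hz2, hz3⟩⟩
    · exact ⟨0, fun h => absurd h hi⟩
  choose z hz using hz
  obtain ⟨k0, hk0, hfk0⟩ := pr_LW G R f E d z (fun i hi => (hz i hi).1) (by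
    intro i j hij hj
    exact XX_mul_zero hv (hba i j hij hj) (hz j hj).2.1 (hz i (by omega)).2.1)
  have hk1 : k0 = 1 := by
    rw [hE] at hk0
    exact Subgroup.mem_bot.1 hk0
  rw [hk1, map_one, Units.val_one] at hfk0
  have hprod : ((List.range n).map z).prod = 0 := left_eq_add.1 hfk0
  have hch := chain (r := r) hv x z (fun i => wd f (w i)) α β (fun i hi => (hz i hi).2.2) (by
      intro i hi
      have h1 := XX_right_wd (w i) (hwF i) (β i) (x i) (hxX i hi)
      rw [hwl i hi] at h1
      exact h1) (by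
      intro i hi
      have h1 := hα (i + 1) (by omega)
      have h2 := hmul2 i
      change m ≤ 1 + (r + 1) * i + r + (α (i + 1) + 1)
      omega) (by
      have h1 := hα 0 (by omega)
      omega) t ht n le_rfl
  rw [hprod, mul_zero] at hch
  have hind : ∀ q, q ≤ n →
      ((List.range q).map fun i => x i * wd f (w i)).prod * wd f (v q)
        = ((List.range q).map fun i => wd f (L i) * ρ i).prod * wd f (L q) := by
    intro q
    induction q with
    | zero =>
      intro _
      have h1 : v 0 = L 0 := by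
        change (L 0).drop ((r + 1) * 0) = L 0
        rw [mul_zero, List.drop_zero]
      rw [h1]
      simp
    | succ q ih =>
      intro hq
      rw [List.range_succ, List.map_append, List.prod_append, List.map_append, List.prod_append]
      simp only [List.map_cons, List.map_nil, List.prod_cons, List.prod_nil, mul_one]
      have h1 := ih (by omega)
      have h2 := hcut q
      calc ((List.range q).map fun i => x i * wd f (w i)).prod *
            (x q * wd f (w q)) * wd f (v (q + 1))
          = (((List.range q).map fun i => x i * wd f (w i)).prod * wd f (v q)) * ρ q *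
            (wd f (s q) * wd f (w q) * wd f (v (q + 1))) := by
              change _ * (wd f (v q) * ρ q * wd f (s q) * wd f (w q)) * wd f (v (q + 1)) = _
              simp only [mul_assoc]
        _ = _ := by rw [h1, ← h2]; simp only [mul_assoc]
  rw [mul_assoc t, ← hind n le_rfl, ← mul_assoc t, ← hch, zero_mul]

end

end Pool.Agent.UN
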