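import Pool.Agent.Work.MP_3218de_al.UN.S2

set_option autoImplicit false
set_option linter.style.haveILetI false

/-!
# MP_3218de_al, block UN: subnormal images, part 3 (characteristic p)
-/

namespace Pool.Agent.UN

open Pool.Agent.HL3218
open scoped commutatorElement

universe u v

section

variable {R : Type u} [Ring R] {G : Type} [Group G]

/-- the descending step -/
theorem step_down {f : G →* Rˣ} {F : Subgroup G} {T : Ideal R} {E : Subgroup G} [T.IsTwoSided]
    {r d m : ℕ} (hT : HT f E T r) (hE : Dn d E = ⊥) (hm : (r + 1) * 2 ^ d + 1 ≤ m)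
    (B : Ideal R) [B.IsTwoSided] (k : ℕ) (hk : NP ⊥ B k)
    (hB : ∀ t ∈ T, ∀ t' ∈ T, ∀ l : List G, m ≤ l.length → (∀ x ∈ l, x ∈ F) →
      t * wd f l * t' ∈ B) :
    ∃ B' : Ideal R, B'.IsTwoSided ∧ (∃ k', NP ⊥ B' k') ∧
      ∀ t ∈ T, ∀ t' ∈ T, ∀ l : List G, m ≤ l.length + 1 → (∀ x ∈ l, x ∈ F) →
      t * wd f l * t' ∈ B' := by
  classical
  let π : R →+* R ⧸ B := Ideal.Quotient.mk B
  have hπ : Function.Surjective π := Ideal.Quotient.mk_surjective
  have hπ0 : ∀ x, π x = 0 ↔ x ∈ B := fun x => Ideal.Quotient.eq_zero_iff_mem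
  let f' : G →* (R ⧸ B)ˣ := (Units.map (π : R →* R ⧸ B)).comp f
  have hf' : ∀ g, (f' g : R ⧸ B) = π (f g) := fun g => rfl
  have hde : ∀ g, de f' g = π (de f g) := fun g => by
    unfold de
    rw [hf', map_sub, map_one]
  have hwd : ∀ l, wd f' l = π (wd f l) := by
    intro l
    unfold wd
    rw [map_list_prod, List.map_map]
    exact congrArg List.prod (List.map_congr_left fun g _ => hde g)
  let T' : Ideal (R ⧸ B) :=
    { carrier := {y | ∃ x ∈ T, π x = y}
      add_mem' := by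
        rintro _ _ ⟨x, hx, rfl⟩ ⟨y, hy, rfl⟩
        exact ⟨x + y, add_mem hx hy, map_add π x y⟩
      zero_mem' := ⟨0, zero_mem _, map_zero π⟩
      smul_mem' := by
        rintro c _ ⟨x, hx, rfl⟩
        obtain ⟨c, rfl⟩ := hπ c
        exact ⟨c * x, T.mul_mem_left c hx, map_mul π c x⟩ }
  haveI : T'.IsTwoSided := ⟨by
    rintro _ c ⟨x, hx, rfl⟩
    obtain ⟨c, rfl⟩ := hπ c
    exact ⟨x * c, T.mul_mem_right c hx, map_mul π x c⟩⟩
  have hT' : HT f' E T' r := by
    rintro _ ⟨x, hx, rfl⟩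
    obtain ⟨u, hu, hul⟩ := hT x hx
    refine ⟨Units.map (π : R →* R ⧸ B) u, ?_, fun l hl => ?_⟩
    · change π (u : R) = 1 + π x
      rw [hu, map_add, map_one]
    · obtain ⟨k, hk, hfk⟩ := hul l hl
      refine ⟨k, hk, ?_⟩
      change Units.map (π : R →* R ⧸ B) (f k) = _
      rw [hfk, cm_map, List.map_map]
      rfl
  have hv : VanT f' F T' m := by
    rintro _ ⟨t, ht, rfl⟩ _ ⟨t', ht', rfl⟩ l hl hlF
    rw [hwd, ← map_mul, ← map_mul, hπ0]
    exact hB t ht t' ht' l hl hlF
  have hmain := main_words hT' hE hv hm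
  let S : Set R := {y | ∃ t ∈ T, ∃ t' ∈ T, ∃ l : List G, l.length + 1 = m ∧ (∀ x ∈ l, x ∈ F) ∧
    y = t * wd f l * t'}
  obtain ⟨T₁, hT₁, hST, hTn⟩ := pr_TI pr_ML R S B (2 ^ d) (by
    intro s c hs
    choose t ht t' ht' L hL hLF hsL using hs
    have h1 : ∀ q, ((List.range q).map fun i => s i * c i).prod * s q =
        t 0 * ((List.range q).map fun i => wd f (L i) * (t' i * c i * t (i + 1))).prod *
          wd f (L q) * t' q := by
      intro q
      induction q with
      | zero =>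
        rw [List.range_zero, List.map_nil, List.map_nil, List.prod_nil, one_mul, mul_one, hsL]
      | succ q ih =>
        rw [List.range_succ, List.map_append, List.prod_append, List.map_append, List.prod_append]
        simp only [List.map_cons, List.map_nil, List.prod_cons, List.prod_nil, mul_one]
        calc ((List.range q).map fun i => s i * c i).prod * (s q * c q) * s (q + 1)
            = (((List.range q).map fun i => s i * c i).prod * s q) * c q * s (q + 1) := by
              simp only [mul_assoc]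
          _ = _ := by
              rw [ih, hsL (q + 1)]
              simp only [mul_assoc]
    rw [h1]
    apply B.mul_mem_right
    rw [← hπ0, map_mul, map_mul, map_list_prod, List.map_map, ← hwd]
    have h2 := hmain L hL hLF (fun i => π (t' i * c i * t (i + 1)))
      (fun i => ⟨_, T.mul_mem_left _ (ht (i + 1)), rfl⟩) (π (t 0)) ⟨_, ht 0, rfl⟩
    have h3 : ((fun i => wd f' (L i) * π (t' i * c i * t (i + 1))) : ℕ → R ⧸ B) =
        π ∘ fun i => wd f (L i) * (t' i * c i * t (i + 1)) := by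
      funext i
      rw [hwd, ← map_mul]
      rfl
    rw [h3] at h2
    exact h2)
  have h4 := pr_NS R ⊥ B T₁ k (2 ^ d + 1) hk hTn
  refine ⟨B ⊔ T₁, ST.sup_two B T₁, ⟨_, h4⟩, ?_⟩
  intro t ht t' ht' l hl hlF
  apply (le_sup_right : T₁ ≤ B ⊔ T₁)
  have hsplit : l = l.take (m - 1) ++ l.drop (m - 1) := (List.take_append_drop _ _).symm
  apply hST
  refine ⟨t, ht, wd f (l.drop (m - 1)) * t', T.mul_mem_left _ ht', l.take (m - 1), ?_,
    fun x hx => hlF x (List.mem_of_mem_take hx), ?_⟩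
  · rw [List.length_take]
    have : 1 ≤ m := by omega
    omega
  · conv_lhs => rw [hsplit]
    rw [wd_append]
    simp only [mul_assoc]

/-- words of length `(r + 1) 2 ^ d` between two elements of `T` lie in a nilpotent ideal -/
theorem words_nil {f : G →* Rˣ} {F : Subgroup G} {T : Ideal R} {E : Subgroup G} [T.IsTwoSided]
    {r d : ℕ} (hT : HT f E T r) (hE : Dn d E = ⊥) (m0 : ℕ)
    (hm0 : ∀ l : List G, m0 ≤ l.length → (∀ x ∈ l, x ∈ F) → wd f l = 0) :
    ∃ B : Ideal R, B.IsTwoSided ∧ (∃ k', NP ⊥ B k') ∧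
      ∀ t ∈ T, ∀ t' ∈ T, ∀ l : List G, (r + 1) * 2 ^ d ≤ l.length → (∀ x ∈ l, x ∈ F) →
      t * wd f l * t' ∈ B := by
  have key : ∀ q, q ≤ m0 → ∃ B : Ideal R, B.IsTwoSided ∧ (∃ k', NP ⊥ B k') ∧
      ∀ t ∈ T, ∀ t' ∈ T, ∀ l : List G, m0 + (r + 1) * 2 ^ d - q ≤ l.length →
        (∀ x ∈ l, x ∈ F) → t * wd f l * t' ∈ B := by
    intro q
    induction q with
    | zero =>
      intro _
      refine ⟨⊥, inferInstance, ⟨1, ?_⟩, ?_⟩
      · intro l hl hlx
        cases l with
        | nil => simp at hl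
        | cons a l =>
          have h1 := hlx a List.mem_cons_self
          rw [Submodule.mem_bot] at h1
          rw [List.prod_cons, h1, zero_mul]
          exact zero_mem _
      · intro t _ t' _ l hl hlx
        rw [hm0 l (by omega) hlx, mul_zero, zero_mul]
        exact zero_mem _
    | succ q ih =>
      intro hq
      obtain ⟨B, hB, ⟨k, hk⟩, hBl⟩ := ih (by omega)
      haveI := hB
      obtain ⟨B', hB', hk', hBl'⟩ := step_down hT hE
        (m := m0 + (r + 1) * 2 ^ d - q) (by omega) B k hk hBl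
      exact ⟨B', hB', hk', fun t ht t' ht' l hl hlx => hBl' t ht t' ht' l (by omega) hlx⟩
  obtain ⟨B, hB, hk, hBl⟩ := key m0 le_rfl
  exact ⟨B, hB, hk, fun t ht t' ht' l hl hlx => hBl t ht t' ht' l (by omega) hlx⟩

/-- characteristic `p`: if the `r`-fold commutators of the units in `1 + J` with elements of `f(G)`
lie in `f(G)`, then `f = 1` -/
theorem partPr {p : ℕ} (hG : Exm p G) (hp : (p : R) = 0) (f : G →* Rˣ) (hs : Spn f) (r : ℕ)
    (hN : NrmJr f r) : f = 1 := by
  classical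
  haveI : Fact p.Prime := ⟨hG.prime⟩
  by_contra hf
  obtain ⟨hnil, hvan⟩ := pr_JN pr_ML pr_LN p G hG.pgroup hG.locfin R hp f
  obtain ⟨N1, hN1, h01⟩ := pr_NX pr_NS R (⊥ : Ideal R)
  haveI := hN1.1
  obtain ⟨N2, hN2, h12⟩ := pr_NX pr_NS R N1
  have e0 : ∃ g, de f g ∉ (⊥ : Ideal R) := by
    by_contra h0
    push Not at h0
    exact hf (eq_one_of_de f fun g => by simpa using h0 g)
  have e1 := pr_FT pr_FI p G hG R f ⊥ N1 hN1 (pr_FN pr_NS R ⊥ N1 hN1) e0
  obtain ⟨g, hg⟩ := pr_FT pr_FI p G hG R f N1 N2 hN2 (pr_FN pr_NS R N1 N2 hN2) e1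
  have hg0 : de f g ≠ 0 := by
    intro h0
    exact hg (h0 ▸ zero_mem _)
  apply hg
  -- the ideal generated by `a` and its subgroup
  let T := TT (de f g)
  let E := FT.EE f T
  have hEt : E ≠ ⊤ := by
    intro h1
    obtain ⟨h, hh⟩ := TT_proper hG hp f hs g hg0
    apply hh
    have h2 : h ∈ E := by
      rw [h1]
      exact Subgroup.mem_top h
    exact h2
  obtain ⟨d, hd⟩ := (solvable_iff E).1 (hG.proper E hEt).1
  have hTJ : ∀ x ∈ T, x ∈ Jn f := TT_le_Jn f hs g
  have hHT : HT f E T r := by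
    intro x hx
    obtain ⟨u, hu⟩ := (hnil x (hTJ x hx)).isUnit_one_add
    refine ⟨u, hu, fun l hl => ?_⟩
    obtain ⟨g', hg'⟩ := hN u (by rw [hu, add_sub_cancel_left]; exact hTJ x hx) l hl
    refine ⟨g', ?_, hg'⟩
    change de f g' ∈ T
    unfold de
    rw [hg']
    exact cm_mem T _ u (by rw [hu, add_sub_cancel_left]; exact hx)
  -- products of words between elements of `T`
  have hw : ∀ t ∈ T, ∀ t' ∈ T, ∀ l : List G, (r + 1) * 2 ^ d ≤ l.length →
      t * wd f l * t' ∈ N1 := by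
    intro t ht t' ht' l hl
    obtain ⟨m0, hm0⟩ : ∃ m0 : ℕ, ∀ l' : List G, m0 ≤ l'.length →
        (∀ x ∈ l', x ∈ Subgroup.closure ((l.toFinset : Finset G) : Set G)) → wd f l' = 0 := by
      haveI : Finite (Subgroup.closure ((l.toFinset : Finset G) : Set G)) := hG.locfin _
      have hfin : ((Subgroup.closure ((l.toFinset : Finset G) : Set G) : Subgroup G) :
        Set G).Finite := Set.toFinite _
      obtain ⟨m0, hm0⟩ := hvan hfin.toFinset
      refine ⟨m0, fun l' hl' hlF => ?_⟩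
      unfold wd
      refine hm0 _ (by rw [List.length_map]; exact hl') ?_
      intro x hx
      obtain ⟨y, hy, rfl⟩ := List.mem_map.1 hx
      exact ⟨y, by simpa using hlF y hy, rfl⟩
    obtain ⟨B, hB, hk, hBl⟩ := words_nil (F := Subgroup.closure ((l.toFinset : Finset G) : Set G))
      hHT hd m0 hm0
    refine (hN1.2 _).2 ⟨B, hB, hBl t ht t' ht' l hl ?_, hk⟩
    intro x hx
    exact Subgroup.subset_closure (by simpa using hx)
  have hTTT : ∀ t ∈ T, ∀ x ∈ Jn f, ∀ t' ∈ T, t * x * t' ∈ N1 := by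
    intro t ht x hx t' ht'
    refine AddSubgroup.closure_induction ?_ ?_ ?_ ?_
      (Jn_pow hG.perfect f hs ((r + 1) * 2 ^ d) x hx)
    · rintro _ ⟨l, hl, rfl⟩
      exact hw t ht t' ht' l (by omega)
    · rw [mul_zero, zero_mul]
      exact zero_mem _
    · intro a b _ _ ha hb
      rw [mul_add, add_mul]
      exact add_mem ha hb
    · intro a _ ha
      rw [mul_neg, neg_mul]
      exact neg_mem ha
  refine (hN2.2 _).2 ⟨T, inferInstance, self_mem_TT _, 3, ?_⟩
  intro l hl hlT
  rcases l with _ | ⟨a, _ | ⟨b, _ | ⟨c, l⟩⟩⟩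
  · simp at hl
  · simp at hl
  · simp at hl
  · rw [List.prod_cons, List.prod_cons, List.prod_cons, ← mul_assoc, ← mul_assoc]
    apply N1.mul_mem_right
    exact hTTT a (hlT a (by simp)) b (hTJ b (hlT b (by simp))) c (hlT c (by simp))

end

end Pool.Agent.UN
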