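import Pool.Agent.Work.MP_3218de_al.UN.S3

set_option autoImplicit false
set_option linter.style.haveILetI false

/-!
# MP_3218de_al, block UN: subnormal images, part 4 (arbitrary rings)
-/

namespace Pool.Agent.UN

open Pool.Agent.HL3218
open scoped commutatorElement

universe u v

section

variable {R : Type u} [Ring R] {G : Type} [Group G]

theorem one_add_pow (a : R) : ∀ n : ℕ, ∃ q : R, (1 + a) ^ n = 1 + (n : R) * a + q * (a * a)
  | 0 => ⟨0, by simp⟩
  | n + 1 => by
    obtain ⟨q, hq⟩ := one_add_pow a n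
    refine ⟨q + (n : R) + q * a, ?_⟩
    rw [pow_succ, hq, Nat.cast_add, Nat.cast_one]
    noncomm_ring

theorem T1r {p : ℕ} (hpg : IsPGroup p G) (f : G →* Rˣ) (r : ℕ) (hN : Nrmr f r)
    (g : G) (c : R) : ∃ e : ℕ, (p : R) ^ e * (de f g * de f g * c * NN f g) = 0 := by
  set N := NN f g with hNdef
  set a := de f g with ha
  have hfa : (f g : R) = 1 + a := by
    rw [ha]
    unfold de
    abel
  have hNa : N * a = 0 := by
    rw [hNdef, ha]
    unfold NN de
    rw [geom_sum_mul, ← Units.val_pow_eq_pow_val, ← map_pow, pow_orderOf_eq_one, map_one,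
      Units.val_one, sub_self]
  have hNg : N * (f g : R) = N := by rw [hfa, mul_add, mul_one, hNa, add_zero]
  have hNgi : N * ((f g)⁻¹ : Rˣ) = N := by
    conv_lhs => rw [← hNg]
    rw [mul_assoc, Units.mul_inv, mul_one]
  let b : R := (((f g)⁻¹ : Rˣ) : R) - 1
  have hNb : N * b = 0 := by
    change N * ((((f g)⁻¹ : Rˣ) : R) - 1) = 0
    rw [mul_sub, hNgi, mul_one, sub_self]
  have hNbk : ∀ k : ℕ, N * (b ^ k * a) = 0 := by
    intro k
    rcases k with _ | k
    · rw [pow_zero, one_mul, hNa]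
    · rw [pow_succ', ← mul_assoc, ← mul_assoc, hNb, zero_mul, zero_mul]
  -- iterated commutators
  have hx : ∀ k : ℕ, ∀ u : Rˣ, ∀ j : ℕ, (u : R) = 1 + b ^ j * (a * c * N) →
      ((cm u (List.replicate k (f g)) : Rˣ) : R) = 1 + b ^ (j + k) * (a * c * N) := by
    intro k
    induction k with
    | zero => exact fun u j hu => hu
    | succ k ih =>
      intro u j hu
      rw [List.replicate_succ, cm_cons, ih _ (j + 1)]
      · congr 3
        omega
      · set y : R := b ^ j * (a * c * N) with hy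
        have hyy : y * y = 0 := by
          have e : y * y = b ^ j * (a * c) * (N * (b ^ j * a)) * (c * N) := by
            rw [hy]
            simp only [mul_assoc]
          rw [e, hNbk, mul_zero, zero_mul]
        have hyg : y * (f g : R) = y := by
          rw [hy, mul_assoc, mul_assoc, mul_assoc, hNg]
          simp only [mul_assoc]
        have hygi : y * ((f g)⁻¹ : Rˣ) = y := by
          rw [hy, mul_assoc, mul_assoc, mul_assoc, hNgi]
          simp only [mul_assoc]
        have hui : ((u⁻¹ : Rˣ) : R) = 1 - y := by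
          apply Units.inv_eq_of_mul_eq_one_right
          rw [hu]
          have h3 : (1 + y) * (1 - y) = 1 - y * y := by noncomm_ring
          rw [h3, hyy, sub_zero]
        rw [Units.val_mul, Units.val_mul, Units.val_mul, hui, hu, sub_mul, one_mul, hygi]
        have h3 : ((((f g)⁻¹ : Rˣ) : R) - y) * (1 + y) * (f g : R) =
            (((f g)⁻¹ : Rˣ) : R) * (f g : R) + (((f g)⁻¹ : Rˣ) : R) * (y * (f g : R))
              - y * (f g : R) - y * y * (f g : R) := by noncomm_ring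
        rw [h3, hyy, hyg, Units.inv_mul, pow_succ', mul_assoc, ← hy]
        change 1 + (((f g)⁻¹ : Rˣ) : R) * y - y - 0 * (f g : R) =
          1 + ((((f g)⁻¹ : Rˣ) : R) - 1) * y
        noncomm_ring
  have hxx : (a * c * N) * (a * c * N) = 0 := by
    have e : (a * c * N) * (a * c * N) = a * c * (N * a) * (c * N) := by simp only [mul_assoc]
    rw [e, hNa, mul_zero, zero_mul]
  let u : Rˣ := ⟨1 + a * c * N, 1 - a * c * N, by
    have : (1 + a * c * N) * (1 - a * c * N) = 1 - (a * c * N) * (a * c * N) := by noncomm_ring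
    rw [this, hxx, sub_zero], by
    have : (1 - a * c * N) * (1 + a * c * N) = 1 - (a * c * N) * (a * c * N) := by noncomm_ring
    rw [this, hxx, sub_zero]⟩
  have hu : (u : R) = 1 + a * c * N := rfl
  obtain ⟨h, hh⟩ := hN u ⟨2, by rw [hu, add_sub_cancel_left, pow_two, hxx]⟩ (List.replicate r g)
    (List.length_replicate)
  rw [List.map_replicate] at hh
  have h1 : (f h : R) = 1 + b ^ r * (a * c * N) := by
    rw [hh, hx r u 0 (by rw [pow_zero, one_mul, hu]), zero_add]
  set y : R := b ^ r * (a * c * N) with hy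
  have hyy : y * y = 0 := by
    have e : y * y = b ^ r * (a * c) * (N * (b ^ r * a)) * (c * N) := by
      rw [hy]
      simp only [mul_assoc]
    rw [e, hNbk, mul_zero, zero_mul]
  obtain ⟨e, he⟩ := hpg h
  have h3 : (1 + y) ^ p ^ e = 1 := by
    rw [← h1, ← Units.val_pow_eq_pow_val, ← map_pow, he, map_one, Units.val_one]
  rw [T1.pow_sq_zero y hyy, add_eq_left, Nat.cast_pow] at h3
  -- from `b` to `a`
  have hab : a = -(f g : R) * b := by
    change a = -(f g : R) * ((((f g)⁻¹ : Rˣ) : R) - 1)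
    rw [mul_sub, neg_mul, Units.mul_inv, hfa]
    noncomm_ring
  have hcb : Commute (-(f g : R)) b := by
    apply Commute.neg_left
    apply Commute.sub_right
    · change (f g : R) * (((f g)⁻¹ : Rˣ) : R) = (((f g)⁻¹ : Rˣ) : R) * (f g : R)
      rw [Units.mul_inv, Units.inv_mul]
    · exact Commute.one_right _
  have hpc : ∀ (e : ℕ) (z : R), z * (p : R) ^ e = (p : R) ^ e * z := by
    intro e z
    rw [← Nat.cast_pow]
    exact (Nat.cast_comm _ _).symm
  have h4 : (p : R) ^ e * (a ^ (r + 1) * c * N) = 0 := by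
    have h5 : a ^ (r + 1) * c * N = (-(f g : R)) ^ r * y := by
      rw [hy, pow_succ]
      conv_lhs => rw [hab]
      rw [hcb.mul_pow]
      rw [← hab]
      simp only [mul_assoc]
    rw [h5, ← mul_assoc, ← hpc, mul_assoc, h3, mul_zero]
  -- reduce the exponent
  obtain ⟨s, hs⟩ := hpg g
  obtain ⟨q, hq⟩ := one_add_pow a (p ^ s)
  have h7 : (p : R) ^ s * a = -(q * (a * a)) := by
    rw [← hfa, ← Units.val_pow_eq_pow_val, ← map_pow, hs, map_one, Units.val_one, Nat.cast_pow,
      add_assoc] at hq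
    have h8 := (left_eq_add.1 hq)
    exact eq_neg_of_add_eq_zero_left h8
  have h9 : ∀ k : ℕ, (∃ e : ℕ, (p : R) ^ e * (a ^ (k + 1) * c * N) = 0) →
      ∃ e : ℕ, (p : R) ^ e * (a * c * N) = 0 := by
    intro k
    induction k with
    | zero =>
      rintro ⟨e, he⟩
      exact ⟨e, by simpa using he⟩
    | succ k ih =>
      rintro ⟨e, he⟩
      apply ih
      refine ⟨e + s, ?_⟩
      have h10 : (p : R) ^ s * (a ^ (k + 1) * c * N) = -(q * (a ^ (k + 1 + 1) * c * N)) := by
        have e1 : (p : R) ^ s * (a ^ (k + 1) * c * N) = ((p : R) ^ s * a) * (a ^ k * c * N) := by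
          rw [pow_succ' a k]
          simp only [mul_assoc]
        rw [e1, h7, pow_succ' a (k + 1), pow_succ' a k]
        simp only [mul_assoc, neg_mul]
      rw [pow_add, mul_assoc, h10, mul_neg, ← mul_assoc, ← hpc, mul_assoc, he, mul_zero, neg_zero]
  obtain ⟨e', he'⟩ := h9 r ⟨e, h4⟩
  refine ⟨e', ?_⟩
  have h11 : a * a * c * N = a * (a * c * N) := by simp only [mul_assoc]
  rw [h11, ← mul_assoc, ← hpc, mul_assoc, he', mul_zero]

/-- part T: `J` is `p`-power torsion -/
theorem torsion_der {p : ℕ} (hG : Exm p G) (f : G →* Rˣ) (r : ℕ) (hN : Nrmr f r) (g : G) :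
    ∃ e : ℕ, (p : R) ^ e * de f g = 0 := by
  by_contra h0
  push Not at h0
  obtain ⟨P, hP⟩ := pr_ZR R p (de f g) h0
  have h1 := pr_T3 p G hG.pgroup hG.prime R f g P hP (T1r hG.pgroup f r hN)
  obtain ⟨Γ, _, π, hπ, hΓ, R', _, f', hR', ht, hv⟩ :=
    pr_TQ p G hG.pgroup hG.prime R f g P hP h1
  exact no_dep allT.{u} p (hG.map π hπ) (pr_T4 p hG.prime Γ R' f' ht hv)

/-- lifting of units -/
theorem TLr {p : ℕ} {R₁ : Type u} [Ring R₁] (π : R →+* R₁)
    (f : G →* Rˣ) (f₁ : G →* R₁ˣ)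
    (hker : ∀ x, π x = 0 → ∃ c : R, x = (p : R) * c) (hf₁ : ∀ g, (f₁ g : R₁) = π (f g))
    (ht : ∀ x ∈ Jn f, ∃ e : ℕ, (p : R) ^ e * x = 0) (hnil : ∀ x ∈ Jn f₁, IsNilpotent x)
    (r : ℕ) (hN : Nrmr f r) : NrmJr f₁ r := by
  intro u₁ hu₁ l hl
  have h1 : ∀ y ∈ Jn f₁, ∃ x ∈ Jn f, π x = y := by
    intro y hy
    refine AddSubgroup.closure_induction ?_ ?_ ?_ ?_ hy
    · rintro _ ⟨h, rfl⟩
      refine ⟨de f h, AddSubgroup.subset_closure ⟨h, rfl⟩, ?_⟩
      unfold de
      rw [map_sub, map_one, hf₁]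
    · exact ⟨0, zero_mem _, map_zero π⟩
    · rintro _ _ _ _ ⟨r, hr, rfl⟩ ⟨s, hs, rfl⟩
      exact ⟨r + s, add_mem hr hs, map_add π r s⟩
    · rintro _ _ ⟨r, hr, rfl⟩
      exact ⟨-r, neg_mem hr, map_neg π r⟩
  obtain ⟨x, hx, hxu⟩ := h1 _ hu₁
  obtain ⟨k, hk⟩ := hnil _ hu₁
  rw [← hxu, ← map_pow] at hk
  obtain ⟨c, hc⟩ := hker _ hk
  obtain ⟨e, he⟩ := ht x hx
  have hxn : IsNilpotent x := by
    refine ⟨k * e + 1, ?_⟩
    have hcomm : Commute ((p : R)) c := Nat.cast_commute p c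
    rw [pow_succ, pow_mul, hc, hcomm.mul_pow, (hcomm.pow_pow e e).eq, mul_assoc, he, mul_zero]
  obtain ⟨u, hu⟩ := hxn.isUnit_one_add
  obtain ⟨g', hg'⟩ := hN u (by rw [hu, add_sub_cancel_left]; exact hxn) l hl
  refine ⟨g', ?_⟩
  have h2 : ∀ g, f₁ g = Units.map (π : R →* R₁) (f g) := fun g => Units.ext (hf₁ g)
  have h3 : u₁ = Units.map (π : R →* R₁) u := by
    apply Units.ext
    change (u₁ : R₁) = π (u : R)
    rw [hu, map_add, map_one, hxu]
    abel
  rw [h2, h3, hg', cm_map, List.map_map]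
  congr 1
  exact List.map_congr_left fun g _ => (h2 g).symm

/-- arbitrary rings, generated by `f(G)` -/
theorem partTr {p : ℕ} (hG : Exm p G) (f : G →* Rˣ) (hs : Spn f) (r : ℕ) (hN : Nrmr f r) :
    f = 1 := by
  classical
  haveI : Fact p.Prime := ⟨hG.prime⟩
  by_contra hf
  have ht := torsion_Jn p f (torsion_der hG f r hN)
  obtain ⟨g, hg⟩ := pr_TF pr_JI pr_PF p G hG.perfect R f hs ht hf
  let I : Ideal R :=
    { carrier := {x | ∃ c : R, x = (p : R) * c}
      add_mem' := by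
        rintro _ _ ⟨c, rfl⟩ ⟨c', rfl⟩
        exact ⟨c + c', (mul_add _ _ _).symm⟩
      zero_mem' := ⟨0, (mul_zero _).symm⟩
      smul_mem' := by
        rintro r _ ⟨c, rfl⟩
        exact ⟨r * c, by rw [smul_eq_mul, ← mul_assoc, ← mul_assoc, Nat.cast_comm]⟩ }
  have hImem : ∀ x, x ∈ I ↔ ∃ c : R, x = (p : R) * c := fun x => Iff.rfl
  haveI : I.IsTwoSided := ⟨by
    rintro _ b ⟨c, rfl⟩
    exact ⟨c * b, mul_assoc _ _ _⟩⟩
  let π : R →+* R ⧸ I := Ideal.Quotient.mk I
  let f₁ : G →* (R ⧸ I)ˣ := (Units.map (π : R →* R ⧸ I)).comp f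
  have hf₁ : ∀ g, (f₁ g : R ⧸ I) = π (f g) := fun g => rfl
  have hπ : Function.Surjective π := Ideal.Quotient.mk_surjective
  have hs₁ : Spn f₁ := by
    unfold Spn at hs ⊢
    rw [eq_top_iff]
    intro y _
    obtain ⟨x, rfl⟩ := hπ y
    have hx : x ∈ AddSubgroup.closure (Set.range fun g => (f g : R)) := by
      rw [hs]
      exact AddSubgroup.mem_top x
    refine AddSubgroup.closure_induction ?_ ?_ ?_ ?_ hx
    · rintro _ ⟨g, rfl⟩
      exact AddSubgroup.subset_closure ⟨g, rfl⟩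
    · rw [map_zero]
      exact zero_mem _
    · intro x y _ _ h1 h2
      rw [map_add]
      exact add_mem h1 h2
    · intro x _ h1
      rw [map_neg]
      exact neg_mem h1
  have hp₁ : ((p : ℕ) : R ⧸ I) = 0 := by
    have h1 : π (p : R) = 0 := Ideal.Quotient.eq_zero_iff_mem.2 ⟨1, (mul_one _).symm⟩
    rw [map_natCast] at h1
    exact h1
  obtain ⟨hnil, -⟩ := pr_JN pr_ML pr_LN p G hG.pgroup hG.locfin (R ⧸ I) hp₁ f₁
  have hN₁ : NrmJr f₁ r := TLr (p := p) π f f₁
    (fun x hx => (hImem x).1 (Ideal.Quotient.eq_zero_iff_mem.1 hx)) hf₁ ht hnil r hN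
  have h1 := partPr hG hp₁ f₁ hs₁ r hN₁
  apply hg
  apply (hImem _).1
  apply Ideal.Quotient.eq_zero_iff_mem.1
  have h2 : f₁ g = 1 := by rw [h1]; rfl
  have h3 : (f₁ g : R ⧸ I) = 1 := by rw [h2]; rfl
  unfold de
  rw [map_sub, map_one]
  change (f₁ g : R ⧸ I) - 1 = 0
  rw [h3, sub_self]

/-- the theorem for subnormal images in groups of units -/
theorem main_r {p : ℕ} (hG : Exm p G) {A : Type u} [Ring A] (f : G →* Aˣ) (hf : f ≠ 1) (r : ℕ) :
    ∃ u : Aˣ, (u : A) ∈ Subring.closure (Set.range fun g => (f g : A)) ∧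
      IsNilpotent ((u : A) - 1) ∧
      ∃ l : List G, l.length = r ∧ cm u (l.map f) ∉ f.range := by
  obtain ⟨R, _, ι, f', hι, hs, hf', hcl⟩ := pr_FL G A f
  by_contra hcon
  push Not at hcon
  have h2 : ∀ g, f g = Units.map (ι : R →* A) (f' g) := fun g => Units.ext (hf' g).symm
  have hN : Nrmr f' r := by
    intro u hu l hl
    obtain ⟨g', hg'⟩ := hcon (Units.map (ι : R →* A) u) (hcl _) (by
      have h1 : ((Units.map (ι : R →* A) u : Aˣ) : A) - 1 = ι ((u : R) - 1) := by
        rw [map_sub, map_one]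
        rfl
      rw [h1]
      exact hu.map ι) l hl
    refine ⟨g', Units.map_injective (f := (ι : R →* A)) hι ?_⟩
    have h5 : Units.map (ι : R →* A) (f' g') =
        Units.map (ι : R →* A) (cm u (l.map f')) := by
      rw [cm_map, List.map_map]
      refine (h2 g').symm.trans (hg'.trans ?_)
      congr 1
      exact List.map_congr_left fun g _ => h2 g
    exact h5
  have h1 := partTr hG f' hs r hN
  apply hf
  ext g
  rw [← hf', h1]
  simp

end

end Pool.Agent.UN
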