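import Mathlib
import Pool.Agent.Work.MP_3218de_al.HL.Main

set_option autoImplicit false

/-!
# MP_3218de_al, block UN: images of the examples in unit groups of rings, statements of the items

`G` is a group, `R` a ring with 1 and `f : G →* Rˣ` a homomorphism.  The theorem: if `G` is an
example (`Exm p G`) and every unit `u` of `R` with `u - 1` nilpotent normalises `f(G)`, where `R` is
additively spanned by `f(G)`, then `f = 1`.

Every item is a proposition `St..`; prove `theorem pr_.. : St..` (for the items about rings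
`theorem pr_XX : StXX.{u}`) in the file `UN/I_XX.lean`, namespace `Pool.Agent.UN`.  Items do not
wait for each other; each docstring is the complete proof.
-/

namespace Pool.Agent.UN

open Pool.Agent.HL3218
open scoped commutatorElement

universe u

section defs

variable {R : Type u} [Ring R] {G : Type} [Group G]

/-- the element `f(g) - 1` -/
def de (f : G →* Rˣ) (g : G) : R := (f g : R) - 1

/-- the ring is additively spanned by `f(G)` -/
def Spn (f : G →* Rˣ) : Prop := AddSubgroup.closure (Set.range fun g => (f g : R)) = ⊤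

/-- the additive span `J` of all elements `f(g) - 1` -/
def Jn (f : G →* Rˣ) : AddSubgroup R := AddSubgroup.closure (Set.range (de f))

/-- the additive span of all products of two elements of `J` -/
def J2 (f : G →* Rˣ) : AddSubgroup R :=
  AddSubgroup.closure {w | ∃ y ∈ Jn f, ∃ z ∈ Jn f, w = y * z}

/-- all units `u` with `u - 1 ∈ J` normalise `f(G)` -/
def NrmJ (f : G →* Rˣ) : Prop :=
  ∀ u : Rˣ, (u : R) - 1 ∈ Jn f → ∀ g, ∃ g', f g' = u * f g * u⁻¹

/-- all units `u` with `u - 1` nilpotent normalise `f(G)` -/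
def Nrm (f : G →* Rˣ) : Prop :=
  ∀ u : Rˣ, IsNilpotent ((u : R) - 1) → ∀ g, ∃ g', f g' = u * f g * u⁻¹

/-- every product of at least `k` elements of the ideal `T` lies in the ideal `N` -/
def NP (N T : Ideal R) (k : ℕ) : Prop :=
  ∀ l : List R, k ≤ l.length → (∀ x ∈ l, x ∈ T) → l.prod ∈ N

/-- `N'` is the two-sided ideal of all elements which lie in a two-sided ideal that is nilpotent
modulo `N` -/
def Nxt (N N' : Ideal R) : Prop :=
  N'.IsTwoSided ∧ ∀ x, x ∈ N' ↔ ∃ T : Ideal R, T.IsTwoSided ∧ x ∈ T ∧ ∃ k, NP N T k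

/-- every product of at least `m` elements of `X` vanishes -/
def Van (X : Set R) (m : ℕ) : Prop :=
  ∀ l : List R, m ≤ l.length → (∀ x ∈ l, x ∈ X) → l.prod = 0

/-- the hypothesis on the set `ρ` and the subgroup `K` in the main computation: `ρ` is closed under
right multiplication, for every `x ∈ ρ` the element `1 + x` is a unit `u` and the commutators of
`u` with the elements of `f(K)` lie in `f(K)` -/
def Rho (f : G →* Rˣ) (K : Subgroup G) (ρ : Set R) : Prop :=
  (∀ x ∈ ρ, ∀ r : R, x * r ∈ ρ) ∧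
  ∀ x ∈ ρ, ∃ u : Rˣ, (u : R) = 1 + x ∧ ∀ k ∈ K, ∃ k' ∈ K, f k' = u⁻¹ * (f k)⁻¹ * u * f k

/-- the norm of an element -/
noncomputable def NN (f : G →* Rˣ) (g : G) : R :=
  ∑ i ∈ Finset.range (orderOf g), (f g : R) ^ i

/-- `p`-pure ideals -/
def Pure (p : ℕ) (P : Ideal R) : Prop := ∀ x, (p : R) * x ∈ P → x ∈ P

end defs

/-- `p`-pure ideal maximal among those that do not contain `x0` -/
def MaxPure {R : Type u} [Ring R] (p : ℕ) (x0 : R) (P : Ideal R) : Prop :=
  P.IsTwoSided ∧ Pure p P ∧ x0 ∉ P ∧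
    ∀ P' : Ideal R, P'.IsTwoSided → Pure p P' → P ≤ P' → P ≠ P' → x0 ∈ P'

/-- any two commuting elements of order `p` generate the same subgroup -/
def Dep (p : ℕ) (G : Type) [Group G] : Prop :=
  ∀ v w : G, v * w = w * v → v ^ p = 1 → w ^ p = 1 → w ≠ 1 → ∃ i : ℕ, v = w ^ i

/-! ### Part 1: generalities on ideals and words -/

/-- ITEM ML (EASY-MEDIUM).  If all products of `m` elements of a set `S` lie in the additive
subgroup `N`, so do all products of `m` elements of the additive span of `S`.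

PROOF.  Show by induction on `l₂`: for all lists `l₁` in `S` and `l₂` in the additive closure with
`l₁.length + l₂.length = m`: `l₁.prod * l₂.prod ∈ N`.  For `l₂ = []` it is the hypothesis.  For
`l₂ = x :: l₂'` use `AddSubgroup.closure_induction` on `x`: for `x ∈ S` apply the induction
hypothesis to `l₁ ++ [x]` and `l₂'`; for `0` the product is 0; sums and negatives by
distributivity (`mul_add`, `add_mul`).  The induction on `l₂` is for all `l₁` and all `m`. -/
def StML : Prop :=
  ∀ (R : Type u) [Ring R] (S : Set R) (N : AddSubgroup R) (m : ℕ),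
    (∀ l : List R, l.length = m → (∀ x ∈ l, x ∈ S) → l.prod ∈ N) →
    ∀ l : List R, l.length = m → (∀ x ∈ l, x ∈ AddSubgroup.closure S) → l.prod ∈ N

/-- ITEM NS (EASY-MEDIUM).  Nilpotent modulo nilpotent is nilpotent.

PROOF.  First: if `l'` is a list of elements of `B ⊔ T` of length at least `k'`, then
`l'.prod ∈ B`.  Write each element `x = b + t` (`Submodule.mem_sup`); by induction on a list of
elements of `B ⊔ T` there is a list `lt` of elements of `T` of the same length with
`l.prod - lt.prod ∈ B`: `(b + t) * P - t * P' = b * P + t * (P - P')` is in `B`, `B` being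
two-sided.  `lt.prod ∈ B` by the hypothesis.  Then induct on `k` in the form: for every list `l` of
elements of `B ⊔ T` with `k * k' ≤ l.length` there is a list `L` of elements of `B` with
`k ≤ L.length` and `l.prod = L.prod * r` for some `r : R` (take off the first `k'` elements with
`List.take`, `List.drop`).  Now `L.prod ∈ N` and `N` is two-sided. -/
def StNS : Prop :=
  ∀ (R : Type u) [Ring R] (N B T : Ideal R) [N.IsTwoSided] [B.IsTwoSided] [T.IsTwoSided]
    (k k' : ℕ), NP N B k → NP B T k' → NP N (B ⊔ T) (k * k')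

/-- ITEM NX (EASY-MEDIUM, uses item NS as a hypothesis).  The elements that lie in a two-sided ideal
nilpotent modulo `N` form a two-sided ideal, and it contains `N`.

PROOF.  `N' := {x | ∃ T, T.IsTwoSided ∧ x ∈ T ∧ ∃ k, NP N T k}`.  It contains 0 and `N` (take
`T = N`, `k = 1`: the product of a nonempty list of elements of a two-sided ideal is in it).  Closed
under left and right multiplication since `T` is two-sided.  Sums: `x₁ ∈ T₁`, `x₂ ∈ T₂` with
`NP N T₁ k₁`, `NP N T₂ k₂`.  By `NS` with `B = N` and `T = T₂`: `NP N (N ⊔ T₂) (1 * k₂)`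
(`NP N N 1` as said).  `NP (N ⊔ T₂) T₁ k₁` holds as `N ≤ N ⊔ T₂`.  By `NS` with `B = N ⊔ T₂`:
`NP N ((N ⊔ T₂) ⊔ T₁) (1 * k₂ * k₁)`; this ideal contains `x₁ + x₂`.  The supremum of two-sided
ideals is two-sided (an instance or direct, `Submodule.mem_sup`). -/
def StNX : Prop :=
  StNS.{u} →
  ∀ (R : Type u) [Ring R] (N : Ideal R) [N.IsTwoSided], ∃ N' : Ideal R, Nxt N N' ∧ N ≤ N'

/-- ITEM TI (MEDIUM, uses item ML as a hypothesis).  The two-sided ideal generated by a set `S`.

PROOF.  `T := AddSubgroup.closure {w | ∃ x y, ∃ s ∈ S, w = x * s * y}`; it is closed under left and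
right multiplication (closure induction), so it is a two-sided ideal, and contains `S`.  A product
of more than `n + 1` elements of `T` is a product of `n + 1` of them times an element of `R` (split
with `List.take`), so, `B` being two-sided, it suffices to treat lists of length `n + 1`, and by
`ML` lists of elements of the form `x * s * y` with `s ∈ S`.  By induction on the list: for every
nonempty list `l` of such elements there are a list `l'` of pairs `(s, r)` with `s ∈ S`,
`l'.length + 1 = l.length`, and `s' ∈ S`, `x y : R` with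
`l.prod = x * (l'.map fun q => q.1 * q.2).prod * s' * y`: for `l = (x * s * y) :: l₁` and
`l₁.prod = x' * P * s' * y'` take `(s, y * x') :: l'`.  Finally turn `l'` (of length `n`) and `s'`
into sequences: `s i = (l'.getD i (s', 0)).1`, `r i = (l'.getD i (s', 0)).2`, so `s n = s'` and
`(List.range n).map (fun i => s i * r i) = l'.map _` (`List.ext_getElem`). -/
def StTI : Prop :=
  StML.{u} →
  ∀ (R : Type u) [Ring R] (S : Set R) (B : Ideal R) [B.IsTwoSided] (n : ℕ),
    (∀ s r : ℕ → R, (∀ i, s i ∈ S) →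
      ((List.range n).map fun i => s i * r i).prod * s n ∈ B) →
    ∃ T : Ideal R, T.IsTwoSided ∧ S ⊆ (T : Set R) ∧ NP B T (n + 1)

/-! ### Part 2: characteristic `p` -/

/-- ITEM LN (MEDIUM).  In characteristic `p` the augmentation ideal of a finite `p`-group is
nilpotent.

PROOF.  `V := AddSubgroup.closure (Set.range fun h : H => (f h : R))` is finite: a finitely
generated abelian group of exponent `p` (for instance: it is the image of `(H → ZMod p)` or of
`H → Fin p`, or use `AddCommGroup` finitely generated and torsion).  Put `W 0 = ⊥` and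
`W (i+1) = {v ∈ V | ∀ h, (f h - 1) * v ∈ W i}`: additive subgroups, `W i ≤ W (i+1) ≤ V`, each
stable under left multiplication by `f h` (`f h * v = v + (f h - 1) * v`; show `W i ≤ W (i+1)` by
induction).  If `W i ≠ V`, then `W i < W (i+1)`: the `p`-group `H` acts on the finite nonzero
`F_p`-space `V / W i` by left multiplication, 0 is a fixed point and `p` divides the cardinality, so
there is a second fixed point (`IsPGroup.exists_fixed_point_of_prime_dvd_card_of_fixed_point`).
Since `V` is finite, `W m = V` for `m = Nat.card V`.  `1 ∈ V`, and multiplying on the left by one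
factor `f h - 1` leads from `W (i+1)` to `W i`; so a product of `m` factors `f h - 1` (times
`1 ∈ V`) lies in `W 0 = ⊥`; a longer product too.
(Other proof: induction on the order of `H`: for `z` central of order `p`, `b = f z - 1` satisfies
`b ^ p = 0` and is central in the subring spanned by `f(H)`; pass to the quotient by `b`.) -/
def StLN : Prop :=
  ∀ (p : ℕ) [Fact p.Prime] (H : Type) [Group H] [Finite H] (_ : IsPGroup p H)
    (R : Type u) [Ring R] (_ : (p : R) = 0) (f : H →* Rˣ),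
    ∃ m : ℕ, ∀ l : List H, m ≤ l.length → (l.map (de f)).prod = 0

/-- ITEM JN (EASY-MEDIUM, uses items ML and LN as hypotheses).  In characteristic `p`, for locally
finite `p`-groups: `J` is nil, and for every finite subset `X` of `G` there is `m` such that all
products of at least `m` elements `f(g) - 1`, `g ∈ X`, vanish.

PROOF.  Second part: the subgroup `H` generated by `X` is a finite `p`-group; apply `LN` to `H` and
`f` restricted to `H`.  An element of `Jn f` lies in
`AddSubgroup.closure (de f '' X)` for some finite set `X` (closure induction: unions of the finite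
sets; or `Submodule` finiteness).  By the second part all products of `m` elements of `de f '' X`
vanish; by `ML` with `N = ⊥` all products of `m` elements of `AddSubgroup.closure (de f '' X)`
vanish; apply this to `List.replicate m x`: `x ^ m = 0`. -/
def StJN : Prop :=
  StML.{u} → StLN.{u} →
  ∀ (p : ℕ) [Fact p.Prime] (G : Type) [Group G] (_ : IsPGroup p G)
    (_ : ∀ s : Finset G, Finite (Subgroup.closure (s : Set G)))
    (R : Type u) [Ring R] (_ : (p : R) = 0) (f : G →* Rˣ),
    (∀ x ∈ Jn f, IsNilpotent x) ∧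
    ∀ X : Finset G, ∃ m : ℕ, Van (de f '' (X : Set G)) m

/-- ITEM JI (EASY).  `J` is a two-sided ideal.

PROOF.  Closure induction in both arguments: `f(h) (f(g) - 1) = (f(hg) - 1) - (f(h) - 1)` and
similarly on the right. -/
def StJI : Prop :=
  ∀ (G : Type) [Group G] (R : Type u) [Ring R] (f : G →* Rˣ), Spn f →
    ∀ x ∈ Jn f, ∀ r : R, r * x ∈ Jn f ∧ x * r ∈ Jn f

/-- ITEM PF (EASY-MEDIUM, uses item JI as a hypothesis).  `J` is the additive span of the products
of two elements of `J`, if `G` is perfect.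

PROOF.  `T = {g | de f g ∈ J2 f}` is a subgroup: `de f (g h) = de f g + de f h + de f g * de f h`,
and `de f g⁻¹ = - de f g * f(g)⁻¹`, where `J2 f` is closed under multiplication by elements of `R`
on the right (closure induction; `y * z * r = y * (z * r)` with `z * r ∈ J` by `JI`).  It contains
every commutator: with `a = de f g`, `b = de f h`:
`f ⁅g, h⁆ - 1 = (f(g) f(h) - f(h) f(g)) f(g)⁻¹ f(h)⁻¹ = (a b - b a) f(g)⁻¹ f(h)⁻¹`.  As
`commutator G = ⊤` is the closure of the commutators (`commutator_eq_closure`), `T = ⊤`. -/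
def StPF : Prop :=
  StJI.{u} →
  ∀ (G : Type) [Group G] (_ : commutator G = ⊤) (R : Type u) [Ring R] (f : G →* Rˣ), Spn f →
    ∀ g, de f g ∈ J2 f

/-- ITEM KP (EASY-MEDIUM, uses items JI and PF as hypotheses).  The subgroup
`K_a = {h | f(h) - 1 ∈ a R}` for `a = f(g) - 1 ≠ 0` is proper.

PROOF.  Subgroup: `de f (h h') = de f h + de f h' + de f h * de f h'`, `de f 1 = 0`,
`de f h⁻¹ = - de f h * f(h)⁻¹`.  Suppose it is the whole group.  Then every element of `J` is of the
form `a * r` (closure induction).  By `PF`, `a ∈ J2 f`; every element of `J2 f` is of the form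
`a * j` with `j ∈ J`: for `y, z ∈ J`, `y = a * r`, `y * z = a * (r * z)` and `r * z ∈ J` by `JI`;
sums and negatives are clear.  So `a = a * j` with `j ∈ J` nilpotent: `a = a * j ^ n` for all `n`, so
`a = 0`. -/
def StKP : Prop :=
  StJI.{u} → StPF.{u} →
  ∀ (G : Type) [Group G] (_ : commutator G = ⊤) (R : Type u) [Ring R] (f : G →* Rˣ), Spn f →
    (∀ x ∈ Jn f, IsNilpotent x) → ∀ g : G, de f g ≠ 0 →
    ∃ K : Subgroup G, K ≠ ⊤ ∧ ∀ h, h ∈ K ↔ ∃ r : R, de f h = de f g * r

/-- ITEM RU (EASY-MEDIUM, uses item JI as a hypothesis).  The right ideal `ρ = a R`,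
`a = f(g) - 1`, satisfies the hypothesis `Rho`.

PROOF.  Closed under right multiplication: clear.  Let `x = a * r`; `x ∈ J` by `JI` (`a ∈ J`), so `x`
is nilpotent and `1 + x` is a unit `u`.  `u⁻¹ = 1 - x * u⁻¹`, so `u⁻¹ - 1 ∈ J`.  Let `k ∈ K`,
`f(k) = 1 + a * s`.  By `NrmJ` for `u⁻¹` there is `g'` with `f g' = u⁻¹ * f k⁻¹ * u`; put
`k' = g' * k`.  `f k' - 1 = u⁻¹ * f(k)⁻¹ * (u * f(k) - f(k) * u)
= u⁻¹ * f(k)⁻¹ * (x * f(k) - f(k) * x)`.  Here `x * f(k) ∈ a R` and `f(k) * x = x + a * s * x ∈ a R`.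
Left multiplication by `f(k)⁻¹ = 1 - a * s * f(k)⁻¹` and by `u⁻¹ = 1 - x * u⁻¹` maps `a R` into `a R`
(`f(k)⁻¹ * (a * t) = a * t - a * (s * f(k)⁻¹ * a * t)`).  So `k' ∈ K`. -/
def StRU : Prop :=
  StJI.{u} →
  ∀ (G : Type) [Group G] (R : Type u) [Ring R] (f : G →* Rˣ), Spn f →
    (∀ x ∈ Jn f, IsNilpotent x) → NrmJ f → ∀ (g : G) (K : Subgroup G),
    (∀ h, h ∈ K ↔ ∃ r : R, de f h = de f g * r) →
    Rho f K {x | ∃ r : R, x = de f g * r}

/-! ### Part 3: the main computation -/

/-- ITEM LW (EASY-MEDIUM).  The law of derived length `d` in terms of elements `1 + z`.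

PROOF.  Induction on `d`, for all sequences `z`.  `d = 0`: the product is `z 0`.  Step: the first
`2 ^ d` terms and the next `2 ^ d` terms (the sequence `i ↦ z (2 ^ d + i)`) satisfy the hypothesis
for `d`; so there are `k₁, k₂ ∈ Dn d K` with `f k₁ = 1 + y₁`, `f k₂ = 1 + y₂`,
`y₁ = z 0 ⋯ z (2 ^ d - 1)`, `y₂ = z (2 ^ d) ⋯ z (2 ^ (d + 1) - 1)`.  The products `y₂ * y₁`,
`y₁ * y₁`, `y₂ * y₂` vanish, because each contains the product (last factor of the left word) times
(first factor of the right word), of the form `z j * z i` with `i ≤ j` (write a nonempty product over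
`List.range` as (first) * rest, `List.range_succ_eq_map`, and as rest * (last), `List.range_succ`).
So `(1 + y₁)⁻¹ = 1 - y₁`, `(1 + y₂)⁻¹ = 1 - y₂` and
`f ⁅k₁, k₂⁆ = (1 + y₁) * (1 + y₂) * (1 - y₁) * (1 - y₂) = 1 + y₁ * y₂`, and `y₁ * y₂` is the product
of all `2 ^ (d + 1)` terms; `⁅k₁, k₂⁆ ∈ Dn (d + 1) K` (`Dn (d + 1) K = ⁅Dn d K, Dn d K⁆`,
`Subgroup.commutator_mem_commutator`). -/
def StLW : Prop :=
  ∀ (G : Type) [Group G] (R : Type u) [Ring R] (f : G →* Rˣ) (K : Subgroup G) (d : ℕ)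
    (z : ℕ → R), (∀ i, i < 2 ^ d → ∃ k ∈ K, (f k : R) = 1 + z i) →
    (∀ i j, i ≤ j → j < 2 ^ d → z j * z i = 0) →
    ∃ k ∈ Dn d K, (f k : R) = 1 + ((List.range (2 ^ d)).map z).prod

/-- ITEM WL (EASY).  Words around an inverse.

PROOF.  `g⁻¹ = 1 - b * g⁻¹`, so `u.prod * g⁻¹ * v.prod = u.prod * v.prod - (u ++ [b]).prod * g⁻¹ *
v.prod`.  Induction on `m - u.length`: the first term is `(u ++ v).prod = 0`, the second vanishes by
induction; when `m ≤ u.length` already `u.prod = 0`. -/
def StWL : Prop :=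
  ∀ (R : Type u) [Ring R] (X : Set R) (m : ℕ), Van X m →
    ∀ (l l' : List R), (∀ x ∈ l, x ∈ X) → (∀ x ∈ l', x ∈ X) → m ≤ l.length + l'.length →
    ∀ b ∈ X, ∀ g : Rˣ, (g : R) = 1 + b → l.prod * (g⁻¹ : Rˣ) * l'.prod = 0

/-- ITEM SA (MEDIUM).  The computation in the ring.

PROOF.  Put `x i = v i * r i * w i` and `z i = g i⁻¹ * x i * g i - x i`.  Note
`w j * g j = w j + w j * a j`.  From the four hypotheses `h1`, ..., `h4`, for `i ≤ j < n`:
`x j * x i = 0`, `x j * g i⁻¹ * x i = 0`, `x j * g j * x i = 0`, `x j * g j * g i⁻¹ * x i = 0`.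
(1) `z j * z i = g j⁻¹ x j g j g i⁻¹ x i g i - g j⁻¹ x j g j x i - x j g i⁻¹ x i g i + x j x i = 0`.
(2) is `j = i` above: `x i * x i = 0`, and
`(1 - x i) * (g i⁻¹ * (1 + x i) * g i) = 1 + z i - x i * g i⁻¹ * x i * g i = 1 + z i`.
(3) `z i = (g i⁻¹ - 1) * x i * g i + x i * a i` and `g i⁻¹ - 1 = - a i * g i⁻¹`.  By induction on
`q ≤ n`: the product of the first `q` elements `z` is the product of the first `q` elements
`x i * a i`.  For `q = 1`: `(g 0⁻¹ - 1) * v 0 = - a 0 * g 0⁻¹ * v 0 = 0` by `h5`.  Step from `q ≥ 1` to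
`q + 1`: the product of the first `q` ends with `w (q-1) * a (q-1)`, and
`w (q-1) * a (q-1) * (g q⁻¹ - 1) * v q = - w (q-1) * a (q-1) * a q * g q⁻¹ * v q = 0` by `h6`.
(`List.range_succ`, `List.map_append`, `List.prod_append`.) -/
def StSA : Prop :=
  ∀ (R : Type u) [Ring R] (n : ℕ) (v w r a : ℕ → R) (g : ℕ → Rˣ),
    (∀ i, (g i : R) = 1 + a i) →
    (∀ i j, i ≤ j → j < n → w j * v i = 0) →
    (∀ i j, i ≤ j → j < n → w j * ((g i)⁻¹ : Rˣ) * v i = 0) →
    (∀ i j, i ≤ j → j < n → w j * a j * v i = 0) →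
    (∀ i j, i ≤ j → j < n → w j * a j * ((g i)⁻¹ : Rˣ) * v i = 0) →
    (a 0 * ((g 0)⁻¹ : Rˣ) * v 0 = 0) →
    (∀ i, i + 1 < n → w i * a i * a (i + 1) * ((g (i + 1))⁻¹ : Rˣ) * v (i + 1) = 0) →
    ∀ z : ℕ → R,
      (∀ i, z i = ((g i)⁻¹ : Rˣ) * (v i * r i * w i) * (g i : R) - v i * r i * w i) →
      (∀ i j, i ≤ j → j < n → z j * z i = 0) ∧
      (∀ i, i < n → (v i * r i * w i) * (v i * r i * w i) = 0 ∧
        (1 - v i * r i * w i) * (((g i)⁻¹ : Rˣ) * (1 + v i * r i * w i) * (g i : R)) = 1 + z i) ∧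
      ((List.range n).map z).prod = ((List.range n).map fun i => v i * r i * w i * a i).prod

/-- ITEM SW (EASY-MEDIUM, uses item WL as a hypothesis).  Cutting the words.

PROOF.  `v i = ((L i).drop (2 * i)).prod`, `w i = ((L (i+1)).take (2 * i + 1)).prod`,
`a i = (L (i+1))[2 * i + 1]` (use `getD` with default any element of `X`; if `n = 0` nothing has to
be shown except for the choice of `a i ∈ X`: `X` is nonempty because `L 0` has length
`m - 1 ≥ 1`, or use the default `(L 0)[0]`).  For `i < n` the index `2 * i + 1 < 2 * n + 1 ≤ m`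
is smaller than the length `m - 1` since `2 * i + 1 ≤ 2 * n - 1 ≤ m - 2`.  For `i ≥ n` put `a i`
the default.  `L (i+1) = take (2i+1) ++ [a i] ++ drop (2i+2)`.  The lengths: `w j` is a word of length
`2 j + 1`, `v i` a word of length `m - 1 - 2 i` (`i ≤ n`), so for `i ≤ j < n` all of the products
`w j * v i`, `w j * g i⁻¹ * v i`, `w j * a j * v i`, `w j * a j * g i⁻¹ * v i` vanish by `Van X m` and
`WL`; `a 0 * g 0⁻¹ * v 0` has `1 + (m - 1) = m` letters; `w i * a i * a (i+1)` and `v (i+1)` have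
together `2 i + 3 + m - 3 - 2 i = m` letters.  `v i` for `i < n` is a nonempty word, so it is
`b * y` with `b ∈ X`. -/
def StSW : Prop :=
  StWL.{u} →
  ∀ (R : Type u) [Ring R] (X : Set R) (m n : ℕ), Van X m → 2 * n + 1 ≤ m → 1 ≤ n →
    ∀ gg : R → Rˣ, (∀ b ∈ X, (gg b : R) = 1 + b) →
    ∀ L : ℕ → List R, (∀ i, (L i).length + 1 = m) → (∀ i, ∀ x ∈ L i, x ∈ X) →
    ∃ v w a : ℕ → R, (∀ i, a i ∈ X) ∧
      (L 0).prod = v 0 ∧ (∀ i, i < n → (L (i + 1)).prod = w i * a i * v (i + 1)) ∧
      (∀ i, i < n → ∃ b ∈ X, ∃ y, v i = b * y) ∧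
      (∀ i j, i ≤ j → j < n → w j * v i = 0) ∧
      (∀ i j, i ≤ j → j < n → w j * ((gg (a i))⁻¹ : Rˣ) * v i = 0) ∧
      (∀ i j, i ≤ j → j < n → w j * a j * v i = 0) ∧
      (∀ i j, i ≤ j → j < n → w j * a j * ((gg (a i))⁻¹ : Rˣ) * v i = 0) ∧
      (a 0 * ((gg (a 0))⁻¹ : Rˣ) * v 0 = 0) ∧
      (∀ i, i + 1 < n →
        w i * a i * a (i + 1) * ((gg (a (i + 1)))⁻¹ : Rˣ) * v (i + 1) = 0)

/-- ITEM SS (MEDIUM, uses items LW, SA, SW, WL as hypotheses).  The main computation: words of
length `m - 1`.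

PROOF.  Let `n = 2 ^ d`.  For `b ∈ X` choose `k b ∈ K` with `f (k b) = 1 + b`, and put
`gg b = f (k b)` (`gg b = 1` for `b ∉ X`).  Choose lists `L i` for the words `s i`, apply `SW` and get
`v, w, a`; put `g i = gg (a i)`, `x i = v i * r i * w i`, `z i = g i⁻¹ * x i * g i - x i` and apply
`SA`.  For `i < n`: `x i ∈ ρ`, because `v i = b * y` with `b ∈ X ⊆ ρ`; let `u = 1 + x i` be the unit of
`Rho`; `x i * x i = 0` gives `u⁻¹ = 1 - x i`, so for `k = k (a i)`:
`f k' = u⁻¹ * g i⁻¹ * u * g i = (1 - x i) * (g i⁻¹ * (1 + x i) * g i) = 1 + z i`, `k' ∈ K`.  By `LW`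
there is `k ∈ Dn d K = ⊥` with `f k = 1 + z 0 ⋯ z (n-1)`, so this product is 0, hence
`x 0 * a 0 * x 1 * a 1 ⋯ x (n-1) * a (n-1) = 0`.  Multiply on the right by `v n`.  With
`P q = ((List.range q).map fun i => x i * a i).prod` and
`S q = ((List.range q).map fun i => s i * r i).prod`, show `P q * v q = S q * s q` for all `q ≤ n` by
induction on `q`: `q = 0`: `v 0 = s 0`.  Step: `P (q+1) * v (q+1) = P q * (v q * r q * w q * a q) *
v (q+1) = (P q * v q) * r q * (w q * a q * v (q+1)) = (S q * s q) * r q * s (q+1)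
= S (q+1) * s (q+1)`.  For `q = n` this is the claim. -/
def StSS : Prop :=
  StLW.{u} → StSA.{u} → StSW.{u} → StWL.{u} →
  ∀ (G : Type) [Group G] (R : Type u) [Ring R] (f : G →* Rˣ) (K : Subgroup G) (ρ X : Set R)
    (d m : ℕ), Rho f K ρ → X ⊆ ρ → (∀ b ∈ X, ∃ k ∈ K, (f k : R) = 1 + b) → Van X m →
    Dn d K = ⊥ → 2 * 2 ^ d + 1 ≤ m →
    ∀ s r : ℕ → R, (∀ i, ∃ L : List R, L.length + 1 = m ∧ (∀ x ∈ L, x ∈ X) ∧ s i = L.prod) →
      ((List.range (2 ^ d)).map fun i => s i * r i).prod * s (2 ^ d) = 0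

/-- ITEM ST (MEDIUM, uses items SS, TI, NS, ML as hypotheses; SS is used in the form of its
conclusion `hSS`).  One descending step.

PROOF.  Let `π : R → R ⧸ B` be the quotient map (a ring, `B` is two-sided),
`f' = (Units.map π).comp f`, `X' = π '' X`, `ρ' = π '' ρ`.  Then `Rho f' K ρ'` (apply `π` to
everything; `π` is surjective), `X' ⊆ ρ'`, every `b ∈ X'` is `f' k - 1` with `k ∈ K`, and `Van X' m` by
the hypothesis on words and `Ideal.Quotient.eq_zero_iff_mem` (a list in `π '' X` is `l.map π` with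
`l` a list in `X`).  By `hSS` for `R ⧸ B`: for all words `s i` of length `m - 1` in `X` and all
`r i ∈ R` the element `((List.range n).map fun i => s i * r i).prod * s n`, `n = 2 ^ d`, lies in
`B`.  By `TI` with `S` the set of the products of `m - 1` elements of `X` there is a two-sided ideal `T`
with `S ⊆ T` and `NP B T (n + 1)`.  By `NS` with `N = ⊥`: `NP ⊥ (B ⊔ T) (k * (n + 1))`.  Every
product of at least `m - 1` elements of `X` is a product of `m - 1` of them times an element of `R`,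
so it lies in `T`. -/
def StST : Prop :=
  (∀ (G : Type) [Group G] (R : Type u) [Ring R] (f : G →* Rˣ) (K : Subgroup G) (ρ X : Set R)
    (d m : ℕ), Rho f K ρ → X ⊆ ρ → (∀ b ∈ X, ∃ k ∈ K, (f k : R) = 1 + b) → Van X m →
    Dn d K = ⊥ → 2 * 2 ^ d + 1 ≤ m →
    ∀ s r : ℕ → R, (∀ i, ∃ L : List R, L.length + 1 = m ∧ (∀ x ∈ L, x ∈ X) ∧ s i = L.prod) →
      ((List.range (2 ^ d)).map fun i => s i * r i).prod * s (2 ^ d) = 0) →
  StTI.{u} → StNS.{u} → StML.{u} →
  ∀ (G : Type) [Group G] (R : Type u) [Ring R] (f : G →* Rˣ) (K : Subgroup G) (ρ X : Set R)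
    (d m : ℕ), Rho f K ρ → X ⊆ ρ → (∀ b ∈ X, ∃ k ∈ K, (f k : R) = 1 + b) →
    Dn d K = ⊥ → 2 * 2 ^ d + 1 ≤ m →
    ∀ (B : Ideal R) [B.IsTwoSided] (k : ℕ), NP ⊥ B k →
    (∀ l : List R, m ≤ l.length → (∀ x ∈ l, x ∈ X) → l.prod ∈ B) →
    ∃ B' : Ideal R, B'.IsTwoSided ∧ (∃ k', NP ⊥ B' k') ∧
      ∀ l : List R, m ≤ l.length + 1 → (∀ x ∈ l, x ∈ X) → l.prod ∈ B'

/-- ITEM DP (EASY-MEDIUM; the step `ST` is the hypothesis `hST`).  Words of length `2 n` lie in a
nilpotent two-sided ideal, `n = 2 ^ d`.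

PROOF.  Let `X` be the finite set of the elements `de f k`, `k` in the list `l`.  By hypothesis there
is `m₀` with `Van X m₀`; so the words of length at least `m₀ + 2 n` lie in the ideal `⊥`, and
`NP ⊥ ⊥ 1`.  Descend with `hST` from `m₀ + 2 n` to `2 n`: claim for all `q ≤ m₀` (induction on `q`):
there is a two-sided ideal `B` with `NP ⊥ B k` for some `k` which contains all words in `X` of length
at least `m₀ + 2 n - q`.  (`hST` is applied with `m = m₀ + 2 n - q ≥ 2 n + 1`.)  For `q = m₀` these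
are the words of length at least `2 n`, among them `(l.map (de f)).prod`. -/
def StDP : Prop :=
  ∀ (G : Type) [Group G] (R : Type u) [Ring R] (f : G →* Rˣ) (K : Subgroup G) (ρ : Set R)
    (d : ℕ),
    (∀ (X : Set R) (m : ℕ), X ⊆ ρ → (∀ b ∈ X, ∃ k ∈ K, (f k : R) = 1 + b) →
      2 * 2 ^ d + 1 ≤ m → ∀ (B : Ideal R) [B.IsTwoSided] (k : ℕ), NP ⊥ B k →
      (∀ l : List R, m ≤ l.length → (∀ x ∈ l, x ∈ X) → l.prod ∈ B) →
      ∃ B' : Ideal R, B'.IsTwoSided ∧ (∃ k', NP ⊥ B' k') ∧
        ∀ l : List R, m ≤ l.length + 1 → (∀ x ∈ l, x ∈ X) → l.prod ∈ B') →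
    (∀ k ∈ K, de f k ∈ ρ) →
    (∀ X : Finset G, ∃ m : ℕ, Van (de f '' (X : Set G)) m) →
    ∀ l : List G, l.length = 2 * 2 ^ d → (∀ k ∈ l, k ∈ K) →
      ∃ B : Ideal R, B.IsTwoSided ∧ (∃ k', NP ⊥ B k') ∧ (l.map (de f)).prod ∈ B

/-! ### Part 4: squares, and the end of part P -/

/-- ITEM XT (EASY).  Multilinear extraction.

PROOF.  Show by induction on the list `l₁`, built from the right (`List.reverseRecOn`, or induction
on its length): for all lists `l₁ l₂` with `l₁.length + l₂.length = q`: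
`(l₁.map fun c => a * (a * c)).prod * (l₂.map fun c => a * (1 + a * c)).prod * a ∈ N`.
`l₁ = []`: hypothesis.  `l₁ ++ [c]`, `l₂`: the element is the difference of the elements for
`(l₁, c :: l₂)` and `(l₁, 0 :: l₂)`, since `a * (1 + a * c) - a * (1 + a * 0) = a * (a * c)`.  Finally
`l₂ = []`. -/
def StXT : Prop :=
  ∀ (R : Type u) [Ring R] (N : Ideal R) (a : R) (q : ℕ),
    (∀ l : List R, l.length = q → (l.map fun c => a * (1 + a * c)).prod * a ∈ N) →
    ∀ l : List R, l.length = q → (l.map fun c => a * (a * c)).prod * a ∈ N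

/-- ITEM A2 (MEDIUM, uses items JI and XT as hypotheses).  Squares.

PROOF.  Let `a = de f g`.  For a list `l` of elements `c` of `R`, `l.length = q`, we show
`(l.map fun c => a * (1 + a * c)).prod * a ∈ N`.  Claim, by induction on the list `l` from the
right (or on `l` with a general starting unit `w ∈ 1 + a R` as in the next sentence): for every
unit `w` with `w = 1 + a * t` and every list `l` there are a list `k` of elements of `K` with
`k.length = l.length + 1` and a unit `w'` with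
`w * ((l.map fun c => a * (1 + a * c)).prod * a) = (k.map (de f)).prod * w'`.
For `l = []`: `w * a = (w * a * w⁻¹) * w`, and `w * a * w⁻¹ = de f h` where `f h = w * f g * w⁻¹` by
`NrmJ` (`w - 1 = a * t ∈ J` by `JI`); `h ∈ K` because `w * a * w⁻¹ = (a + a * t * a) * w⁻¹ ∈ a R`.
For `l = c :: l'`: `u = 1 + a * c` is a unit (`a * c ∈ J` is nilpotent), and
`w * a * (1 + a * c) = (w * a * w⁻¹) * (w * u)` with `w * u = 1 + a * (t + c + t * a * c)` again in
`1 + a R`; apply the induction hypothesis to the unit `w * u` and `l'`.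
With `w = 1` and `l.length = q`: the list `k` has `q + 1` elements, so `(k.map (de f)).prod ∈ N` and
`N` is two-sided.  By `XT`: `(l.map fun c => a * (a * c)).prod * a ∈ N` for all lists of length `q`;
multiply by `a` on the right and take `l = (List.range q).map r`. -/
def StA2 : Prop :=
  StJI.{u} → StXT.{u} →
  ∀ (G : Type) [Group G] (R : Type u) [Ring R] (f : G →* Rˣ), Spn f →
    (∀ x ∈ Jn f, IsNilpotent x) → NrmJ f → ∀ (g : G) (K : Subgroup G),
    (∀ h, h ∈ K ↔ ∃ r : R, de f h = de f g * r) →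
    ∀ (N : Ideal R) [N.IsTwoSided] (q : ℕ),
    (∀ l : List G, l.length = q + 1 → (∀ k ∈ l, k ∈ K) → (l.map (de f)).prod ∈ N) →
    ∀ r : ℕ → R, ((List.range q).map fun i => (de f g * de f g) * r i).prod *
      (de f g * de f g) ∈ N

/-- ITEM A3 (EASY).  From squares to `a c a`.

PROOF.  Let `a = de f g`, `b = de f h`.  `de f (g h) = a + b + a * b`, so `(a + b + a * b) ^ 2 ∈ N`,
and `a * a, b * b ∈ N`.  Expanding, `E = a b + b a + b a b + a b a + a b a b ∈ N` (the other terms
contain `a a` or `b b`).  `E * a ∈ N` gives `a b a + b a b a + a b a b a ∈ N` (terms with `a a`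
dropped); multiplying this on the left by `a` gives `a b a b a ∈ N` (the terms `a a b a` and
`a a b a b a` are in `N`).  So `a b a + b a b a = (1 + b) * (a b a) = f(h) * (a b a) ∈ N`, and
`a b a ∈ N` by multiplying with `f(h)⁻¹` on the left.  With `a * a ∈ N`: `a * f(h) * a ∈ N` for all
`h`; as `R` is the additive span of the `f(h)`, `a * c * a ∈ N` for all `c` (closure induction). -/
def StA3 : Prop :=
  ∀ (G : Type) [Group G] (R : Type u) [Ring R] (f : G →* Rˣ), Spn f →
    ∀ (N : Ideal R) [N.IsTwoSided], (∀ g, de f g * de f g ∈ N) →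
    ∀ (g : G) (c : R), de f g * c * de f g ∈ N

/-- ITEM FI (EASY-MEDIUM).  The filtration of a two-sided ideal that is nilpotent modulo `N`.

PROOF.  `I j = {z | ∀ l₁ l₂ : List R, (∀ x ∈ l₁, x ∈ T) → (∀ x ∈ l₂, x ∈ T) →
j ≤ l₁.length + l₂.length → l₁.prod * z * l₂.prod ∈ N}`.  Closed under sums: clear.  Closed under left
multiplication by `r`: if `l₁ = []` use that `N` is a left ideal; if `l₁ = l ++ [t]` then
`l₁.prod * (r * z) = (l ++ [t * r]).prod * z` and `t * r ∈ T`; on the right similarly (`l₂ = []` or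
`l₂ = t :: l`).  `I 0 ≤ N`: empty lists.  `T ≤ I k`: the product of the list `l₁ ++ [z] ++ l₂` of
length greater than `k` is in `N`.  If `z ∈ I (j+1)`, `b ∈ T`: `l₁.prod * (z * b) * l₂.prod =
l₁.prod * z * (b :: l₂).prod` and `l₁.prod * (b * z) * l₂.prod = (l₁ ++ [b]).prod * z * l₂.prod`. -/
def StFI : Prop :=
  ∀ (R : Type u) [Ring R] (N T : Ideal R) [N.IsTwoSided] [T.IsTwoSided] (k : ℕ), NP N T k →
    ∃ I : ℕ → Ideal R, (∀ j, (I j).IsTwoSided) ∧ I 0 ≤ N ∧ T ≤ I k ∧
      ∀ j, ∀ z ∈ I (j + 1), ∀ b ∈ T, z * b ∈ I j ∧ b * z ∈ I j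

/-- ITEM FT (MEDIUM, uses item FI as a hypothesis).  The Fitting lemma: if `f(G)` is not contained in `1 + N`, it is not
contained in `1 + N'`, where `N'` is the next ideal.

PROOF.  Suppose `de f g ∈ N'` for all `g`.  `E = {g | de f g ∈ N}` is a normal subgroup of `G`
(`de f (g h) = de f g + de f h + de f g * de f h`, `de f (h g h⁻¹) = f(h) (de f g) f(h)⁻¹`), `E ≠ ⊤`.
`Q = G ⧸ E` is an example (`Exm.map`, `QuotientGroup.mk'_surjective`).  We show `Bdd 1 Q`, which
contradicts `Pool.Agent.HL3218.not_bdd`.  Let `S` be a finite subset of `Q`, `M` its normal closure.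
Apply the hypothesis `hfin` (the last but one hypothesis) to the finite list of the
elements `de f g`, `g` running over chosen preimages of the elements of `S`: there is a two-sided
ideal `T ⊇ N` with `NP N T k` which contains all these `de f g`.  Then for every `y`
in the normal closure `M` of `S` and every preimage `g` of `y`: `de f g ∈ T` (the subgroup
`{y | de f g ∈ T for all preimages g of y}` of `Q` is normal and contains `S`: two preimages differ by
an element of `E` and `N ≤ T`).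
Let `I j` be the two-sided ideals of item `FI` (the first hypothesis) for `N`, `T`, `k`.
Claim: for all `j` and all `x ∈ M` with a preimage `g` such that `de f g ∈ I j`:
`x ∈ step^[j] {1}` (sets of elements of the group `M`).  `j = 0`: `de f g ∈ N`, `g ∈ E`, `x = 1`.
Step: `Function.iterate_succ_apply'`; for `y ∈ M` with preimage `h`, `b = de f h ∈ T`,
`a = de f g ∈ I (j+1)`: `f (g h g⁻¹ h⁻¹) - 1 = (a b - b a) f(g)⁻¹ f(h)⁻¹ ∈ I j`, so the commutator
lies in `step^[j] {1}` by induction.  As every `x ∈ M` has a preimage with `de f g ∈ T ⊆ I k`,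
`M = step^[k] {1} ⊆ Zom M 1`. -/
def StFT : Prop :=
  StFI.{u} →
  ∀ (p : ℕ) (G : Type) [Group G] (_ : Exm p G) (R : Type u) [Ring R] (f : G →* Rˣ)
    (N N' : Ideal R) [N.IsTwoSided], Nxt N N' →
    (∀ l : List R, (∀ x ∈ l, x ∈ N') →
      ∃ T : Ideal R, T.IsTwoSided ∧ N ≤ T ∧ (∀ x ∈ l, x ∈ T) ∧ ∃ k, NP N T k) →
    (∃ g, de f g ∉ N) → ∃ g, de f g ∉ N'

/-- ITEM FN (EASY-MEDIUM, uses item NS as a hypothesis).  Finitely many elements of the next ideal
lie in one two-sided ideal which is nilpotent modulo `N` and contains `N`.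

PROOF.  Induction on the list.  Empty list: `T = N`, `k = 1`.  `x :: l`: `x ∈ T₁` with
`NP N T₁ k₁` and the induction hypothesis `T₂ ⊇ N`, `NP N T₂ k₂`.  By `NS` with `B = T₂` and
`T = T₁`: `NP T₂ T₁ k₁` (as `N ≤ T₂`), so `NP N (T₂ ⊔ T₁) (k₂ * k₁)`. -/
def StFN : Prop :=
  StNS.{u} →
  ∀ (R : Type u) [Ring R] (N N' : Ideal R) [N.IsTwoSided], Nxt N N' →
    ∀ l : List R, (∀ x ∈ l, x ∈ N') →
      ∃ T : Ideal R, T.IsTwoSided ∧ N ≤ T ∧ (∀ x ∈ l, x ∈ T) ∧ ∃ k, NP N T k

/-! ### Part 5: part T, the general ring -/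

/-- ITEM T1 (EASY-MEDIUM).

PROOF.  Write `g` for `f(g)` and `N` for `NN f g`, `o = orderOf g > 0` (a `p`-group is torsion).
`N * (g - 1) = g ^ o - 1 = 0` (`geom_sum_mul`), so `N * g = N`.  `x = (g - 1) * c * N`: `x * x = 0`,
so `u = 1 + x` is a unit with inverse `1 - x` and `u - 1` is nilpotent.
`u * g * u⁻¹ = g + x * g - g * x - x * g * x = g + x - g * x = g - (g - 1) * (g - 1) * c * N`.  By
`Nrm` it is `f g'`.  So `f (g⁻¹ * g') = 1 + y` with `y = - g⁻¹ * (g - 1) * (g - 1) * c * N`, and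
`y * y = 0` since `N * g⁻¹ = N` and `N * (g - 1) = 0`.  The element `g⁻¹ * g'` has order `p ^ e`:
`1 = (1 + y) ^ (p ^ e) = 1 + p ^ e * y` (induction on the exponent, `y * y = 0`).  So
`p ^ e * y = 0`; multiply by `- g` on the left. -/
def StT1 : Prop :=
  ∀ (p : ℕ) (G : Type) [Group G] (_ : IsPGroup p G) (_ : p.Prime) (R : Type u) [Ring R]
    (f : G →* Rˣ),
    Nrm f → ∀ (g : G) (c : R), ∃ e : ℕ, (p : R) ^ e * (de f g * de f g * c * NN f g) = 0

/-- ITEM ZR (EASY-MEDIUM).  A maximal pure ideal.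

PROOF.  Zorn's lemma (`zorn_le_nonempty₀` or `zorn_le₀`) for the set of two-sided `p`-pure ideals
`P` with `x0 ∉ P`.  It contains the ideal `{x | ∃ e, p ^ e * x = 0}` (`p` is central:
`Nat.cast_commute`; sums with the larger exponent).  The union of a nonempty chain of such ideals is
such an ideal (`Submodule.mem_sSup_of_directed`). -/
def StZR : Prop :=
  ∀ (R : Type u) [Ring R] (p : ℕ) (x0 : R), (∀ e : ℕ, (p : R) ^ e * x0 ≠ 0) →
    ∃ P : Ideal R, MaxPure p x0 P

/-- ITEM T3 (MEDIUM).  Norms lie in the maximal pure ideal.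

PROOF.  Let `P` be maximal pure without `x0 = de f g0`.  Let `a = de f g ∉ P`, `N = NN f g`,
`o = orderOf g`, a power of `p`.  For all `c`: `a * a * c * N ∈ P` by hypothesis and purity
(`p ^ e * y = 0 ∈ P`, induct on `e`).  Hence `a * c * N ∈ P`: `1 = f(g) ^ o = (1 + a) ^ o` gives
`0 = o * a + q * (a * a)` with `q` a polynomial in `a` (show by induction on `n`: for all `n` there is
`q : R` with `(1 + a) ^ n = 1 + n * a + q * (a * a)`), so
`o * (a * c * N) = - q * (a * a * c * N) ∈ P` and `o` is a power of `p`.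
`W = {x | ∀ c, a * c * x ∈ P}` is a two-sided ideal, `p`-pure, contains `P` and `N`.  Suppose
`N ∉ P`; then `W ≠ P` and so `x0 ∈ W` by maximality.  `V = {y | ∀ c, y * c * x0 ∈ P}` is a
two-sided `p`-pure ideal, contains `P` and `a` (by `x0 ∈ W`), `a ∉ P`, so `V ≠ P`, `x0 ∈ V`, so
`x0 * x0 ∈ P` (`c = 1`).  As before `0 = o' * x0 + q' * (x0 * x0)` with `o' = orderOf g0` a power of
`p`, so `o' * x0 ∈ P`, `x0 ∈ P` by purity.  Contradiction. -/
def StT3 : Prop :=
  ∀ (p : ℕ) (G : Type) [Group G] (_ : IsPGroup p G) (_ : p.Prime) (R : Type u) [Ring R]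
    (f : G →* Rˣ) (g0 : G) (P : Ideal R), MaxPure p (de f g0) P →
    (∀ (g : G) (c : R), ∃ e : ℕ, (p : R) ^ e * (de f g * de f g * c * NN f g) = 0) →
    ∀ g : G, de f g ∉ P → NN f g ∈ P

/-- ITEM TQ (MEDIUM).  Passing to the quotient.

PROOF.  `E = {g | de f g ∈ P}` is a normal subgroup; `Γ = G ⧸ E`, `π` the quotient map,
`R' = R ⧸ P`, `f'` the homomorphism induced by `(Units.map (Ideal.Quotient.mk P)).comp f`
(`QuotientGroup.lift`).  `E ≠ ⊤` as `x0 = de f g0 ∉ P`; `R'` is nontrivial (if `1 ∈ P` then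
`x0 ∈ P`).  No `p`-torsion: purity.  Let `v = π g ≠ 1` with `v ^ p = 1`; `de f g ∉ P`, so
`NN f g ∈ P`.  In `R'` put `t = f' v`, `t ^ p = 1`.  The order `o` of `g` is a power of `p`, and it is
divisible by `p` as `g ≠ 1`: `o = p * o'`, and `Σ_{i < o} t ^ i = o' * Σ_{i < p} t ^ i` (induction on
`o'`: `Finset.sum_range_add` and `t ^ (p * j + i) = t ^ i`), with `o'` a power of `p`.  The left side
is the image of `NN f g`, so 0.  As `R'` has no `p`-torsion, `Σ_{i < p} t ^ i = 0`. -/
def StTQ : Prop :=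
  ∀ (p : ℕ) (G : Type) [Group G] (_ : IsPGroup p G) (_ : p.Prime) (R : Type u) [Ring R]
    (f : G →* Rˣ) (g0 : G) (P : Ideal R), MaxPure p (de f g0) P →
    (∀ g : G, de f g ∉ P → NN f g ∈ P) →
    ∃ (Γ : Type) (_ : Group Γ) (π : G →* Γ), Function.Surjective π ∧ Nontrivial Γ ∧
      ∃ (R' : Type u) (_ : Ring R') (f' : Γ →* R'ˣ), Nontrivial R' ∧
        (∀ x : R', (p : R') * x = 0 → x = 0) ∧
        ∀ v : Γ, v ≠ 1 → v ^ p = 1 → ∑ i ∈ Finset.range p, (f' v : R') ^ i = 0

/-- ITEM T4 (EASY-MEDIUM).  Commuting elements of order `p` are dependent.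

PROOF.  Suppose `v` is not a power of `w`.  Then `v * w ^ j ≠ 1` for all `j` (otherwise
`v = (w ^ j)⁻¹ = w ^ (j * (p - 1))`), `v * w ^ j` has `p`-th power 1 (commuting), and
`v ≠ 1` (`v = w ^ 0`).  With `V = f' v`, `W = f' w`:
`0 = Σ_{j < p} Σ_{i < p} (V * W ^ j) ^ i = Σ_{i < p} V ^ i * Σ_{j < p} W ^ (i * j)`.  The term
`i = 0` is `p`; for `0 < i < p` the element `w ^ i` is not 1 (else `w = 1`, as `w ^ p = 1` and
`p` is prime) and has `p`-th power 1, so `Σ_j (W ^ i) ^ j = 0`.  So `p = 0` in `R'`, and `1 = 0` as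
`p * 1 = 0`.  Contradiction. -/
def StT4 : Prop :=
  ∀ (p : ℕ) (_ : p.Prime) (Γ : Type) [Group Γ] (R' : Type u) [Ring R'] (f' : Γ →* R'ˣ)
    [Nontrivial R'], (∀ x : R', (p : R') * x = 0 → x = 0) →
    (∀ v : Γ, v ≠ 1 → v ^ p = 1 → ∑ i ∈ Finset.range p, (f' v : R') ^ i = 0) →
    Dep p Γ

/-- ITEM TF (EASY-MEDIUM, uses items JI and PF as hypotheses).  If `J` is `p`-power torsion, `f` is
nontrivial modulo `p`.

PROOF.  Suppose every `de f g` is of the form `p * r`.  Then so is every element of `J` (closure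
induction).  Every element of `J` is of the form `p * j` with `j ∈ J`: by `PF` and closure induction
`J ≤ J2 f`, and for `y, z ∈ J`, `y = p * r`, `y * z = p * (r * z)` with `r * z ∈ J` (`JI`); sums are
clear.  By induction on `e` every element `z` of `J` is `p ^ e * z'` with `z' ∈ J`.  Let `y, z ∈ J`;
`p ^ e * y = 0`; `y * z = y * (p ^ e * z') = (p ^ e * y) * z' = 0` (`p` is central).  So `J2 f = 0`, so
`de f g = 0` for all `g` by `PF`, so `f = 1`. -/
def StTF : Prop :=
  StJI.{u} → StPF.{u} →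
  ∀ (p : ℕ) (G : Type) [Group G] (_ : commutator G = ⊤) (R : Type u) [Ring R] (f : G →* Rˣ),
    Spn f → (∀ x ∈ Jn f, ∃ e : ℕ, (p : R) ^ e * x = 0) → f ≠ 1 →
    ∃ g, ¬ ∃ r : R, de f g = (p : R) * r

/-- ITEM TL (EASY-MEDIUM).  Lifting of the units: the hypothesis `Nrm` for `R` gives `NrmJ` for
`R / p R`.

PROOF.  Let `u₁` be a unit of `R₁` with `u₁ - 1 ∈ Jn f₁`.  `Jn f₁` is the image of `Jn f` (closure
induction), so there is `x ∈ Jn f` with `π x = u₁ - 1`.  `π x` is nilpotent, `(π x) ^ k = 0`, so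
`x ^ k = p * c`.  `p ^ e * x = 0` for some `e`.  `x ^ (k * e) * x = (p * c) ^ e * x =
c ^ e * (p ^ e * x) = 0` (`p` is central).  So `x` is nilpotent, `u = 1 + x` is a unit of `R` with
`u - 1` nilpotent, `Units.map π u = u₁`.  By `Nrm`, `f g' = u * f g * u⁻¹`; apply `Units.map π`. -/
def StTL : Prop :=
  ∀ (p : ℕ) (G : Type) [Group G] (R R₁ : Type u) [Ring R] [Ring R₁] (π : R →+* R₁)
    (f : G →* Rˣ) (f₁ : G →* R₁ˣ), Function.Surjective π →
    (∀ x, π x = 0 → ∃ c : R, x = (p : R) * c) → (∀ g, (f₁ g : R₁) = π (f g)) →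
    (∀ x ∈ Jn f, ∃ e : ℕ, (p : R) ^ e * x = 0) → (∀ x ∈ Jn f₁, IsNilpotent x) →
    Nrm f → NrmJ f₁

/-- ITEM FL (EASY-MEDIUM).  Reduction to the subring generated by `f(G)`.

PROOF.  `R` is the subring `Subring.closure (Set.range fun g => (f g : A))`, `ι` the inclusion, `f'`
the corestriction (`f g` and `f g⁻¹` lie in the subring).  `Spn f'`: the additive span of `f'(G)` in
`R` is closed under multiplication, contains 1 and the generators; by `Subring.closure_induction`
(or: the additive closure of the range of `f` in `A` is a subring, so contains the closure) every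
element of `R` lies in it. -/
def StFL : Prop :=
  ∀ (G : Type) [Group G] (A : Type u) [Ring A] (f : G →* Aˣ),
    ∃ (R : Type u) (_ : Ring R) (ι : R →+* A) (f' : G →* Rˣ), Function.Injective ι ∧ Spn f' ∧
      (∀ g, ι (f' g : R) = (f g : A)) ∧
      ∀ r : R, ι r ∈ Subring.closure (Set.range fun g => (f g : A))

/-! ### Part 6: the group theory of part T -/

/-- ITEM MC (MEDIUM).  An example has a proper nontrivial normal subgroup (McLain).

PROOF.  `G` is not abelian (`commutator G = ⊤ ≠ ⊥`), so there are `x, y` with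
`c = ⁅x, y⁆ ≠ 1`.  `N = normalClosure {c}` is nontrivial.  Claim `x ∉ N`.  Suppose `x ∈ N`: then
`x` lies in the subgroup generated by finitely many conjugates `g c g⁻¹`, `g ∈ S`, `S` finite (an
element of a closure lies in the closure of a finite subset; `Subgroup.normalClosure` is
`closure (Group.conjugatesOfSet ..)`).  `H = closure (S ∪ {x, y})` is finite, a `p`-group, hence
nilpotent.  Inside `H` let `X` be the normal closure of `x`; then `⁅x, y⁆ ∈ ⁅X, ⊤⁆`, which is normal
in `H`, so all conjugates of `c` by elements of `S` and therefore `x` are in `⁅X, ⊤⁆`; so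
`X ≤ ⁅X, ⊤⁆`.  In a nilpotent group this gives `X ≤ lowerCentralSeries n` for all `n` by induction
(`X ≤ ⁅X, ⊤⁆ ≤ ⁅lowerCentralSeries n, ⊤⁆`), so `X = ⊥`, `x = 1`, `c = 1`, contradiction. -/
def StMC : Prop :=
  ∀ (p : ℕ) (G : Type) [Group G], Exm p G → ∃ N : Subgroup G, N.Normal ∧ N ≠ ⊥ ∧ N ≠ ⊤

/-- ITEM ZG (EASY-MEDIUM, uses item MC as a hypothesis).  In an example with `Dep` there is a central
element `ζ` of order `p` whose powers are all the elements with `p`-th power 1.

PROOF.  Take `N` from `MC`; it is solvable (`Exm.proper`), and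
`Pool.Agent.HL3218.exists_elementary` gives a normal `V ≠ ⊥`, abelian, with `x ^ p = 1` for
`x ∈ V`.  Let `ζ ∈ V`, `ζ ≠ 1`.  By `Dep` every element of `V` is a power of `ζ`, so `V` is finite
(`ζ ^ i` depends on `i % p`).  The conjugates of `ζ` lie in `V`, so they are finitely many and the
centraliser of `ζ` has finite index (orbit-stabiliser, for instance
`MulAction.index_stabilizer` for the conjugation action; or the kernel of `G →* MulAut V`, the
group `MulAut V` being finite), so it is `G` (`Exm.eq_top_of_finiteIndex`).  If `v ^ p = 1`, `v`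
commutes with `ζ`, so `v = ζ ^ i` by `Dep`. -/
def StZG : Prop :=
  StMC →
  ∀ (p : ℕ) (G : Type) [Group G], Exm p G → Dep p G →
    ∃ ζ : G, ζ ≠ 1 ∧ ζ ^ p = 1 ∧ ζ ∈ Subgroup.center G ∧ ∀ v : G, v ^ p = 1 → ∃ i : ℕ, v = ζ ^ i

/-- ITEM BB (EASY-MEDIUM, uses item MC as a hypothesis).

PROOF.  `Q = G ⧸ center G` is an example (`Exm.map`; it is nontrivial since `G` is not abelian, see
the proof of `Pool.Agent.HL3218.not_bdd`).  `MC` and `exists_elementary` (as in item ZG) give a
normal elementary abelian `V ≠ ⊥` of `Q`; `B = V.comap (QuotientGroup.mk' _)`. -/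
def StBB : Prop :=
  StMC →
  ∀ (p : ℕ) (G : Type) [Group G], Exm p G →
    ∃ B : Subgroup G, B.Normal ∧ (∃ b ∈ B, b ∉ Subgroup.center G) ∧
      (∀ b ∈ B, b ^ p ∈ Subgroup.center G) ∧
      ∀ x ∈ B, ∀ y ∈ B, ⁅x, y⁆ ∈ Subgroup.center G

/-- ITEM GR (EASY).  Grün's lemma in the form needed.

PROOF.  `G` is perfect, so `center (G ⧸ center G) = ⊥`
(`Group.IsPerfect.center_quotient_center_eq_bot`, see the proof of `Pool.Agent.HL3218.not_bdd`).  The
hypothesis says that the image of `b` is central in `G ⧸ center G`, so it is trivial.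
Second part: the set of `h` with `⁅h, b⁆ ∈ center G` is the preimage of the centraliser of the image
of `b` in `Q = G ⧸ center G`; if the conjugates `h * b * h⁻¹` have finitely many images in `Q`, then
this centraliser has finite index in `Q` (its cosets correspond to the conjugates), so it is `⊤`
(`Exm.eq_top_of_finiteIndex` for `Q`, or for its preimage in `G`), contradiction to the first part. -/
def StGR : Prop :=
  ∀ (p : ℕ) (G : Type) [Group G], Exm p G → ∀ b : G,
    ((∀ h : G, h * b * h⁻¹ * b⁻¹ ∈ Subgroup.center G) → b ∈ Subgroup.center G) ∧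
    (b ∉ Subgroup.center G →
      (Set.range fun h : G => ((h * b * h⁻¹ : G) : G ⧸ Subgroup.center G)).Infinite)

/-- ITEM PO (EASY-MEDIUM, uses items MC, ZG, BB, GR as hypotheses).  The contradiction for odd `p`.

PROOF.  Take `ζ` (`ZG`), `B` and `b ∈ B`, `b ∉ center G` (`BB`).  Let `h : G`, `x = h * b * h⁻¹`,
`y = b⁻¹`, both in `B`.  `c = ⁅y, x⁆` is central.  So `(x * y) ^ n = x ^ n * y ^ n * c ^ (n (n-1)/2)`
(induction on `n`; `y ^ k * x = x * y ^ k * c ^ k`).  `c ^ p = ⁅y ^ p, x⁆ = 1` since `y ^ p` is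
central.  As `p` is odd, `p` divides `p (p-1)/2`, so
`(x * y) ^ p = x ^ p * y ^ p = h * b ^ p * h⁻¹ * (b ^ p)⁻¹ = 1`.  So `x * y = ζ ^ i` is central:
`h * b * h⁻¹ * b⁻¹ ∈ center G` for all `h`; by `GR`, `b ∈ center G`.  Contradiction. -/
def StPO : Prop :=
  StMC → StZG → StBB → StGR →
  ∀ (p : ℕ) (G : Type) [Group G], Exm p G → p ≠ 2 → Dep p G → False

/-- ITEM PS (EASY-MEDIUM).  A computation in a group of class 2, for `p = 2`.

PROOF.  `ζ` is central with `ζ * ζ = 1`, `z` is central, `b i * b i = z` and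
`b i * b j = ζ * (b j * b i)` for distinct `i`, `j`.  Move the letters: in
`(b 0 b 1 b 2 b 3) (b 0 b 1 b 2 b 3)` bring the second `b 0` to the left through three letters (a
factor `ζ ^ 3`), then `b 1` through two (`ζ ^ 2`), `b 2` through one: the result is
`ζ ^ 6 * z ^ 4 = z ^ 4`.  Hence `(b 0 b 1 b 2 b 3 z⁻¹ z⁻¹) ^ 2 = 1`. -/
def StPS : Prop :=
  ∀ (G : Type) [Group G] (ζ z b0 b1 b2 b3 : G), (∀ h : G, h * ζ = ζ * h) → ζ * ζ = 1 →
    (∀ h : G, h * z = z * h) → b0 * b0 = z → b1 * b1 = z → b2 * b2 = z → b3 * b3 = z →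
    b0 * b1 = ζ * (b1 * b0) → b0 * b2 = ζ * (b2 * b0) → b0 * b3 = ζ * (b3 * b0) →
    b1 * b2 = ζ * (b2 * b1) → b1 * b3 = ζ * (b3 * b1) → b2 * b3 = ζ * (b3 * b2) →
    (b0 * b1 * b2 * b3 * z⁻¹ * z⁻¹) ^ 2 = 1

/-- ITEM PT (MEDIUM, uses items MC, ZG, BB, GR, PS as hypotheses).  The contradiction for `p = 2`.

PROOF.  Take `ζ` (`ZG`), `B` and `b ∈ B`, `b ∉ center G` (`BB`); `z = b ^ 2` is central.  By `GR` the
conjugates of `b` have infinitely many images modulo the centre; choose five, `b i = h i * b * (h i)⁻¹`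
(`i < 5`), pairwise distinct modulo the centre.  `b i ^ 2 = h i * z * (h i)⁻¹ = z`.  For `i ≠ j` the
commutator `c = ⁅b i, b j⁆` is central and `c ^ 2 = ⁅b i ^ 2, b j⁆ = 1`, so `c` is a power of `ζ`, so
`c = 1` or `c = ζ`.  If `c = 1`, then `(b i * (b j)⁻¹) ^ 2 = b i ^ 2 * (b j ^ 2)⁻¹ = 1`, so
`b i * (b j)⁻¹` is a power of `ζ`, central, and `b i`, `b j` are equal modulo the centre:
contradiction.  So `b i * b j = ζ * (b j * b i)`.  By `PS` the squares of
`b 0 b 1 b 2 b 3 z⁻¹ z⁻¹` and of `b 0 b 1 b 2 b 4 z⁻¹ z⁻¹` are 1; so both are powers of `ζ`, hence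
central, and so `b 3` and `b 4` are equal modulo the centre (both are
`(b 0 b 1 b 2)⁻¹` times central elements).  Contradiction. -/
def StPT : Prop :=
  StMC → StZG → StBB → StGR → StPS →
  ∀ (G : Type) [Group G], Exm 2 G → Dep 2 G → False

end Pool.Agent.UN
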